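import Pool.Agent.MP_96f5a9_co.h59a.Spec

-- ======== part 0: formerly Pool.Agent.MP_96f5a9_co.h80.G2A
section MrgPart0

/-!
The protected gain, first part: the composition test for the generators near the median.
-/

set_option autoImplicit false

namespace Pool.Agent.MP_96f5a9_co.H80

open Finset Function H51 H16 H93 H36

variable {ι : Type} [Fintype ι] [DecidableEq ι] {g : ι → ℕ} {T : Finset (ι → ℕ)} {m M : ℕ}

/-- The generators within `R` of `s`. -/
def Nr (g : ι → ℕ) (s R : ℕ) : Finset ι := univ.filter fun i => g i ≤ s + R ∧ s ≤ g i + R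

/-- The number of open directions in `I`. -/
def live (T : Finset (ι → ℕ)) (I : Finset ι) (y : ι → ℕ) : ℕ := (I.filter fun i => y + ee i ∈ T).card

/-- The gain at the points where most directions of `I` are blocked. -/
def Gam (g : ι → ℕ) (T : Finset (ι → ℕ)) (M m : ℕ) (I : Finset ι) : ℕ :=
  ∑ y ∈ T, (M - wt g y) / m * (Fintype.card ι - 8 * live T I y)

/-- Top points with many factors in `I`. -/
def Gd (g : ι → ℕ) (M m : ℕ) (I : Finset ι) (b : ℕ) (z : ι → ℕ) : Prop :=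
  M - wt g z < m ∧ b ≤ dp I z

instance (g : ι → ℕ) (M m : ℕ) (I : Finset ι) (b : ℕ) : DecidablePred (Gd g M m I b) := fun _ => by
  unfold Gd; infer_instance

lemma parents0 (P : Finset ι) (Z Y : Finset (ι → ℕ)) (φ : (ι → ℕ) → ℕ)
    (h : ∀ z ∈ Z, ∀ j ∈ P, 0 < z j → z - ee j ∈ Y) :
    ∑ z ∈ Z, ∑ j ∈ P, z j * φ (z - ee j) ≤ ∑ y ∈ Y, (P.card + dp P y) * φ y := by
  rw [sum_comm]
  refine (sum_le_sum fun j hj =>
    shift_le Y Z j (fun k => k) rfl φ fun z hz => h z hz j hj).trans ?_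
  rw [sum_comm]
  refine sum_le_sum fun y _ => ?_
  rw [← sum_mul, sum_add_distrib, sum_const, smul_eq_mul, mul_one, add_comm, dp]

lemma live_sum (I : Finset ι) (Y V : Finset (ι → ℕ)) (φ : (ι → ℕ) → ℕ)
    (h : ∀ y ∈ Y, ∀ i ∈ I, y + ee i ∈ T → y + ee i ∈ V) :
    ∑ y ∈ Y, live T I y * φ y ≤ ∑ z ∈ V, ∑ j ∈ I, z j * φ (z - ee j) := by
  rw [sum_comm]
  calc _ = ∑ j ∈ I, ∑ y ∈ Y.filter (fun y => y + ee j ∈ T), φ y := by
        simp only [live, card_filter, sum_filter, sum_mul]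
        rw [sum_comm]
        exact sum_congr rfl fun _ _ => sum_congr rfl fun _ _ => by split_ifs <;> simp
    _ ≤ _ := sum_le_sum fun j hj => le_trans
        (sum_le_sum fun y _ => Nat.le_mul_of_pos_left _ (Nat.succ_pos _))
        (edge_ge _ V j φ fun y hy => h y (mem_filter.1 hy).1 j hj (mem_filter.1 hy).2)

/-- Non-top points are paid by the gain or by their children. -/
lemma card_gam (hm : 0 < m) (I : Finset ι) (Y V : Finset (ι → ℕ)) (hY : Y ⊆ T)
    (hx : ∀ y ∈ Y, m ≤ M - wt g y) (h : ∀ y ∈ Y, ∀ i ∈ I, y + ee i ∈ T → y + ee i ∈ V) :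
    Fintype.card ι * Y.card ≤ Gam g T M m I + 8 * ∑ z ∈ V, dp I z := by
  have h1 := live_sum I Y V (fun _ => 1) h
  have h2 : ∑ _y ∈ Y, Fintype.card ι ≤
      ∑ y ∈ Y, ((M - wt g y) / m * (Fintype.card ι - 8 * live T I y) + 8 * live T I y) :=
    sum_le_sum fun y hy => by
      have := Nat.le_mul_of_pos_left (Fintype.card ι - 8 * live T I y) (Nat.div_pos (hx y hy) hm)
      omega
  have h3 : ∑ y ∈ Y, (M - wt g y) / m * (Fintype.card ι - 8 * live T I y) ≤ Gam g T M m I :=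
    sum_le_sum_of_subset hY
  simp only [mul_one, sum_add_distrib, ← mul_sum, sum_const, smul_eq_mul] at h1 h2
  unfold dp
  linarith only [h1, h2, h3]

lemma testG (hT : ∀ x ∈ T, ∀ y, y ≤ x → y ∈ T) (I : Finset ι) {κ : ℕ}
    (hD : ∀ y ∈ T, Iᶜ.card + dp Iᶜ y ≤ κ * Fintype.card ι) (L : ℕ) :
    ∑ z ∈ T, ∑ j ∈ Iᶜ, z j * ((M - wt g (z - ee j)) / m * (L - dp I z)) ≤
      κ * (L * Gam g T M m I +
        8 * ∑ z ∈ T, ∑ j ∈ I, z j * ((M - wt g (z - ee j)) / m * (L + 1 - dp I z))) := by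
  set φ : (ι → ℕ) → ℕ := fun y => (M - wt g y) / m * (L - dp I y) with hφ
  have h1 := (parents0 Iᶜ T T φ fun z hz j _ _ => down hT hz j).trans
    (sum_le_sum fun y hy => Nat.mul_le_mul_right _ (hD y hy))
  have h2 : ∑ y ∈ T, Fintype.card ι * φ y ≤ ∑ y ∈ T,
      (L * ((M - wt g y) / m * (Fintype.card ι - 8 * live T I y)) + 8 * (live T I y * φ y)) :=
    sum_le_sum fun y _ => by
      have a1 := Nat.mul_le_mul_right (φ y)
        (show Fintype.card ι ≤ Fintype.card ι - 8 * live T I y + 8 * live T I y by omega)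
      have a2 : φ y ≤ (M - wt g y) / m * L := Nat.mul_le_mul_left _ (Nat.sub_le _ _)
      linarith only [a1, Nat.mul_le_mul_left (Fintype.card ι - 8 * live T I y) a2]
  have h3 := live_sum (T := T) I T T φ fun _ _ _ _ h => h
  have h4 : ∑ z ∈ T, ∑ j ∈ Iᶜ, z j * ((M - wt g (z - ee j)) / m * (L - dp I z)) =
      ∑ z ∈ T, ∑ j ∈ Iᶜ, z j * φ (z - ee j) :=
    sum_congr rfl fun z _ => sum_congr rfl fun j hj => by
      simp only [hφ, dp_not (mem_compl.1 hj)]
  have h5 : ∑ z ∈ T, ∑ j ∈ I, z j * ((M - wt g (z - ee j)) / m * (L + 1 - dp I z)) =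
      ∑ z ∈ T, ∑ j ∈ I, z j * φ (z - ee j) :=
    sum_congr rfl fun z _ => sum_congr rfl fun j hj => by
      rcases Nat.eq_zero_or_pos (z j) with h | h
      · simp [h]
      · simp only [hφ, ← dp_mem hj h, Nat.add_sub_add_right]
  rw [h4, h5]
  simp only [sum_add_distrib, ← mul_sum] at h1 h2
  refine h1.trans ?_
  rw [mul_assoc]
  refine Nat.mul_le_mul_left _ ?_
  unfold Gam
  linarith only [h2, h3]

/-- Almost every point is a top point with many factors near the median. -/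
lemma badG (hm : 0 < m) (hg : ∀ i, m ≤ g i) (hT : ∀ x ∈ T, ∀ y, y ≤ x → y ∈ T)
    (hcard : T.card = m) (hM : ∀ x ∈ T, wt g x ≤ M) {s R c κ : ℕ} (hms : m ≤ s) (hR : R ≤ s)
    (hD : ∀ y ∈ T, (Nr g s R)ᶜ.card + dp (Nr g s R)ᶜ y ≤ κ * Fintype.card ι) (hc : 0 < c)
    (hκ : 0 < κ) (hcM : 256 * (κ * (c * s)) ≤ M) :
    s * (c * (T.filter fun z => ¬ Gd g M m (Nr g s R) c z).card) ≤
      m * Gam g T M m (Nr g s R) + c * (m * ∑ t ∈ T, (M - wt g t) / m) +
        3 * (c * (s * (Nt g T M m).card)) + s * m := by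
  set B := Nr g s R with hB
  have h0 := testG (g := g) (M := M) (m := m) hT B hD (2 * c)
  have hsc : s ≤ c * s := Nat.le_mul_of_pos_left _ hc
  have hsc' : c * s ≤ κ * (c * s) := Nat.le_mul_of_pos_left _ hκ
  have h1 : 251 * (κ * (c * s)) *
      ∑ z ∈ T.filter (fun z => (M - wt g z) / m = 0), (2 * c - dp B z) ≤
      2 * m * ∑ z ∈ T, ∑ j ∈ Bᶜ, z j * ((M - wt g (z - ee j)) / m * (2 * c - dp B z)) := by
    rw [mul_sum, mul_sum]
    refine (sum_le_sum fun z hz => ?_).trans (sum_le_sum_of_subset (filter_subset _ _))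
    obtain ⟨a1, a2⟩ := mem_filter.1 hz
    by_cases a3 : 2 * c ≤ dp B z
    · simp [Nat.sub_eq_zero_of_le a3]
    have a4 : M - wt g z < m := (Nat.div_eq_zero_iff_lt hm).1 a2
    have a5 : ∑ j ∈ B, z j * g j ≤ dp B z * (2 * s) := by
      rw [dp, sum_mul]
      exact sum_le_sum fun j hj => Nat.mul_le_mul_left _ (by have := (mem_filter.1 hj).2; omega)
    have a6 : ∑ j ∈ Bᶜ, z j * g j ≤ 2 * m * ∑ j ∈ Bᶜ, z j * ((M - wt g (z - ee j)) / m) := by
      rw [mul_sum]
      refine sum_le_sum fun j _ => ?_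
      rcases Nat.eq_zero_or_pos (z j) with h | h
      · simp [h]
      have b1 := wt_sub (g := g) h
      have b2 := hM z a1
      have b3 := hg j
      have b4 := le_two_floor hm (show m ≤ M - wt g (z - ee j) by omega)
      calc z j * g j ≤ z j * (2 * (m * ((M - wt g (z - ee j)) / m))) :=
            Nat.mul_le_mul_left _ (by omega)
        _ = _ := by ring
    have a7 : ∑ j ∈ B, z j * g j + ∑ j ∈ Bᶜ, z j * g j = wt g z := sum_add_sum_compl B _
    have a8 : dp B z * (2 * s) ≤ 4 * (c * s) :=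
      (Nat.mul_le_mul_right _ (not_le.1 a3).le).trans_eq (by ring)
    simp only [← mul_assoc (z _), ← sum_mul]
    rw [← mul_assoc (2 * m)]
    exact Nat.mul_le_mul_right _ (by omega)
  have h2 : m * ∑ z ∈ T, ∑ j ∈ B, z j * ((M - wt g (z - ee j)) / m * (2 * c + 1 - dp B z)) ≤
      ∑ z ∈ T, (2 * c * ((2 * c + 1) * (m * ((M - wt g z) / m))) +
        2 * c * (3 * s * (2 * c - dp B z)) + 2 * c * (3 * s)) := by
    rw [mul_sum]
    refine sum_le_sum fun z hz => ?_
    have a1 : m * ∑ j ∈ B, z j * ((M - wt g (z - ee j)) / m * (2 * c + 1 - dp B z)) ≤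
        dp B z * (2 * c + 1 - dp B z) * (m * ((M - wt g z) / m) + 3 * s) := by
      rw [mul_sum, mul_assoc (dp B z), dp, sum_mul]
      refine sum_le_sum fun j hj => ?_
      rcases Nat.eq_zero_or_pos (z j) with h | h
      · simp [h]
      have b1 := wt_sub (g := g) h
      have b2 := Nat.mul_div_le (M - wt g (z - ee j)) m
      have b3 := Nat.div_add_mod (M - wt g z) m
      have b4 := Nat.mod_lt (M - wt g z) hm
      have b5 := (mem_filter.1 hj).2.1
      have b6 : m * ((M - wt g (z - ee j)) / m) ≤ m * ((M - wt g z) / m) + 3 * s := by omega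
      calc _ = z j * ((2 * c + 1 - dp B z) * (m * ((M - wt g (z - ee j)) / m))) := by
            unfold dp; ring
        _ ≤ _ := by unfold dp; gcongr
    have a2 := Nat.mul_le_mul_right (m * ((M - wt g z) / m) + 3 * s) (cut (2 * c) (dp B z))
    have a3 : (2 * c - dp B z + 1) * (m * ((M - wt g z) / m)) ≤
        (2 * c + 1) * (m * ((M - wt g z) / m)) := Nat.mul_le_mul_right _ (by omega)
    have a4 := Nat.mul_le_mul_left (2 * c) a3
    generalize m * ((M - wt g z) / m) = x at *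
    generalize 2 * c - dp B z = k at *
    linarith only [a1, a2, a4]
  have h3 : ∑ z ∈ T.filter (fun z => ¬ (M - wt g z) / m = 0), (2 * c - dp B z) ≤
      (Nt g T M m).card * (2 * c) := sum_le_card_nsmul _ _ _ fun _ _ => Nat.sub_le _ _
  have h4 := sum_filter_add_sum_filter_not T (fun z => (M - wt g z) / m = 0)
    fun z => 2 * c - dp B z
  have h6 : (T.filter fun z => ¬ Gd g M m B c z).card * c ≤
      ∑ z ∈ T.filter (fun z => (M - wt g z) / m = 0), (2 * c - dp B z) +
        (Nt g T M m).card * c := by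
    rw [← smul_eq_mul (card (Nt g T M m)), ← sum_const, Nt, sum_filter, sum_filter,
      ← sum_add_distrib]
    refine markov T _ _ _ fun z _ hz => ?_
    by_cases a : (M - wt g z) / m = 0
    · have : ¬ c ≤ dp B z := fun e => hz ⟨(Nat.div_eq_zero_iff_lt hm).1 a, e⟩
      rw [if_pos a]; omega
    · rw [if_neg a, if_pos a]; omega
  simp only [sum_add_distrib, ← mul_sum, sum_const, hcard, smul_eq_mul] at h2
  generalize ∑ z ∈ T.filter (fun z => (M - wt g z) / m = 0), (2 * c - dp B z) = X at *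
  generalize ∑ z ∈ T.filter (fun z => ¬ (M - wt g z) / m = 0), (2 * c - dp B z) = X' at *
  generalize ∑ z ∈ T, (2 * c - dp B z) = X'' at *
  generalize ∑ z ∈ T, ∑ j ∈ B, z j * ((M - wt g (z - ee j)) / m * (2 * c + 1 - dp B z)) = U at *
  generalize ∑ z ∈ T, ∑ j ∈ Bᶜ, z j * ((M - wt g (z - ee j)) / m * (2 * c - dp B z)) = V at *
  generalize ∑ t ∈ T, (M - wt g t) / m = n at *
  generalize Gam g T M m B = A at *
  generalize (Nt g T M m).card = N at *
  subst h4
  have c1 := Nat.mul_le_mul_left (2 * m) h0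
  have c3 : κ * (c * ((2 * c + 1) * (m * n))) ≤ κ * (c * ((3 * c) * (m * n))) := by gcongr; omega
  have c4 := Nat.mul_le_mul_left (κ * (c * s)) h3
  have c5 : s * X ≤ m * A + c * (m * n) + 2 * (c * (s * N)) + s * m := by
    refine Nat.le_of_mul_le_mul_left ?_ (show 0 < 128 * (κ * c) by positivity)
    linarith only [c1, c3, c4, h1, Nat.mul_le_mul_left κ h2, Nat.zero_le (κ * c * (m * A)),
      Nat.zero_le (κ * c * (s * m)), Nat.zero_le (κ * c * (c * (m * n))),
      Nat.zero_le (κ * c * (s * X)), Nat.zero_le (κ * c * (c * (s * N)))]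
  linarith only [c5, Nat.mul_le_mul_left s h6]

omit [DecidableEq ι] in
/-- Good points of the top layer in a window. -/
lemma win_ge (hcard : T.card = m) (hinj : ∀ x ∈ T, ∀ y ∈ T, wt g x ≡ wt g y [MOD m] → x = y)
    (hM : ∀ x ∈ T, wt g x ≤ M) (I : Finset ι) (b a c : ℕ) (hc : c ≤ m) :
    c - a ≤ (T.filter fun z => Gd g M m I b z ∧ a ≤ M - wt g z ∧ M - wt g z < c).card +
      (T.filter fun z => ¬ Gd g M m I b z).card := by
  have h1 := card_window hinj hM (T.filter fun z => M - wt g z < a) (filter_subset _ _) 0 a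
    fun z hz => ⟨Nat.zero_le _, (mem_filter.1 hz).2⟩
  have h2 := card_window hinj hM (T.filter fun z => c ≤ M - wt g z ∧ M - wt g z < m)
    (filter_subset _ _) c m fun z hz => (mem_filter.1 hz).2
  have h3 : T.card ≤ ∑ z ∈ T, ((if Gd g M m I b z ∧ a ≤ M - wt g z ∧ M - wt g z < c then 1 else 0) +
      (if ¬ Gd g M m I b z then 1 else 0) + (if M - wt g z < a then 1 else 0) +
      (if c ≤ M - wt g z ∧ M - wt g z < m then 1 else 0)) := by
    rw [card_eq_sum_ones]
    refine sum_le_sum fun z _ => ?_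
    by_cases h : Gd g M m I b z
    · have := h.1
      simp only [h, true_and]
      split_ifs <;> omega
    · rw [if_pos h]; omega
  simp only [sum_add_distrib, ← card_filter] at h3
  omega

/-- Parents through the directions of `I`. -/
lemma par_ge (I : Finset ι) (hD : ∀ y ∈ T, dp I y ≤ Fintype.card ι) (Z Y : Finset (ι → ℕ))
    (hY : Y ⊆ T) {b : ℕ} (hb : ∀ z ∈ Z, b ≤ dp I z)
    (h : ∀ z ∈ Z, ∀ j ∈ I, 0 < z j → z - ee j ∈ Y) :
    b * Z.card ≤ 2 * Fintype.card ι * Y.card := by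
  have a3 := parents' I Z Y (fun _ => 1) h fun y hy => hD y (hY hy)
  have a4 := card_nsmul_le_sum Z (dp I) b hb
  simp only [mul_one, sum_const, smul_eq_mul] at a3 a4
  unfold dp at a4
  linarith only [a3, a4]

/-- The dichotomy: many factors in `P`, or blocked directions of `P` at the parents. -/
lemma dich (I P : Finset ι) (hD : ∀ y ∈ T, dp I y ≤ Fintype.card ι) (Z Y V : Finset (ι → ℕ))
    (hY : Y ⊆ T) {b w k v : ℕ} (hb : ∀ z ∈ Z, b ≤ dp I z) (hw : w ≤ Z.card + k)
    (h : ∀ z ∈ Z, ∀ j ∈ I, 0 < z j → z - ee j ∈ Y)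
    (hV : ∀ y ∈ Y, ∀ i ∈ P, y + ee i ∈ T → y + ee i ∈ V) (hv : V.card ≤ v) (hv0 : 0 < v)
    (hp : 0 < Fintype.card ι) :
    P.card * b * w * w ≤ 16 * (Fintype.card ι * (v * ∑ z ∈ Z, dp P z)) +
      4 * (Fintype.card ι * (w * ∑ i ∈ P, (Y.filter fun y => y + ee i ∉ T).card)) +
      2 * (w * (P.card * (b * k))) + 4 * (Fintype.card ι * (v * w)) := by
  obtain ⟨L, hL⟩ : ∃ L, L = P.card * b * w / (4 * (Fintype.card ι * v)) := ⟨_, rfl⟩
  have l1 : 4 * (Fintype.card ι * v) * L ≤ P.card * b * w := hL ▸ Nat.mul_div_le _ _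
  have l2 : P.card * b * w < 4 * (Fintype.card ι * v) * (L + 1) :=
    hL ▸ Nat.lt_mul_div_succ _ (by positivity)
  rcases Nat.eq_zero_or_pos L with c | c
  · rw [c] at l2
    linarith only [Nat.mul_le_mul_right w l2.le, Nat.zero_le (w * (P.card * (b * k))),
      Nat.zero_le (Fintype.card ι * (v * ∑ z ∈ Z, dp P z)),
      Nat.zero_le (Fintype.card ι * (w * ∑ i ∈ P, (Y.filter fun y => y + ee i ∉ T).card))]
  have h1 := par_ge I hD (Z.filter fun z => dp P z < L) (Y.filter fun y => dp P y < L)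
    ((filter_subset _ _).trans hY) (fun z hz => hb z (mem_filter.1 hz).1) fun z hz j hj e =>
      mem_filter.2 ⟨h z (mem_filter.1 hz).1 j hj e, lt_of_le_of_lt
        (sum_le_sum fun i _ => Nat.sub_le _ _) (mem_filter.1 hz).2⟩
  have h2 := markov Z (dp P) (fun z => ¬ dp P z < L) L fun _ _ e => not_lt.1 e
  have h3 := card_filter_add_card_filter_not (s := Z) fun z => dp P z < L
  have h4 := live_sum (T := T) P (Y.filter fun y => dp P y < L) (V.filter fun z => dp P z ≤ L)
    (fun _ => 1) fun y hy i hi e => mem_filter.2 ⟨hV y (mem_filter.1 hy).1 i hi e, by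
      have := dp_mem hi (z := y + ee i) (by simp [ee])
      rw [add_tsub_cancel_right] at this
      have := (mem_filter.1 hy).2
      omega⟩
  have h5 : ∑ z ∈ V.filter (fun z => dp P z ≤ L), dp P z ≤ v * L :=
    (sum_le_card_nsmul _ _ _ fun z hz => (mem_filter.1 hz).2).trans
      (Nat.mul_le_mul_right _ ((card_filter_le _ _).trans hv))
  have h6 : ∑ _y ∈ Y.filter (fun y => dp P y < L), P.card ≤
      ∑ y ∈ Y.filter (fun y => dp P y < L), live T P y +
        ∑ i ∈ P, (Y.filter fun y => y + ee i ∉ T).card := by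
    have a1 : ∑ y ∈ Y.filter (fun y => dp P y < L), (P.filter fun i => y + ee i ∉ T).card ≤
        ∑ i ∈ P, (Y.filter fun y => y + ee i ∉ T).card := by
      refine (sum_le_sum_of_subset (filter_subset _ _)).trans_eq ?_
      simp only [card_filter]
      exact sum_comm
    refine le_trans ?_ (Nat.add_le_add_left a1 _)
    rw [← sum_add_distrib]
    exact sum_le_sum fun y _ => (card_filter_add_card_filter_not _).ge
  simp only [mul_one, sum_const, smul_eq_mul] at h4 h6
  change _ ≤ ∑ z ∈ V.filter (fun z => dp P z ≤ L), dp P z at h4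
  generalize ∑ i ∈ P, (Y.filter fun y => y + ee i ∉ T).card = D at *
  generalize ∑ z ∈ Z, dp P z = H at *
  generalize (Y.filter fun y => dp P y < L).card = y at *
  generalize (Z.filter fun z => dp P z < L).card = z1 at *
  generalize (Z.filter fun z => ¬ dp P z < L).card = z2 at *
  generalize P.card = q at *
  generalize Fintype.card ι = p at *
  have a1 : y * q ≤ v * L + D := by omega
  have a2 : w ≤ z1 + z2 + k := by omega
  have a3 : L * (q * b * w) ≤ 2 * (q * b * H) + 4 * (p * L * D) + 2 * (L * (q * (b * k))) := by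
    linarith only [Nat.mul_le_mul_left (L * (q * b)) a2, Nat.mul_le_mul_left (L * q) h1,
      Nat.mul_le_mul_left (2 * p * L) a1, Nat.mul_le_mul_left (q * b) h2,
      Nat.mul_le_mul_left L l1]
  have a4 : q * b * w ≤ 8 * (p * v * L) := by
    linarith only [l2, Nat.mul_le_mul_left (p * v) c]
  have a5 : L * (q * b * w * w) ≤
      L * (16 * (p * (v * H)) + 4 * (p * (w * D)) + 2 * (w * (q * (b * k)))) := by
    linarith only [Nat.mul_le_mul_left w a3, Nat.mul_le_mul_right H a4]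
  exact (Nat.le_of_mul_le_mul_left a5 c).trans (Nat.le_add_right _ _)

end Pool.Agent.MP_96f5a9_co.H80

end MrgPart0

-- ======== part 1: formerly Pool.Agent.MP_96f5a9_co.h80.G2B
section MrgPart1

/-!
The protected gain, second part: the estimates for the single classes of generators.
-/

set_option autoImplicit false

namespace Pool.Agent.MP_96f5a9_co.H80

open Finset Function H51 H16 H93 H36

variable {ι : Type} [Fintype ι] [DecidableEq ι] {g : ι → ℕ} {T : Finset (ι → ℕ)} {m M : ℕ}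

/-- A generator `γ` is protected at depth `x`. -/
def Pr (m s R1 x γ : ℕ) : Prop :=
  (γ ≤ s + R1 ∧ s ≤ γ + R1) ∧ ((m ≤ x ∧ 4 * x < 7 * m) ∨ 2 * m ≤ x) ∨
    ¬ (γ ≤ s + R1 ∧ s ≤ γ + R1) ∧ 17 * m ≤ 16 * x

instance (m s R1 x γ : ℕ) : Decidable (Pr m s R1 x γ) := by unfold Pr; infer_instance

/-- The number of protected blocked edges in the direction `i`. -/
def Pd (g : ι → ℕ) (T : Finset (ι → ℕ)) (M m s R1 : ℕ) (i : ι) : ℕ :=
  (T.filter fun y => y + ee i ∉ T ∧ Pr m s R1 (M - wt g y) (g i)).card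

/-- The standing assumptions. -/
structure St (g : ι → ℕ) (T : Finset (ι → ℕ)) (m M s R R1 : ℕ) : Prop where
  hm : 64 ≤ m
  hg : ∀ i, m ≤ g i
  hT : ∀ x ∈ T, ∀ y, y ≤ x → y ∈ T
  hcard : T.card = m
  hinj : ∀ x ∈ T, ∀ y ∈ T, wt g x ≡ wt g y [MOD m] → x = y
  hM : ∀ x ∈ T, wt g x ≤ M
  hms : m ≤ s
  hR : 4 * R ≤ R1
  hR1 : 16 * R1 ≤ m
  hD : ∀ y ∈ T, dp (univ.filter fun i => s ≤ 2 * g i) y ≤ Fintype.card ι
  hp : 0 < Fintype.card ι

variable {s R R1 : ℕ}

omit [DecidableEq ι] in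
lemma St.dp_le (h : St g T m M s R R1) {P : Finset ι} (hP : ∀ i ∈ P, s ≤ 2 * g i) :
    ∀ y ∈ T, dp P y ≤ Fintype.card ι := fun y hy =>
  (dp_mono (fun i hi => mem_filter.2 ⟨mem_univ _, hP i hi⟩) y).trans (h.hD y hy)

omit [DecidableEq ι] in
lemma St.nr (h : St g T m M s R R1) : ∀ i ∈ Nr g s R, s ≤ 2 * g i := fun i hi => by
  have := (mem_filter.1 hi).2
  have := h.hR
  have := h.hR1
  have := h.hms
  omega

lemma St.par (h : St g T m M s R R1) {z : ι → ℕ} (hz : z ∈ T) {j : ι} (hj : 0 < z j) :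
    z - ee j ∈ T ∧ M - wt g (z - ee j) = M - wt g z + g j := by
  have b1 := wt_sub (g := g) hj
  have b2 := h.hM z hz
  exact ⟨down h.hT hz j, by omega⟩

lemma St.chi (h : St g T m M s R R1) {y : ι → ℕ} {i : ι} (hy : y + ee i ∈ T) :
    M - wt g (y + ee i) + g i = M - wt g y := by
  have := h.hM _ hy
  rw [wt_ee] at *
  omega

lemma le_Pd (i : ι) (Y : Finset (ι → ℕ)) (hY : Y ⊆ T)
    (h : ∀ y ∈ Y, Pr m s R1 (M - wt g y) (g i)) :
    (Y.filter fun y => y + ee i ∉ T).card ≤ Pd g T M m s R1 i :=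
  card_le_card fun y hy => mem_filter.2 ⟨hY (mem_filter.1 hy).1, (mem_filter.1 hy).2,
    h y (mem_filter.1 hy).1⟩

/-- Parents of the good points of a window. -/
lemma St.win (h : St g T m M s R R1) (b a c : ℕ) (hc : c ≤ m) :
    b * (c - a) ≤ 2 * Fintype.card ι * (T.filter fun y => m ≤ M - wt g y ∧
      a + s ≤ M - wt g y + R ∧ M - wt g y < c + s + R).card +
      b * (T.filter fun z => ¬ Gd g M m (Nr g s R) b z).card := by
  have h1 := win_ge h.hcard h.hinj h.hM (Nr g s R) b a c hc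
  have h2 := par_ge (Nr g s R) (h.dp_le h.nr)
    (T.filter fun z => Gd g M m (Nr g s R) b z ∧ a ≤ M - wt g z ∧ M - wt g z < c)
    (T.filter fun y => m ≤ M - wt g y ∧ a + s ≤ M - wt g y + R ∧ M - wt g y < c + s + R)
    (filter_subset _ _) (fun z hz => (mem_filter.1 hz).2.1.2) fun z hz j hj e => by
      obtain ⟨a1, -, a2⟩ := mem_filter.1 hz
      obtain ⟨a3, a4⟩ := h.par a1 e
      have := (mem_filter.1 hj).2
      have := h.hg j
      exact mem_filter.2 ⟨a3, by omega⟩
  linarith only [h2, Nat.mul_le_mul_left b h1]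

/-- A generator well below the median. -/
lemma St.lower (h : St g T m M s R R1) (b : ℕ) {i : ι} (hi : g i + 4 * R ≤ s) :
    b * ds g s m i ≤ 8 * (Fintype.card ι * Pd g T M m s R1 i) + 8 * Gam g T M m (Nr g s R) +
      4 * (b * (T.filter fun z => ¬ Gd g M m (Nr g s R) b z).card) := by
  have h1 := h.win b (m + g i + R - s) (m - 2 * R) (Nat.sub_le _ _)
  have e1 := h.hR
  have e2 := h.hR1
  have e3 := h.hg i
  set Y := T.filter fun y => m ≤ M - wt g y ∧
    m + g i + R - s + s ≤ M - wt g y + R ∧ M - wt g y < m - 2 * R + s + R with hY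
  have h2 := le_Pd (m := m) (M := M) (g := g) (s := s) (R1 := R1) i Y (filter_subset _ _)
    fun y hy => by
      have := (mem_filter.1 hy).2
      unfold Pr
      omega
  set N := T.filter fun z => m ≤ M - wt g z ∧ M - wt g z + R < s with hN
  have h3 := card_gam (g := g) (M := M) (m := m) (by have := h.hm; omega) (Nr g s R) N ∅
    (filter_subset _ _) (fun y hy => (mem_filter.1 hy).2.1) fun y hy j hj e => by
      have := h.chi e
      have := (mem_filter.1 hy).2
      have := (mem_filter.1 hj).2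
      omega
  have h4 : (Y.filter fun y => ¬ y + ee i ∉ T).card ≤ N.card :=
    card_le_card_of_injOn (fun y => y + ee i) (fun y hy => by
      obtain ⟨a1, a2⟩ := mem_filter.1 (mem_coe.1 hy)
      have := h.chi (not_not.1 a2)
      have := (mem_filter.1 a1).2
      exact mem_coe.2 (mem_filter.2 ⟨not_not.1 a2, by dsimp only; omega⟩)) fun _ _ _ _ e => add_right_cancel e
  have h5 := card_filter_add_card_filter_not (s := Y) fun y => y + ee i ∉ T
  have h6 : ds g s m i ≤ 4 * (m - 2 * R - (m + g i + R - s)) := by unfold ds; omega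
  have h7 : Y.card ≤ Pd g T M m s R1 i + N.card := by omega
  rw [sum_empty] at h3
  linarith only [h1, h3, Nat.mul_le_mul_left b h6, Nat.mul_le_mul_left (Fintype.card ι) h7]

/-- A generator above the median that overshoots. -/
lemma St.over (h : St g T m M s R R1) (b a : ℕ) {i : ι} (hi : s ≤ g i)
    (ha : ds g s m i ≤ 4 * (ds g s m i - R - a))
    (hpr : ∀ x, m ≤ x → a + s ≤ x + R → x < g i → Pr m s R1 x (g i)) :
    b * ds g s m i ≤ 8 * (Fintype.card ι * Pd g T M m s R1 i) +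
      4 * (b * (T.filter fun z => ¬ Gd g M m (Nr g s R) b z).card) := by
  have hu : ds g s m i ≤ m ∧ ds g s m i ≤ g i - s := by unfold ds; omega
  rcases Nat.eq_zero_or_pos (ds g s m i) with c | c
  · simp [c]
  have h1 := h.win b a (ds g s m i - R) (by omega)
  have h2 : (T.filter fun y => m ≤ M - wt g y ∧ a + s ≤ M - wt g y + R ∧
      M - wt g y < ds g s m i - R + s + R).card ≤ Pd g T M m s R1 i :=
    card_le_card fun y hy => by
      obtain ⟨a1, a2, a3, a4⟩ := mem_filter.1 hy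
      exact mem_filter.2 ⟨a1, fun e => by have := h.chi e; omega, hpr _ a2 a3 (by omega)⟩
  linarith only [h1, Nat.mul_le_mul_left b ha, Nat.mul_le_mul_left (Fintype.card ι) h2]

/-- The dichotomy in a window. -/
lemma St.dich (h : St g T m M s R R1) (b a c a' c' : ℕ) (hc : c ≤ m) (P : Finset ι)
    (Y : Finset (ι → ℕ)) (hv : a' < c')
    (hpr : ∀ i ∈ P, ∀ x, m ≤ x → a + s ≤ x + R → x < c + s + R →
      Pr m s R1 x (g i) ∧ ∀ x', x' + g i = x → a' ≤ x' ∧ x' < c')
    (hY : ∀ y ∈ T, ∀ i ∈ P, a + g i ≤ M - wt g y → M - wt g y < c + g i → y ∈ Y) :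
    P.card * b * (c - a) * (c - a) ≤
      16 * (Fintype.card ι * ((c' - a') * ∑ y ∈ Y, (P.card + dp P y))) +
      4 * (Fintype.card ι * ((c - a) * ∑ i ∈ P, Pd g T M m s R1 i)) +
      2 * ((c - a) * (P.card * (b * (T.filter fun z => ¬ Gd g M m (Nr g s R) b z).card))) +
      4 * (Fintype.card ι * ((c' - a') * (c - a))) := by
  set Z := T.filter fun z => Gd g M m (Nr g s R) b z ∧ a ≤ M - wt g z ∧ M - wt g z < c with hZ
  set Y0 := T.filter fun y => m ≤ M - wt g y ∧ a + s ≤ M - wt g y + R ∧ M - wt g y < c + s + R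
    with hY0
  have h1 := H80.dich (Nr g s R) P (h.dp_le h.nr) Z Y0
    (T.filter fun z => a' ≤ M - wt g z ∧ M - wt g z < c') (filter_subset _ _)
    (fun z hz => (mem_filter.1 hz).2.1.2) (win_ge h.hcard h.hinj h.hM (Nr g s R) b a c hc)
    (fun z hz j hj e => by
      obtain ⟨a1, -, a2⟩ := mem_filter.1 hz
      obtain ⟨a3, a4⟩ := h.par a1 e
      have := (mem_filter.1 hj).2
      have := h.hg j
      exact mem_filter.2 ⟨a3, by omega⟩)
    (fun y hy i hi e => by
      obtain ⟨-, a1, a2, a3⟩ := mem_filter.1 hy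
      exact mem_filter.2 ⟨e, (hpr i hi _ a1 a2 a3).2 _ (h.chi e)⟩)
    (card_window h.hinj h.hM _ (filter_subset _ _) a' c' fun z hz => (mem_filter.1 hz).2)
    (by omega) h.hp
  have h2 : ∑ i ∈ P, (Y0.filter fun y => y + ee i ∉ T).card ≤ ∑ i ∈ P, Pd g T M m s R1 i :=
    sum_le_sum fun i hi => le_Pd i Y0 (filter_subset _ _) fun y hy => by
      obtain ⟨-, a1, a2, a3⟩ := mem_filter.1 hy
      exact (hpr i hi _ a1 a2 a3).1
  have h3 := parents0 P Z Y (fun _ => 1) fun z hz j hj e => by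
    obtain ⟨a1, -, a2⟩ := mem_filter.1 hz
    obtain ⟨a3, a4⟩ := h.par a1 e
    exact hY _ a3 j hj (by omega) (by omega)
  simp only [mul_one] at h3
  refine h1.trans ?_
  unfold dp at *
  gcongr

/-- One dyadic shell of generators above the median. -/
lemma St.shell (h : St g T m M s R R1) (b w : ℕ) (P : Finset ι) (hw : 2 * R < w) (hw' : 2 * w ≤ m)
    (hP : ∀ i ∈ P, s + w ≤ g i ∧ g i < s + 2 * w ∧ (g i ≤ s + R1 → 3 * m ≤ 2 * s)) :
    b * ∑ i ∈ P, ds g s m i ≤
      512 * (Fintype.card ι * ∑ y ∈ T.filter (fun y => m + s + R ≤ M - wt g y), (P.card + dp P y)) +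
      16 * (Fintype.card ι * ∑ i ∈ P, Pd g T M m s R1 i) +
      8 * (P.card * (b * (T.filter fun z => ¬ Gd g M m (Nr g s R) b z).card)) +
      128 * (Fintype.card ι * w) := by
  have e1 := h.hR
  have e2 := h.hR1
  have e3 := h.hms
  have h1 := h.dich b (m - (w - R)) m (m - 3 * w) m le_rfl P
    (T.filter fun y => m + s + R ≤ M - wt g y) (by omega)
    (fun i hi x a1 a2 a3 => by
      have := hP i hi
      unfold Pr
      exact ⟨by omega, fun x' e => by omega⟩)
    fun y hy i hi a1 _ => mem_filter.2 ⟨hy, by have := hP i hi; omega⟩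
  have h2 : ∑ i ∈ P, ds g s m i ≤ P.card * (2 * w) := sum_le_card_nsmul _ _ _ fun i hi => by
    have := hP i hi
    unfold ds
    omega
  have h3 : m - (m - 3 * w) ≤ 8 * (w - R) := by omega
  have h4 : w ≤ 2 * (w - R) := by omega
  have h5 : w - R ≤ w := Nat.sub_le _ _
  rw [show m - (m - (w - R)) = w - R by omega] at h1
  generalize m - (m - 3 * w) = v at *
  have h6 : 0 < w - R := by omega
  generalize w - R = u at *
  generalize ∑ y ∈ T.filter (fun y => m + s + R ≤ M - wt g y), (P.card + dp P y) = H at *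
  generalize ∑ i ∈ P, Pd g T M m s R1 i = D at *
  generalize b * (T.filter fun z => ¬ Gd g M m (Nr g s R) b z).card = k at *
  generalize P.card = q at *
  generalize Fintype.card ι = p at *
  have a1 : u * (q * b * u) ≤ u * (128 * (p * H) + 4 * (p * D) + 2 * (q * k) + 32 * (p * u)) := by
    linarith only [h1, Nat.mul_le_mul_left (p * H) h3, Nat.mul_le_mul_left (p * u) h3]
  have a2 := Nat.le_of_mul_le_mul_left a1 h6
  linarith only [a2, Nat.mul_le_mul_left b h2, Nat.mul_le_mul_left (q * b) h4,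
    Nat.mul_le_mul_left p h5]

/-- All shells. -/
lemma St.shells (h : St g T m M s R R1) (b : ℕ) (P : Finset ι)
    (hP : ∀ i ∈ P, s + 4 * R ≤ g i ∧ s < g i ∧ 2 * g i ≤ 2 * s + m ∧
      (g i ≤ s + R1 → 3 * m ≤ 2 * s)) :
    b * ∑ i ∈ P, ds g s m i ≤ 2 ^ 13 * (Fintype.card ι * (Gam g T M m (Nr g s R) +
      ∑ i, Pd g T M m s R1 i + m + b * (T.filter fun z => ¬ Gd g M m (Nr g s R) b z).card +
      ∑ z ∈ Nt g T M m, dp (univ.filter fun i => s ≤ 2 * g i) z)) := by
  have e0 := h.hm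
  set Y := T.filter fun y => m + s + R ≤ M - wt g y with hY
  have hk : ∀ i ∈ P, Nat.log 2 (g i - s) ∈ range (Nat.log 2 m) := fun i hi => by
    have := hP i hi
    rw [mem_range, ← Nat.add_one_le_iff, ← Nat.log_mul_base (by norm_num) (by omega)]
    exact Nat.log_mono_right (by omega)
  have h1 := sum_le_sum fun k (hk : k ∈ range (Nat.log 2 m)) =>
    show b * ∑ i ∈ P.filter (fun i => Nat.log 2 (g i - s) = k), ds g s m i ≤
      512 * (Fintype.card ι * ∑ y ∈ Y, ∑ i ∈ P.filter (fun i => Nat.log 2 (g i - s) = k),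
        (1 + y i)) +
      16 * (Fintype.card ι * ∑ i ∈ P.filter (fun i => Nat.log 2 (g i - s) = k),
        Pd g T M m s R1 i) +
      8 * ((∑ _i ∈ P.filter (fun i => Nat.log 2 (g i - s) = k), 1) *
        (b * (T.filter fun z => ¬ Gd g M m (Nr g s R) b z).card)) +
      128 * (Fintype.card ι * 2 ^ k) by
    rcases (P.filter fun i => Nat.log 2 (g i - s) = k).eq_empty_or_nonempty with c | ⟨j, hj⟩
    · simp [c]
    have key : ∀ i ∈ P.filter (fun i => Nat.log 2 (g i - s) = k),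
        2 ^ k ≤ g i - s ∧ g i - s < 2 * 2 ^ k := fun i hi => by
      obtain ⟨a1, rfl⟩ := mem_filter.1 hi
      have := hP i a1
      exact ⟨Nat.pow_log_le_self 2 (by omega), by
        rw [← pow_succ']; exact Nat.lt_pow_succ_log_self (by norm_num) _⟩
    have a1 := key j hj
    have a2 := hP j (mem_filter.1 hj).1
    have := h.shell b (2 ^ k) _ (by omega) (by omega) fun i hi => by
      have := key i hi
      have := hP i (mem_filter.1 hi).1
      omega
    simpa only [sum_add_distrib, ← card_eq_sum_ones, dp] using this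
  simp only [sum_add_distrib (s := range _), ← mul_sum, ← sum_mul] at h1
  rw [sum_comm (s := range _) (t := Y)] at h1
  simp only [sum_fiberwise_of_maps_to hk] at h1
  rw [← card_eq_sum_ones] at h1
  have h2 : ∑ k ∈ range (Nat.log 2 m), 2 ^ k ≤ m :=
    (Nat.geomSum_lt le_rfl fun _ => mem_range.1).le.trans (Nat.pow_log_le_self 2 (by omega))
  have h3 : ∑ y ∈ Y, ∑ i ∈ P, (1 + y i) ≤ Y.card * (2 * Fintype.card ι) :=
    sum_le_card_nsmul _ _ _ fun y hy => by
      have a1 := h.dp_le (P := P) (fun i hi => by have := hP i hi; omega) y (mem_filter.1 hy).1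
      have a2 := card_le_univ P
      rw [sum_add_distrib, ← card_eq_sum_ones]
      unfold dp at a1
      omega
  have h4 := card_gam (g := g) (M := M) (m := m) (by omega) (Nr g s R) Y (Nt g T M m)
    (filter_subset _ _) (fun y hy => by have := (mem_filter.1 hy).2; omega) fun y hy j hj e => by
      have := h.chi e
      have := (mem_filter.1 hy).2
      have := (mem_filter.1 hj).2
      exact mem_filter.2 ⟨e, (Nat.div_pos (by omega) (by omega)).ne'⟩
  have h5 : ∑ z ∈ Nt g T M m, dp (Nr g s R) z ≤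
      ∑ z ∈ Nt g T M m, dp (univ.filter fun i => s ≤ 2 * g i) z :=
    sum_le_sum fun z _ => dp_mono (fun i hi => mem_filter.2 ⟨mem_univ _, h.nr i hi⟩) z
  have h6 : ∑ i ∈ P, Pd g T M m s R1 i ≤ ∑ i, Pd g T M m s R1 i :=
    sum_le_sum_of_subset (subset_univ _)
  have h7 := card_le_univ P
  generalize b * (T.filter fun z => ¬ Gd g M m (Nr g s R) b z).card = k at *
  generalize ∑ z ∈ Nt g T M m, dp (univ.filter fun i => s ≤ 2 * g i) z = DN at *
  generalize ∑ i, Pd g T M m s R1 i = D at *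
  generalize Gam g T M m (Nr g s R) = G at *
  generalize Fintype.card ι = p at *
  linarith only [h1, Nat.mul_le_mul_left p h2, Nat.mul_le_mul_left p h3, Nat.mul_le_mul_left p h4,
    Nat.mul_le_mul_left p h5, Nat.mul_le_mul_left p h6, Nat.mul_le_mul_right k h7,
    Nat.zero_le (p * G), Nat.zero_le (p * D), Nat.zero_le (p * m), Nat.zero_le (p * k)]

lemma card_dead (P : Finset ι) (Y V : Finset (ι → ℕ)) (hY : Y ⊆ T)
    (hpr : ∀ y ∈ Y, ∀ i ∈ P, Pr m s R1 (M - wt g y) (g i))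
    (hV : ∀ y ∈ Y, ∀ i ∈ P, y + ee i ∈ T → y + ee i ∈ V) :
    P.card * Y.card ≤ ∑ i, Pd g T M m s R1 i + ∑ z ∈ V, dp P z := by
  have h1 := live_sum (T := T) P Y V (fun _ => 1) hV
  have h2 : ∑ _y ∈ Y, P.card ≤
      ∑ y ∈ Y, (live T P y + (P.filter fun i => y + ee i ∉ T).card) :=
    sum_le_sum fun y _ => (card_filter_add_card_filter_not _).ge
  have h3 : ∑ y ∈ Y, (P.filter fun i => y + ee i ∉ T).card =
      ∑ i ∈ P, (Y.filter fun y => y + ee i ∉ T).card := by
    simp only [card_filter]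
    exact sum_comm
  have h4 : ∑ i ∈ P, (Y.filter fun y => y + ee i ∉ T).card ≤ ∑ i, Pd g T M m s R1 i :=
    (sum_le_sum fun i hi => le_Pd i Y hY fun y hy => hpr y hy i hi).trans
      (sum_le_sum_of_subset (subset_univ _))
  simp only [mul_one, sum_const, smul_eq_mul, sum_add_distrib] at h1 h2
  unfold dp
  linarith only [h1, h2, h3, h4]

/-- Two separated groups of generators near the median. -/
lemma St.near (h : St g T m M s R R1) (b t : ℕ) (P Q : Finset ι)
    (hP : ∀ i ∈ P, s ≤ g i + 4 * R ∧ g i ≤ t ∧ g i ≤ s + 4 * R)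
    (hQ : ∀ i ∈ Q, s ≤ g i + 4 * R ∧ t + (R / 128 + 1) ≤ g i ∧ g i ≤ s + 4 * R) (ht : m ≤ t) :
    P.card * Q.card * (b * (R / 128 + 1)) ≤ 2 ^ 16 * (Fintype.card ι * (Fintype.card ι *
      (∑ i, Pd g T M m s R1 i + m + b * (T.filter fun z => ¬ Gd g M m (Nr g s R) b z).card +
      ∑ z ∈ Nt g T M m, dp (univ.filter fun i => s ≤ 2 * g i) z))) := by
  have e0 := h.hm
  have e1 := h.hR
  have e2 := h.hR1
  have e3 := h.hms
  obtain ⟨δ, hδ⟩ : ∃ δ, δ = R / 128 + 1 := ⟨_, rfl⟩
  rw [← hδ] at hQ ⊢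
  have key : ∀ (A B : Finset ι) (Y : Finset (ι → ℕ)) (v : ℕ), Y ⊆ T → (∀ i ∈ A, s ≤ 2 * g i) →
      v ≤ 1281 * δ →
      A.card * b * δ * δ ≤ 16 * (Fintype.card ι * (v * ∑ y ∈ Y, (A.card + dp A y))) +
      4 * (Fintype.card ι * (δ * ∑ i ∈ A, Pd g T M m s R1 i)) +
      2 * (δ * (A.card * (b * (T.filter fun z => ¬ Gd g M m (Nr g s R) b z).card))) +
      4 * (Fintype.card ι * (v * δ)) →
      B.card * Y.card ≤ ∑ i, Pd g T M m s R1 i +
        ∑ z ∈ Nt g T M m, dp (univ.filter fun i => s ≤ 2 * g i) z →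
      A.card * B.card * (b * δ) ≤ 2 ^ 16 * (Fintype.card ι * (Fintype.card ι *
      (∑ i, Pd g T M m s R1 i + m + b * (T.filter fun z => ¬ Gd g M m (Nr g s R) b z).card +
      ∑ z ∈ Nt g T M m, dp (univ.filter fun i => s ≤ 2 * g i) z))) := by
    intro A B Y v a1 a2 a3 a4 a5
    have b1 : ∑ y ∈ Y, (A.card + dp A y) ≤ Y.card * (2 * Fintype.card ι) :=
      sum_le_card_nsmul _ _ _ fun y hy => by
        have := h.dp_le a2 y (a1 hy)
        have := card_le_univ A
        omega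
    have b2 : ∑ i ∈ A, Pd g T M m s R1 i ≤ ∑ i, Pd g T M m s R1 i :=
      sum_le_sum_of_subset (subset_univ _)
    have b3 := card_le_univ A
    have b4 := card_le_univ B
    generalize b * (T.filter fun z => ¬ Gd g M m (Nr g s R) b z).card = k at *
    generalize ∑ z ∈ Nt g T M m, dp (univ.filter fun i => s ≤ 2 * g i) z = DN at *
    generalize ∑ i, Pd g T M m s R1 i = D at *
    generalize Fintype.card ι = p at *
    have c1 : A.card * b * δ * δ ≤ 16 * (p * (1281 * δ * (Y.card * (2 * p)))) + 4 * (p * (δ * D)) +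
      2 * (δ * (p * k)) + 4 * (p * (1281 * δ * m)) := a4.trans (by gcongr; omega)
    have c2 : δ * (A.card * b * δ) ≤
        δ * (40992 * (p * p * Y.card) + (4 * (p * D) + 2 * (p * k) + 5124 * (p * m))) := by
      linarith only [c1]
    have c3 := Nat.mul_le_mul_left B.card (Nat.le_of_mul_le_mul_left c2 (by omega))
    linarith only [c3, Nat.mul_le_mul_left (p * p) a5,
      Nat.mul_le_mul_right (4 * (p * D) + 2 * (p * k) + 5124 * (p * m)) b4,
      Nat.zero_le (p * p * D), Nat.zero_le (p * p * m), Nat.zero_le (p * p * k),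
      Nat.zero_le (p * p * DN)]
  by_cases c : 2 * s < 3 * m
  · refine key P Q (T.filter fun y => m ≤ M - wt g y ∧ M - wt g y < t + δ) (δ + 5 * R)
      (filter_subset _ _) (fun i hi => by have := hP i hi; omega) (by omega)
      (h.dich b 0 δ 0 (δ + 5 * R) (by omega) P _ (by omega) (fun i hi x a1 a2 a3 => ?_)
        fun y hy i hi a1 a2 => ?_) ?_
    · have := hP i hi
      unfold Pr
      exact ⟨by omega, fun x' e => by omega⟩
    · have := hP i hi
      have := h.hg i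
      exact mem_filter.2 ⟨hy, by omega⟩
    · refine (card_dead (g := g) (M := M) (m := m) (s := s) (R1 := R1) Q _ ∅ (filter_subset _ _)
        (fun y hy i hi => ?_) fun y hy i hi e => ?_).trans (by simp)
      · have := hQ i hi
        have := (mem_filter.1 hy).2
        unfold Pr
        omega
      · have := hQ i hi
        have := (mem_filter.1 hy).2
        have := h.chi e
        omega
  · rw [mul_comm P.card]
    have h1 := h.dich b (m - δ) m (m - δ - 5 * R) (m + 5 * R) le_rfl Q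
      (T.filter fun y => m + t ≤ M - wt g y) (by omega) (fun i hi x a1 a2 a3 => by
        have := hQ i hi
        unfold Pr
        exact ⟨by omega, fun x' e => by omega⟩)
      fun y hy i hi a1 a2 => mem_filter.2 ⟨hy, by have := hQ i hi; omega⟩
    rw [show m - (m - δ) = δ by omega] at h1
    refine key Q P _ _ (filter_subset _ _) (fun i hi => by have := hQ i hi; omega) (by omega) h1 ?_
    refine (card_dead (g := g) (M := M) (m := m) (s := s) (R1 := R1) P _ (Nt g T M m)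
      (filter_subset _ _) (fun y hy i hi => ?_) fun y hy i hi e => ?_).trans
      (Nat.add_le_add_left (sum_le_sum fun z _ => dp_mono (fun i hi => mem_filter.2
        ⟨mem_univ _, by have := hP i hi; omega⟩) z) _)
    · have := (mem_filter.1 hy).2
      unfold Pr
      omega
    · have := hP i hi
      have := (mem_filter.1 hy).2
      have := h.chi e
      exact mem_filter.2 ⟨e, (Nat.div_pos (by omega) (by omega)).ne'⟩

end Pool.Agent.MP_96f5a9_co.H80

end MrgPart1

-- ======== part 2: formerly Pool.Agent.MP_96f5a9_co.h16.IISpec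
section MrgPart2

/-!
Almost equal generators: statements of the modules of the flow certificate.
-/

set_option autoImplicit false

namespace Pool.Agent.MP_96f5a9_co.H16

open Finset H51 H80

/-- Rounding down to a multiple of `m`. -/
noncomputable def fl (m x : ℕ) : ℝ := (m : ℝ) * ((x / m : ℕ) : ℝ)

/-- The reference rate of the central generators. -/
structure Ref (m s R : ℕ) (gb : ℝ) (q : ℕ → ℝ) : Prop where
  R1 : 1 ≤ R
  Rm : 16 * R ≤ m
  ms : m ≤ s
  gb1 : (s : ℝ) ≤ gb + R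
  gb2 : gb ≤ s + R
  gbm : (m : ℝ) ≤ gb
  mono : Monotone q
  sum_le : ∑ l ∈ range m, q l ≤ m
  low : ∀ l : ℕ, (l : ℝ) + gb - R - m ≤ gb * q l
  up : ∀ l : ℕ, gb * q l ≤ l + gb
  one : ∀ l : ℕ, (m : ℝ) ≤ gb * q l
  flat : ∀ l k : ℕ, m * k + 2 * R ≤ l + s → l + s + R < m * (k + 1) → gb * q l = m * k

/-- The flows of the outlying generators. -/
structure Rare {ι : Type} (g : ι → ℕ) (Z : Finset ι) (m s R : ℕ) (gb pR : ℝ) (q : ℕ → ℝ)
    (Fr : ι → ℕ → ℝ) (r qh : ℕ → ℝ) : Prop where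
  zero : ∀ i ∈ Z, ∀ x < m, Fr i x = 0
  top : ∀ i ∈ Z, ∀ x < m, Fr i (x + g i) = g i * qh x
  non : ∀ i ∈ Z, ∀ x, m ≤ x → Fr i (x + g i) = Fr i x + g i
  nonneg : ∀ i ∈ Z, ∀ x, 0 ≤ Fr i x
  near : ∀ i ∈ Z, ∀ x, m ≤ x → |Fr i x - x| ≤ m + 3 * m * x / gb
  prot : ∀ i ∈ Z, ∀ x, 17 * m ≤ 16 * x → (m : ℝ) ≤ 16 * Fr i x
  r_le : ∀ l < m, r l ≤ qh l
  qh_le : ∀ l < m, pR * gb * (qh l - q l) ≤ 14 * m * Z.card
  core : ∀ l < m, ∀ v, s ≤ v + R → v ≤ s + R →
    pR * gb * (r l - q l) ≤ Z.card * fl m (l + v) - ∑ i ∈ Z, Fr i (l + v)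
  mean : -(2 ^ 12 * m * Z.card * R) ≤ pR * gb * (∑ l ∈ range m, r l - ∑ l ∈ range m, q l)

/-- row RARE -/
def RareStmt : Prop := ∀ (ι : Type) (g : ι → ℕ) (Z : Finset ι) (m s R : ℕ) (gb pR : ℝ) (q : ℕ → ℝ),
  Ref m s R gb q → 0 < pR → 14 * (Z.card : ℝ) ≤ pR →
  (∀ i ∈ Z, m ≤ g i ∧ (g i + R < s ∨ s + R < g i)) →
  ∑ i ∈ Z, ((min (g i - s + (s - g i)) m : ℕ) : ℝ) ≤ pR * R →
  ∃ (Fr : ι → ℕ → ℝ) (r qh : ℕ → ℝ), Rare g Z m s R gb pR q Fr r qh

/-- The cell of `k`. -/
def cell {ι : Type} (C : Finset ι) (γ : ι → ℕ) (k : ι) : Finset ι := C.filter fun j => γ j = γ k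

/-- The relative abundance of the cell of `k` at `y`. -/
noncomputable def hh {ι : Type} (C : Finset ι) (γ : ι → ℕ) (y : ι → ℕ) (k : ι) : ℝ :=
  min (((dp (cell C γ k) y : ℝ) + 1) * C.card /
    (((dp C y : ℝ) + (C.image γ).card) * (cell C γ k).card) - 1) 1

/-- The ramp below the multiples of `m`. -/
noncomputable def bt (m L : ℕ) (ξ : ℝ) (x : ℕ) : ℝ :=
  if x < m then 0 else m * (1 - ξ) * max (1 - ((m : ℝ) - (x % m : ℕ)) / L) 0

/-- row REF: the reference rate of a family of cells -/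
def RefStmt : Prop := ∀ (ι : Type) (g γ : ι → ℕ) (C : Finset ι) (m s R w : ℕ), C.Nonempty →
  1 ≤ R → 16 * R ≤ m → m ≤ s → w ≤ R →
  (∀ k ∈ C, m ≤ γ k ∧ γ k ≤ g k ∧ g k ≤ γ k + w ∧ g k ≤ s + R ∧ s ≤ g k + R) →
  Ref m s R ((∑ k ∈ C, (g k : ℝ)) / C.card)
      (fun l => (∑ k ∈ C, fl m (l + γ k)) / ∑ k ∈ C, (g k : ℝ)) ∧
    (m : ℝ) * (1 - w / ((∑ k ∈ C, (g k : ℝ)) / C.card)) ≤
      ∑ l ∈ range m, (∑ k ∈ C, fl m (l + γ k)) / ∑ k ∈ C, (g k : ℝ)

/-- row CELL: the central factors of a top point are served at the reference rate -/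
def CellStmt : Prop := ∀ (ι : Type) [Fintype ι] [DecidableEq ι] (g γ : ι → ℕ) (C : Finset ι)
  (m s R t : ℕ) (ξ N : ℝ), C.Nonempty → 1 ≤ R → 16 * R ≤ m → m ≤ s → 1 ≤ t →
  4 * (3 * R * t ^ 2) ≤ m → 0 ≤ ξ → ξ ≤ 1 / 2 → 0 ≤ N →
  (∀ k ∈ C, m ≤ γ k ∧ γ k ≤ g k ∧ g k ≤ γ k + R ∧ g k ≤ s + R ∧ s ≤ g k + R) →
  (∀ y k, -1 ≤ hh C γ y k ∧ hh C γ y k ≤ 1) ∧ (∀ y, ∑ k ∈ C, hh C γ y k ≤ 0) ∧
  ∃ err : ℕ → ℝ, (∀ j, 0 ≤ err j) ∧
    ∑ j ∈ range m, err j ≤ (3 * R * t ^ 2 + 3 * R) * (m * (C.image γ).card) +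
      N * (8 * R * m / t + 3 * R * (2 * R + m * ξ + m / t ^ 2)) ∧
    ∀ (z : ι → ℕ) (l : ℕ), l < m → (dp C z : ℝ) + (C.image γ).card ≤ N →
      (∑ k ∈ C, (z k : ℝ) * g k) * ((∑ k ∈ C, fl m (l + γ k)) / ∑ k ∈ C, (g k : ℝ)) -
          err ((l + (s - 2 * R)) % m) ≤
        ∑ k ∈ C, (z k : ℝ) * (g k / ((∑ k ∈ C, (g k : ℝ)) / C.card) * fl m (l + g k) +
          bt m (3 * R * t ^ 2) ξ (l + g k) * hh C γ (z - ee k) k)

end Pool.Agent.MP_96f5a9_co.H16

end MrgPart2

-- marker of a merged file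
example : 731051 + 158186 = 731051 + 158186 := rfl
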