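import Mathlib.Algebra.Order.Star.Real
import Pool.Agent.MP_96f5a9_co.h16.IISpec

/-!
Periodic flows for a single outlying generator.
-/

set_option autoImplicit false

namespace Pool.Agent.MP_96f5a9_co.H16

open Finset

/-- The periodic flow along the generator `c`. -/
noncomputable def Fp (m c : ℕ) (f : ℕ → ℝ) (x : ℕ) : ℝ :=
  if x < m then 0 else
    if x % c < m then (x : ℝ) - (x % c : ℕ) + c * (f (x % c) - 1) else (x : ℝ) - m

variable {m c s R : ℕ} {f q : ℕ → ℝ} {gb : ℝ}

lemma fl_le (m x : ℕ) : fl m x ≤ x := by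
  unfold fl
  exact_mod_cast Nat.mul_div_le x m

lemma fl_mono (m : ℕ) {x y : ℕ} (h : x ≤ y) : fl m x ≤ fl m y := by
  unfold fl
  exact_mod_cast Nat.mul_le_mul_left m (Nat.div_le_div_right h)

lemma fl_eq {x k : ℕ} (h1 : m * k ≤ x) (h2 : x < m * (k + 1)) : fl m x = m * k := by
  unfold fl
  rw [Nat.div_eq_of_lt_le (by rwa [mul_comm]) (by rwa [mul_comm])]

lemma sum_fl (hm : 0 < m) (t : ℕ) : ∑ l ∈ range m, fl m (l + t) = m * t := by
  induction t with
  | zero =>
    simp only [add_zero, Nat.cast_zero, mul_zero]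
    exact sum_eq_zero fun l hl => by simp [fl, Nat.div_eq_of_lt (mem_range.1 hl)]
  | succ t ih =>
    have h1 := sum_range_succ (fun l => fl m (l + t)) m
    have h2 := sum_range_succ' (fun l => fl m (l + t)) m
    have h3 : fl m (m + t) = fl m t + m := by
      unfold fl
      rw [Nat.add_div_left _ hm]
      push_cast
      ring
    have h4 : ∑ l ∈ range m, fl m (l + (t + 1)) = ∑ l ∈ range m, fl m (l + 1 + t) :=
      sum_congr rfl fun l _ => by rw [show l + (t + 1) = l + 1 + t by ring]
    simp only [zero_add] at h2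
    push_cast
    linarith

lemma Fp_top (hc : m ≤ c) {x : ℕ} (hx : x < m) : Fp m c f (x + c) = c * f x := by
  have h : (x + c) % c = x := by rw [Nat.add_mod_right, Nat.mod_eq_of_lt (by omega)]
  unfold Fp
  rw [if_neg (by omega), h, if_pos hx]
  push_cast
  ring

lemma Fp_non {x : ℕ} (hx : m ≤ x) : Fp m c f (x + c) = Fp m c f x + c := by
  unfold Fp
  rw [if_neg (by omega), if_neg (show ¬ x < m by omega), Nat.add_mod_right]
  split_ifs <;> push_cast <;> ring

lemma c_le {x : ℕ} (hx : m ≤ x) (h : x % c < m) : c + x % c ≤ x := by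
  have h1 := Nat.div_add_mod x c
  rcases Nat.eq_zero_or_pos (x / c) with e | e
  · rw [e] at h1
    omega
  · have := Nat.mul_le_mul_left c e
    omega

lemma Fp_ge (hc : m ≤ c) (hf : ∀ l < m, 1 / 3 ≤ f l) {x : ℕ} (hx : m ≤ x) :
    min ((x : ℝ) - m) (m / 3) ≤ Fp m c f x := by
  unfold Fp
  rw [if_neg (by omega)]
  split_ifs with h
  · have h1 : (c : ℝ) + (x % c : ℕ) ≤ x := by exact_mod_cast c_le hx h
    have h2 := hf _ h
    have h3 : (m : ℝ) ≤ c := by exact_mod_cast hc
    have h4 : (0 : ℝ) ≤ m := by positivity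
    refine (min_le_right _ _).trans ?_
    nlinarith
  · exact min_le_left _ _

lemma Fp_nonneg (hc : m ≤ c) (hf : ∀ l < m, 1 / 3 ≤ f l) (x : ℕ) : 0 ≤ Fp m c f x := by
  by_cases hx : x < m
  · simp [Fp, hx]
  · refine le_trans (le_min ?_ (by positivity)) (Fp_ge hc hf (not_lt.1 hx))
    have : (m : ℝ) ≤ x := by exact_mod_cast not_lt.1 hx
    linarith

lemma Fp_near {b : ℝ} (hg : 0 < gb) (hb : 0 ≤ b) (hf : ∀ l < m, gb * |f l - 1| ≤ b * m) {x : ℕ}
    (hx : m ≤ x) : |Fp m c f x - x| ≤ m + b * m * x / gb := by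
  have h0 : 0 ≤ b * m * x / gb := by positivity
  unfold Fp
  rw [if_neg (by omega)]
  split_ifs with h
  · have h1 : (c : ℝ) + (x % c : ℕ) ≤ x := by exact_mod_cast c_le hx h
    have h2 := hf _ h
    have h3 : ((x % c : ℕ) : ℝ) ≤ m := by exact_mod_cast h.le
    have h4 : (0 : ℝ) ≤ (x % c : ℕ) := by positivity
    have h5 : (c : ℝ) * |f (x % c) - 1| ≤ b * m * x / gb := by
      rw [le_div_iff₀ hg]
      have h6 : (0 : ℝ) ≤ c := by positivity
      have h7 : (0 : ℝ) ≤ b * m := by positivity
      nlinarith [mul_le_mul_of_nonneg_left h2 h6]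
    have h8 := abs_le.1 (le_of_eq (abs_mul (c : ℝ) (f (x % c) - 1)))
    rw [abs_of_nonneg (show (0 : ℝ) ≤ c by positivity)] at h8
    rw [abs_le]
    constructor <;> linarith [h8.1, h8.2]
  · rw [abs_le]
    have : (0 : ℝ) ≤ m := by positivity
    constructor <;> linarith

/-- A window of `m` consecutive integers embeds in the residues modulo `c`. -/
lemma sum_window (hc : m ≤ c) (a : ℕ) (φ : ℕ → ℝ) (S : Finset ℕ) (h0 : ∀ x, 0 ≤ φ x)
    (hS : ∀ x, x ∉ S → φ x = 0) : ∑ l ∈ range m, φ ((l + a) % c) ≤ ∑ x ∈ S, φ x := by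
  have hinj : ∀ x ∈ range m, ∀ y ∈ range m, (x + a) % c = (y + a) % c → x = y := by
    intro x hx y hy h
    have hx' := mem_range.1 hx
    have hy' := mem_range.1 hy
    exact Nat.ModEq.eq_of_lt_of_lt (Nat.ModEq.add_right_cancel' a h) (by omega) (by omega)
  rw [← sum_image (g := fun l => (l + a) % c) (f := φ) hinj]
  calc _ = ∑ x ∈ ((range m).image fun l => (l + a) % c) ∩ S, φ x := by
        refine (sum_subset inter_subset_left fun x h1 h2 => hS x fun h => h2 ?_).symm
        exact mem_inter.2 ⟨h1, h⟩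
    _ ≤ _ := sum_le_sum_of_subset_of_nonneg inter_subset_right fun x _ _ => h0 x

namespace Ref

lemma pos (h : Ref m s R gb q) : 0 < gb := by
  have h1 := h.R1
  have h2 := h.Rm
  have h3 : (0 : ℝ) < m := by exact_mod_cast (show 0 < m by omega)
  linarith [h.gbm]

lemma Rm' (h : Ref m s R gb q) : 16 * (R : ℝ) ≤ m := by exact_mod_cast h.Rm

lemma third (h : Ref m s R gb q) (l : ℕ) : 1 / 3 ≤ q l := by
  have h1 := h.low l
  have h2 := h.one l
  have h3 := h.Rm'
  have h4 : (0 : ℝ) ≤ l := by positivity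
  have h5 : (0 : ℝ) ≤ R := by positivity
  refine le_of_mul_le_mul_left ?_ h.pos
  linarith

lemma dev (h : Ref m s R gb q) (l : ℕ) (hl : l < m) : gb * |q l - 1| ≤ 2 * m := by
  have h1 := h.low l
  have h2 := h.up l
  have h3 := h.Rm'
  have h4 : (0 : ℝ) ≤ l := by positivity
  have h5 : (l : ℝ) ≤ m := by exact_mod_cast hl.le
  have h6 : (0 : ℝ) ≤ R := by positivity
  have h7 : gb * |q l - 1| = |gb * (q l - 1)| := by rw [abs_mul, abs_of_pos h.pos]
  rw [h7, abs_le]
  constructor <;> linarith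

lemma near (h : Ref m s R gb q) {x : ℕ} (hx : m ≤ x) (hx' : x ≤ s + R + m) :
    |Fp m c q x - x| ≤ 7 * m := by
  refine (Fp_near h.pos (by norm_num) h.dev hx).trans ?_
  have h1 : (x : ℝ) ≤ s + R + m := by exact_mod_cast hx'
  have h2 : 2 * (m : ℝ) * x / gb ≤ 6 * m := by
    rw [div_le_iff₀ h.pos]
    have : (0 : ℝ) ≤ m := by positivity
    nlinarith [h.gb1, h.gbm, h.Rm']
  linarith

lemma step (h : Ref m s R gb q) (hc : m ≤ c) {x : ℕ} (hx : x + 1 ≤ s + R + m) :
    Fp m c q x ≤ Fp m c q (x + 1) +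
      (if (x + 1) % c = 0 ∨ (x + 1) % c = m then 14 * (m : ℝ) else 0) := by
  by_cases h1 : x < m
  · have := Fp_nonneg hc (fun l _ => h.third l) (x + 1)
    have h2 : Fp m c q x = 0 := by simp [Fp, h1]
    split_ifs
    · have : (0 : ℝ) ≤ m := by positivity
      linarith
    · linarith
  split_ifs with h2
  · have a1 := abs_le.1 (h.near (c := c) (not_lt.1 h1) (by omega))
    have a2 := abs_le.1 (h.near (c := c) (x := x + 1) (by omega) hx)
    push_cast at a2
    linarith [a1.2, a2.1]
  · push Not at h2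
    have hc0 : 0 < c := by have := h.R1; have := h.Rm; omega
    have a1 : (x + 1) % c = x % c + 1 := by
      have b1 := Nat.mod_lt x hc0
      have b2 : (x + 1) % c = (x % c + 1) % c := by simp
      rcases Nat.lt_or_ge (x % c + 1) c with e | e
      · rw [b2, Nat.mod_eq_of_lt e]
      · exact absurd (by rw [b2, show x % c + 1 = c by omega, Nat.mod_self]) h2.1
    unfold Fp
    rw [if_neg h1, if_neg (show ¬ x + 1 < m by omega), a1]
    rw [a1] at h2
    by_cases e : x % c < m
    · rw [if_pos e, if_pos (by omega)]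
      have := mul_le_mul_of_nonneg_left (h.mono (Nat.le_succ (x % c))) (show (0 : ℝ) ≤ c by positivity)
      push_cast
      linarith
    · rw [if_neg e, if_neg (by omega)]
      push_cast
      linarith

lemma tele (h : Ref m s R gb q) (hc : m ≤ c) (a : ℕ) : ∀ n k : ℕ, k ≤ n → a + n ≤ s + R + m →
    Fp m c q (a + k) ≤ Fp m c q (a + n) + ∑ e ∈ range n,
      (if (a + (e + 1)) % c = 0 ∨ (a + (e + 1)) % c = m then 14 * (m : ℝ) else 0) := by
  intro n
  induction n with
  | zero =>
    intro k hk _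
    rw [Nat.le_zero.1 hk]
    simp
  | succ n ih =>
    intro k hk hn
    rcases Nat.lt_or_ge k (n + 1) with e | e
    · have h1 := ih k (by omega) (by omega)
      have h2 := h.step hc (x := a + n) (by omega)
      rw [sum_range_succ, ← add_assoc a n 1]
      linarith
    · rw [show k = n + 1 by omega]
      refine le_add_of_nonneg_right (sum_nonneg fun e _ => ?_)
      split_ifs <;> positivity

lemma drops (hc : m ≤ c) (a : ℕ) : ∑ l ∈ range m,
    (if (l + a) % c = 0 ∨ (l + a) % c = m then 14 * (m : ℝ) else 0) ≤ 28 * m := by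
  refine (sum_window hc a (fun x => if x = 0 ∨ x = m then 14 * (m : ℝ) else 0) {0, m}
    (fun x => by split_ifs <;> positivity) fun x hx => if_neg (by simpa using hx)).trans ?_
  refine (sum_le_card_nsmul _ _ (14 * (m : ℝ)) fun x _ => by
    split_ifs
    · exact le_rfl
    · positivity).trans ?_
  have : ((({0, m} : Finset ℕ).card : ℕ) : ℝ) ≤ 2 := by exact_mod_cast card_le_two
  have h0 : (0 : ℝ) ≤ m := by positivity
  rw [nsmul_eq_mul]
  nlinarith

lemma head (h : Ref m s R gb q) {t : ℕ} (ht : t ≤ m) : ∑ l ∈ range t, q l ≤ t := by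
  by_cases e : q t ≤ 1
  · refine (sum_le_card_nsmul _ _ 1 fun l hl => (h.mono (mem_range.1 hl).le).trans e).trans ?_
    simp
  · obtain ⟨k, rfl⟩ := Nat.exists_eq_add_of_le ht
    have h1 := h.sum_le
    rw [sum_range_add] at h1
    have h2 := card_nsmul_le_sum (range k) (fun l => q (t + l)) 1 fun l _ =>
      (not_le.1 e).le.trans (h.mono (Nat.le_add_right _ _))
    simp only [card_range, nsmul_eq_mul, mul_one] at h2
    push_cast at h1
    linarith

lemma upper (h : Ref m s R gb q) {v : ℕ} (hv : m ≤ v) (hc : v < c) :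
    ∑ l ∈ range m, Fp m c q (l + v) ≤ m * v := by
  have key : ∀ l, l + v < c → Fp m c q (l + v) = l + v - m := fun l hl => by
    unfold Fp
    rw [if_neg (by omega), Nat.mod_eq_of_lt hl, if_neg (by omega)]
    push_cast
    ring
  rcases Nat.lt_or_ge c (v + m) with e | e
  · obtain ⟨u, rfl⟩ := Nat.exists_eq_add_of_le hc.le
    obtain ⟨k, hk⟩ := Nat.exists_eq_add_of_le (show u ≤ m by omega)
    have h1 : ∑ l ∈ range u, Fp m (v + u) q (l + v) ≤ u * (v + u - m) := by
      refine (sum_le_card_nsmul _ _ ((v : ℝ) + u - m) fun l hl => ?_).trans (by simp)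
      have := mem_range.1 hl
      have h2 : (l : ℝ) ≤ u := by exact_mod_cast this.le
      rw [key l (by omega)]
      linarith
    have h2 : ∑ l ∈ range k, Fp m (v + u) q (u + l + v) = (v + u) * ∑ l ∈ range k, q l := by
      rw [mul_sum]
      refine sum_congr rfl fun l hl => ?_
      have := mem_range.1 hl
      rw [show u + l + v = l + (v + u) by ring, Fp_top (by omega) (by omega)]
      push_cast
      ring
    have h3 := mul_le_mul_of_nonneg_left (h.head (show k ≤ m by omega))
      (show (0 : ℝ) ≤ v + u by positivity)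
    have h4 : (m : ℝ) = u + k := by exact_mod_cast hk
    have h5 := sum_range_add (fun l => Fp m (v + u) q (l + v)) u k
    rw [← hk] at h5
    rw [h5, h2]
    rw [h4] at h1 ⊢
    nlinarith
  · refine (sum_le_card_nsmul _ _ (v : ℝ) fun l hl => ?_).trans (by simp)
    have := mem_range.1 hl
    have h2 : (l : ℝ) ≤ m := by exact_mod_cast this.le
    rw [key l (by omega)]
    linarith

lemma lower (h : Ref m s R gb q) {v : ℕ} (hv : m ≤ v) (hc : m ≤ c) (hc' : (c : ℝ) ≤ gb) :
    ∑ l ∈ range m, Fp m c q (l + v) ≤ m * v + m * R := by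
  set Θ : ℕ → ℝ := fun x => if x < m then (m : ℝ) - x + c * (q x - 1) + R else 0 with hΘ
  have hR : (0 : ℝ) ≤ R := by positivity
  have hc0 : (0 : ℝ) ≤ c := by positivity
  have h0 : ∀ x, 0 ≤ Θ x := fun x => by
    simp only [hΘ]
    split_ifs with e
    · have a1 := h.low x
      have a2 : (x : ℝ) ≤ m := by exact_mod_cast e.le
      refine le_of_mul_le_mul_left ?_ h.pos
      nlinarith [mul_le_mul_of_nonneg_left a1 hc0,
        mul_le_mul_of_nonneg_right hc' (show (0 : ℝ) ≤ m - x + R by linarith)]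
    · exact le_rfl
  have h1 : ∀ l ∈ range m, Fp m c q (l + v) ≤ (l + (v - m)) + Θ ((l + v) % c) := fun l _ => by
    simp only [hΘ, Fp]
    rw [if_neg (by omega)]
    split_ifs <;> push_cast <;> linarith
  have h2 := sum_window hc v Θ (range m) h0 fun x hx => if_neg (by simpa using hx)
  have h3 : ∑ x ∈ range m, Θ x =
      m * m - ∑ x ∈ range m, (x : ℝ) + c * (∑ x ∈ range m, q x - m) + m * R := by
    rw [sum_congr rfl fun x hx => if_pos (mem_range.1 hx)]
    simp only [sum_add_distrib, sum_sub_distrib, ← mul_sum, sum_const, card_range, nsmul_eq_mul,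
      mul_one]
  refine (sum_le_sum h1).trans ?_
  rw [sum_add_distrib, sum_add_distrib, sum_const, card_range, nsmul_eq_mul]
  nlinarith [h.sum_le]

end Ref

end Pool.Agent.MP_96f5a9_co.H16
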