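import Mathlib.Analysis.Normed.Field.Basic
import Pool.Agent.MP_96f5a9_co.h16.RareA

/-!
The flows of the outlying generators.
-/

set_option autoImplicit false

namespace Pool.Agent.MP_96f5a9_co.H16

open Finset

variable {m c s R : ℕ} {q : ℕ → ℝ} {gb : ℝ}

/-- The residues near a jump. -/
def Wj (m s u l : ℕ) : Prop :=
  l ≤ 3 * u ∨ m ≤ l + 3 * u ∨ (m - s % m ≤ l + 3 * u ∧ l ≤ m - s % m + 3 * u)

instance (m s u l : ℕ) : Decidable (Wj m s u l) := by unfold Wj; infer_instance

/-- The enlarged set of residues near a jump. -/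
def Sj (m s u c : ℕ) : Finset ℕ :=
  Icc 0 (3 * u) ∪ (Icc (m - s % m - 5 * u) (m - s % m + 3 * u) ∪
    (Icc (m - 5 * u) (m + 3 * u) ∪ Ico (c - 2 * u) c))

lemma card_Sj (m s c : ℕ) {u : ℕ} (hu : 1 ≤ u) : (Sj m s u c).card ≤ 24 * u := by
  unfold Sj
  refine (card_union_le _ _).trans ?_
  refine (Nat.add_le_add_left ((card_union_le _ _).trans
    (Nat.add_le_add_left (card_union_le _ _) _)) _).trans ?_
  simp only [Nat.card_Icc, Nat.card_Ico]
  omega

lemma mem_Sj {u a e : ℕ} (hu : e ≤ 2 * u) (hc : 0 < c) (h1 : (a + e) % c < m)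
    (h2 : Wj m s u ((a + e) % c)) : a % c ∈ Sj m s u c := by
  have b1 := Nat.mod_lt a hc
  unfold Wj at h2
  simp only [Sj, mem_union, mem_Icc, mem_Ico]
  rcases Nat.lt_or_ge (a % c + e) c with h | h
  · have : (a + e) % c = a % c + e := by
      rw [← Nat.mod_add_mod, Nat.mod_eq_of_lt h]
    omega
  · omega

lemma Ref.psi (h : Ref m s R gb q) (hc : m ≤ c) (hc' : c + R < s ∨ s + R < c) {l : ℕ} (hl : l < m) :
    fl m (l + s) - Fp m c q (l + s) ≤ 6 * ((min (c - s + (s - c)) m : ℕ) : ℝ) +
      (if Wj m s (min (c - s + (s - c)) m) l then 8 * (m : ℝ) else 0) := by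
  have hms := h.ms
  have hm0 : (0 : ℝ) ≤ m := by positivity
  split_ifs with e
  · have a1 := abs_le.1 (h.near (c := c) (x := l + s) (by omega) (by omega))
    have a2 := fl_le m (l + s)
    have a3 : (0 : ℝ) ≤ ((min (c - s + (s - c)) m : ℕ) : ℝ) := by positivity
    linarith [a1.1]
  · unfold Wj at e
    obtain ⟨u, hu⟩ : ∃ u, u = min (c - s + (s - c)) m := ⟨_, rfl⟩
    rw [← hu] at e ⊢
    have b1 := Nat.div_add_mod s m
    have b2 := Nat.mod_lt s (show 0 < m by omega)
    obtain ⟨y, hy⟩ : ∃ y, l + s = y + c := ⟨l + s - c, by omega⟩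
    obtain ⟨k, hk⟩ : ∃ k, m * k + 3 * u < l + s ∧ l + s + 3 * u < m * (k + 1) := by
      by_cases e' : l + 3 * u < m - s % m
      · exact ⟨s / m, by omega, by rw [mul_add]; omega⟩
      · exact ⟨s / m + 1, by rw [mul_add]; omega, by rw [mul_add, mul_add]; omega⟩
    have a1 := h.flat y k (by omega) (by omega)
    have a2 : fl m (l + s) = m * k := fl_eq (by omega) (by omega)
    rw [a2, hy, Fp_top hc (by omega), add_zero]
    have a3 : ((m * k : ℕ) : ℝ) ≤ (m + s : ℕ) := by exact_mod_cast (show m * k ≤ m + s by omega)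
    have a4 : ((s + R : ℕ) : ℝ) ≤ (c + 2 * u : ℕ) := by
      exact_mod_cast (show s + R ≤ c + 2 * u by omega)
    push_cast at a3 a4
    have a5 : q y ≤ 3 := by
      refine le_of_mul_le_mul_left ?_ h.pos
      linarith [h.gb1, h.gbm, h.Rm']
    have a6 : 0 ≤ q y := le_trans (by norm_num) (h.third y)
    have a7 : (0 : ℝ) ≤ u := by positivity
    nlinarith [mul_le_mul_of_nonneg_right (show gb - c ≤ 2 * u by linarith [h.gb2]) a6]

lemma Fp_add (k : ℕ → ℝ) (x : ℕ) : Fp m c (fun l => q l + k l) x =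
    Fp m c q x + (if m ≤ x ∧ x % c < m then c * k (x % c) else 0) := by
  unfold Fp
  by_cases h1 : x < m
  · simp [h1]
  · by_cases h2 : x % c < m
    · simp only [h1, h2, not_lt.1 h1, if_true, if_false, and_self]
      ring
    · simp [h1, h2]

theorem rare : RareStmt := by
  intro ι g Z m s R gb pR q h hp hZ hg hu
  obtain ⟨u, hu'⟩ : ∃ u : ι → ℕ, ∀ i, u i = min (g i - s + (s - g i)) m := ⟨_, fun _ => rfl⟩
  simp only [← hu'] at hu
  have hR1 := h.R1
  have hRm := h.Rm
  have hms := h.ms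
  have hgb := h.pos
  have hm0 : (0 : ℝ) ≤ m := by positivity
  have hR0 : (0 : ℝ) ≤ R := by positivity
  have hpg : 0 < pR * gb := mul_pos hp hgb
  have hur : ∀ i ∈ Z, R ≤ u i ∧ u i ≤ m := fun i hi => by
    have := hg i hi
    rw [hu']
    omega
  set κ : ℕ → ℝ := fun l =>
    (∑ j ∈ Z, (6 * (u j : ℝ) + if Wj m s (u j) l then 8 * (m : ℝ) else 0)) / (pR * gb) with hκ
  have k0 : ∀ l, 0 ≤ κ l := fun l =>
    div_nonneg (sum_nonneg fun j _ => by split_ifs <;> positivity) hpg.le
  have k1 : ∀ l, pR * gb * κ l ≤ 14 * m * Z.card := fun l => by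
    rw [hκ, mul_div_cancel₀ _ hpg.ne']
    refine (sum_le_card_nsmul _ _ (14 * (m : ℝ)) fun j hj => ?_).trans (by simp [mul_comm])
    have : (u j : ℝ) ≤ m := by exact_mod_cast (hur j hj).2
    split_ifs <;> linarith
  have k2 : ∀ l < m, 1 / 3 ≤ q l + κ l := fun l _ => by linarith [h.third l, k0 l]
  have k3 : ∀ l < m, gb * |q l + κ l - 1| ≤ 3 * m := fun l hl => by
    have a1 := h.dev l hl
    have a2 : gb * κ l ≤ m := by
      refine le_of_mul_le_mul_left ?_ hp
      nlinarith [k1 l]
    have a3 : |q l + κ l - 1| ≤ |q l - 1| + κ l := by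
      rw [show q l + κ l - 1 = q l - 1 + κ l by ring]
      exact (abs_add_le _ _).trans (by rw [abs_of_nonneg (k0 l)])
    nlinarith
  set E : ι → ℕ → ℝ := fun i l => Fp m (g i) q (l + (s + R)) +
    ∑ e ∈ range (2 * R), (if (l + (s - R) + (e + 1)) % g i = 0 ∨ (l + (s - R) + (e + 1)) % g i = m
      then 14 * (m : ℝ) else 0) +
    3 / pR * ∑ j ∈ Z, (6 * (u j : ℝ) +
      if (l + (s - R)) % g i ∈ Sj m s (u j) (g i) then 8 * (m : ℝ) else 0) with hE
  have e1 : ∀ i ∈ Z, ∀ l < m, ∀ v, s ≤ v + R → v ≤ s + R →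
      Fp m (g i) (fun l => q l + κ l) (l + v) ≤ E i l := by
    intro i hi l hl v hv1 hv2
    have hc := (hg i hi).1
    obtain ⟨e, he⟩ : ∃ e, v = s - R + e := ⟨v - (s - R), by omega⟩
    have a1 := h.tele hc (l + (s - R)) (2 * R) e (by omega) (by omega)
    rw [show l + (s - R) + 2 * R = l + (s + R) by omega, add_assoc l, ← he] at a1
    rw [Fp_add]
    refine add_le_add a1 ?_
    have a2 : 0 ≤ ∑ j ∈ Z, (6 * (u j : ℝ) +
        if (l + (s - R)) % g i ∈ Sj m s (u j) (g i) then 8 * (m : ℝ) else 0) :=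
      sum_nonneg fun j _ => by split_ifs <;> positivity
    split_ifs with e'
    · have a3 : ((g i : ℕ) : ℝ) ≤ (m + (s + R) : ℕ) := by
        have := c_le e'.1 e'.2
        exact_mod_cast (show g i ≤ m + (s + R) by omega)
      push_cast at a3
      have a4 : (g i : ℝ) ≤ 3 * gb := by linarith [h.gb1, h.gbm, h.Rm']
      have a5 : κ ((l + v) % g i) ≤ (∑ j ∈ Z, (6 * (u j : ℝ) +
          if (l + (s - R)) % g i ∈ Sj m s (u j) (g i) then 8 * (m : ℝ) else 0)) / (pR * gb) := by
        refine div_le_div_of_nonneg_right (sum_le_sum fun j hj => add_le_add le_rfl ?_) hpg.le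
        by_cases w : Wj m s (u j) ((l + v) % g i)
        · have b := e'.2
          rw [he, ← add_assoc] at w b
          rw [if_pos (mem_Sj (by have := hur j hj; omega) (by omega) b w)]
          split_ifs
          · exact le_rfl
          · positivity
        · rw [if_neg w]
          split_ifs <;> positivity
      refine (mul_le_mul a4 a5 (k0 _) (by positivity)).trans (le_of_eq ?_)
      field_simp
    · positivity
  have e2 : ∀ i ∈ Z, ∑ l ∈ range m, E i l ≤ m * s + 652 * (m * R) := by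
    intro i hi
    have hc := hg i hi
    have a1 : ∑ l ∈ range m, Fp m (g i) q (l + (s + R)) ≤ m * (s + R : ℕ) + m * R := by
      rcases hc.2 with e | e
      · refine h.lower (by omega) hc.1 ?_
        have : ((g i + R : ℕ) : ℝ) ≤ s := by exact_mod_cast e.le
        push_cast at this
        linarith [h.gb1]
      · exact (h.upper (by omega) e).trans (le_add_of_nonneg_right (by positivity))
    have a2 : ∑ l ∈ range m, ∑ e ∈ range (2 * R),
        (if (l + (s - R) + (e + 1)) % g i = 0 ∨ (l + (s - R) + (e + 1)) % g i = m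
          then 14 * (m : ℝ) else 0) ≤ 2 * R * (28 * m) := by
      rw [sum_comm]
      refine (sum_le_card_nsmul _ _ (28 * (m : ℝ)) fun e _ => ?_).trans (by simp)
      simp only [add_assoc]
      exact Ref.drops hc.1 _
    have a3 : ∑ l ∈ range m, ∑ j ∈ Z, (6 * (u j : ℝ) +
        if (l + (s - R)) % g i ∈ Sj m s (u j) (g i) then 8 * (m : ℝ) else 0) ≤
        198 * m * (pR * R) := by
      rw [sum_comm]
      refine le_trans (sum_le_sum (g := fun j => 198 * (m : ℝ) * u j) fun j hj => ?_) ?_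
      · have b1 := sum_window hc.1 (s - R)
          (fun x => if x ∈ Sj m s (u j) (g i) then 8 * (m : ℝ) else 0) (Sj m s (u j) (g i))
          (fun x => by split_ifs <;> positivity) fun x hx => if_neg hx
        rw [sum_congr rfl fun x hx => if_pos hx, sum_const, nsmul_eq_mul] at b1
        have b2 : ((Sj m s (u j) (g i)).card : ℝ) ≤ 24 * u j := by
          exact_mod_cast card_Sj m s (g i) (show 1 ≤ u j by have := hur j hj; omega)
        rw [sum_add_distrib, sum_const, card_range, nsmul_eq_mul]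
        nlinarith
      · rw [← mul_sum]
        exact mul_le_mul_of_nonneg_left hu (by positivity)
    have a4 := mul_le_mul_of_nonneg_left a3 (show 0 ≤ 3 / pR by positivity)
    have a5 : 3 / pR * (198 * m * (pR * R)) = 594 * (m * R) := by
      field_simp
      ring
    simp only [hE, sum_add_distrib (s := range m), ← mul_sum]
    push_cast at a1
    linarith
  refine ⟨fun i => Fp m (g i) fun l => q l + κ l,
    fun l => q l + (Z.card * fl m (l + (s - R)) - ∑ i ∈ Z, E i l) / (pR * gb),
    fun l => q l + κ l, ?_, ?_, ?_, ?_, ?_, ?_, ?_, ?_, ?_, ?_⟩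
  · intro i _ x hx
    simp [Fp, hx]
  · exact fun i hi x hx => Fp_top (hg i hi).1 hx
  · exact fun i _ x hx => Fp_non hx
  · exact fun i hi x => Fp_nonneg (hg i hi).1 k2 x
  · exact fun i _ x hx => Fp_near hgb (by norm_num) k3 hx
  · intro i hi x hx
    have a1 := Fp_ge (hg i hi).1 k2 (show m ≤ x by omega)
    have a2 : 17 * (m : ℝ) ≤ 16 * x := by exact_mod_cast hx
    have a3 : (m : ℝ) / 16 ≤ min ((x : ℝ) - m) (m / 3) := le_min (by linarith) (by linarith)
    linarith
  · intro l hl
    refine add_le_add le_rfl (div_le_div_of_nonneg_right ?_ hpg.le)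
    rw [← nsmul_eq_mul, ← sum_const, ← sum_sub_distrib]
    refine sum_le_sum fun i hi => ?_
    have a1 := h.psi (hg i hi).1 (hg i hi).2 hl
    have a2 := e1 i hi l hl s (by omega) (by omega)
    have a3 := fl_mono m (show l + (s - R) ≤ l + s by omega)
    rw [Fp_add] at a2
    rw [← hu'] at a1
    have a4 : 0 ≤ (if m ≤ l + s ∧ (l + s) % g i < m then g i * κ ((l + s) % g i) else 0) := by
      split_ifs
      · exact mul_nonneg (by positivity) (k0 _)
      · exact le_rfl
    linarith
  · intro l _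
    simpa using k1 l
  · intro l hl v hv1 hv2
    rw [add_sub_cancel_left, mul_div_cancel₀ _ hpg.ne']
    have a1 := mul_le_mul_of_nonneg_left (fl_mono m (show l + (s - R) ≤ l + v by omega))
      (show (0 : ℝ) ≤ Z.card by positivity)
    have a2 := sum_le_sum fun i hi => e1 i hi l hl v hv1 hv2
    linarith
  · rw [sum_add_distrib, add_sub_cancel_left, mul_sum,
      sum_congr rfl fun l _ => mul_div_cancel₀ _ hpg.ne', sum_sub_distrib,
      ← mul_sum, sum_fl (by omega), sum_comm, Nat.cast_sub (by omega)]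
    have a1 := sum_le_card_nsmul _ _ _ e2
    rw [nsmul_eq_mul] at a1
    have a2 : (0 : ℝ) ≤ Z.card * (m * R) := by positivity
    nlinarith

end Pool.Agent.MP_96f5a9_co.H16
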