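import Mathlib.Logic.Equiv.PartialEquiv
import Mathlib.Topology.Sheaves.Presheaf
import Mathlib.Tactic.ENatToNat
import Mathlib.Tactic.Monotonicity.Lemmas
import Mathlib.Data.Int.ConditionallyCompleteOrder
import Mathlib.Data.Int.Star
import Mathlib.Algebra.Order.Ring.Star
import Mathlib.Tactic.Bound
import Mathlib.Data.DFinsupp.WellFounded
import Mathlib.Algebra.Order.Monoid.Prod
import Mathlib.Algebra.Order.Sub.Prod
import Mathlib.Combinatorics.SimpleGraph.Basic
import Mathlib.RingTheory.PiTensorProduct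
import Mathlib.RingTheory.WittVector.IsPoly
import Mathlib.Tactic.Polynomial.Basic
import Mathlib.Tactic.ReduceModChar
import Pool.Agent.MP_96f5a9_co.Basic
import Mathlib.Data.Nat.Choose.Sum
import Mathlib.Algebra.BigOperators.Pi
import Mathlib.Algebra.Order.BigOperators.Group.Finset
import Mathlib.Data.Fintype.BigOperators
import Mathlib.Tactic.Linarith
import Mathlib.Tactic.Ring

-- ======== part 0: formerly Pool.Agent.MP_96f5a9_co.h51.Bridge
section MrgPart0

-- ======== part 0: formerly Pool.Agent.MP_96f5a9_co.h51.Lines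
section MrgPart0

/-!
Finite order ideals of `ι → ℕ`: lines, tops, the averaging identity, a line counting lemma and a
packing lemma.
-/

set_option autoImplicit false

namespace Pool.Agent.MP_96f5a9_co.H51

open Finset Function

variable {ι : Type} [Fintype ι] [DecidableEq ι]

/-- The weight of an exponent vector. -/
def wt (g x : ι → ℕ) : ℕ := ∑ i, x i * g i

/-- The largest `i`-th coordinate on the `i`-line of `T` through `x`. -/
def ht (T : Finset (ι → ℕ)) (i : ι) (x : ι → ℕ) : ℕ :=
  (T.filter fun y => update y i 0 = update x i 0).sup fun y => y i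

/-- The last point of the `i`-line of `T` through `x`. -/
def top (T : Finset (ι → ℕ)) (i : ι) (x : ι → ℕ) : ι → ℕ := update x i (ht T i x)

omit [DecidableEq ι] in
lemma wt_add (g x y : ι → ℕ) : wt g (x + y) = wt g x + wt g y := by
  simp [wt, add_mul, sum_add_distrib]

lemma wt_update (g x : ι → ℕ) (i : ι) (t : ℕ) :
    wt g (update x i t) + x i * g i = wt g x + t * g i := by
  unfold wt
  rw [← add_sum_erase _ _ (mem_univ i), ← add_sum_erase _ (fun j => x j * g j) (mem_univ i)]
  have : ∑ j ∈ univ.erase i, update x i t j * g j = ∑ j ∈ univ.erase i, x j * g j :=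
    sum_congr rfl fun j hj => by rw [update_of_ne (ne_of_mem_erase hj)]
  rw [this, update_self]
  ring

lemma wt_single (g : ι → ℕ) (i : ι) (t : ℕ) : wt g (Pi.single i t) = t * g i := by
  unfold wt
  rw [sum_eq_single i]
  · simp
  · intro j _ hj
    simp [Pi.single_eq_of_ne hj]
  · simp

omit [DecidableEq ι] in
lemma coord_le_wt (g x : ι → ℕ) (i : ι) : x i * g i ≤ wt g x :=
  single_le_sum (f := fun j => x j * g j) (fun _ _ => Nat.zero_le _) (mem_univ i)

lemma ht_congr (T : Finset (ι → ℕ)) (i : ι) {x y : ι → ℕ} (h : update x i 0 = update y i 0) :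
    ht T i x = ht T i y := by
  unfold ht
  rw [h]

lemma ht_update (T : Finset (ι → ℕ)) (i : ι) (x : ι → ℕ) (t : ℕ) :
    ht T i (update x i t) = ht T i x := ht_congr T i (by simp)

lemma le_ht {T : Finset (ι → ℕ)} (i : ι) {x : ι → ℕ} (hx : x ∈ T) : x i ≤ ht T i x :=
  le_sup (f := fun y : ι → ℕ => y i) (mem_filter.2 ⟨hx, rfl⟩)

omit [Fintype ι] in
lemma eq_update_of_line {x y : ι → ℕ} {i : ι} (h : update y i 0 = update x i 0) :
    y = update x i (y i) := by
  funext j
  by_cases hj : j = i
  · subst hj; simp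
  · have := congrFun h j
    simpa [update_of_ne hj] using this

lemma top_mem {T : Finset (ι → ℕ)} (i : ι) {x : ι → ℕ} (hx : x ∈ T) : top T i x ∈ T := by
  obtain ⟨y, hy, h⟩ := exists_mem_eq_sup (T.filter fun y => update y i 0 = update x i 0)
    ⟨x, mem_filter.2 ⟨hx, rfl⟩⟩ (fun y => y i)
  obtain ⟨hyT, hyx⟩ := mem_filter.1 hy
  unfold top ht
  rw [h, ← eq_update_of_line hyx]
  exact hyT

lemma update_mem {T : Finset (ι → ℕ)} (hT : ∀ x ∈ T, ∀ y, y ≤ x → y ∈ T) (i : ι) {x : ι → ℕ}
    (hx : x ∈ T) {t : ℕ} (ht' : t ≤ ht T i x) : update x i t ∈ T := by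
  refine hT _ (top_mem i hx) _ fun j => ?_
  by_cases hj : j = i
  · subst hj; simpa [top] using ht'
  · simp [top, update_of_ne hj]

lemma wt_top (g : ι → ℕ) (T : Finset (ι → ℕ)) (i : ι) (x : ι → ℕ) :
    wt g (top T i x) + x i * g i = wt g x + ht T i x * g i := wt_update g x i _

lemma sum_ht {T : Finset (ι → ℕ)} (hT : ∀ x ∈ T, ∀ y, y ≤ x → y ∈ T) (i : ι) :
    ∑ x ∈ T, ht T i x = 2 * ∑ x ∈ T, x i := by
  have h : ∑ x ∈ T, (ht T i x - x i) = ∑ x ∈ T, x i := by
    refine sum_nbij' (fun x => update x i (ht T i x - x i))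
      (fun x => update x i (ht T i x - x i)) ?_ ?_ ?_ ?_ ?_
    · intro x hx; exact update_mem hT i hx (Nat.sub_le _ _)
    · intro x hx; exact update_mem hT i hx (Nat.sub_le _ _)
    · intro x hx
      have := le_ht i hx
      simp only [ht_update, update_self, update_idem]
      rw [Nat.sub_sub_self this, update_eq_self]
    · intro x hx
      have := le_ht i hx
      simp only [ht_update, update_self, update_idem]
      rw [Nat.sub_sub_self this, update_eq_self]
    · intro x _; simp
  rw [two_mul]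
  nth_rewrite 1 [← h]
  rw [← sum_add_distrib]
  exact sum_congr rfl fun x hx => (Nat.sub_add_cancel (le_ht i hx)).symm

/-- The averaging identity. -/
lemma sum_wt_top (g : ι → ℕ) {T : Finset (ι → ℕ)} (hT : ∀ x ∈ T, ∀ y, y ≤ x → y ∈ T) :
    ∑ x ∈ T, ∑ i, wt g (top T i x) = (Fintype.card ι + 1) * ∑ x ∈ T, wt g x := by
  have h1 : ∀ i, ∑ x ∈ T, wt g (top T i x) = ∑ x ∈ T, wt g x + ∑ x ∈ T, x i * g i := by
    intro i
    have h2 : ∑ x ∈ T, (wt g (top T i x) + x i * g i) = ∑ x ∈ T, (wt g x + ht T i x * g i) :=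
      sum_congr rfl fun x _ => wt_top g T i x
    rw [sum_add_distrib, sum_add_distrib, ← sum_mul, ← sum_mul, sum_ht hT i] at h2
    rw [← sum_mul]
    nlinarith
  rw [sum_comm, sum_congr rfl fun i _ => h1 i, sum_add_distrib, sum_comm (s := univ) (t := T)
    (f := fun i x => x i * g i)]
  simp only [sum_const, card_univ, smul_eq_mul]
  rw [add_mul, one_mul]
  rfl

omit [Fintype ι] in
/-- Line counting. -/
lemma line_count [Finite ι] (B Z : Finset (ι → ℕ)) (i : ι) (a b : ℕ)
    (hB : ∀ x ∈ B, ∃ lo, ∀ t, update x i t ∈ B → lo ≤ t ∧ t < lo + a)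
    (hZ : ∀ x ∈ B, ∃ lo, ∀ t, lo ≤ t → t < lo + b → update x i t ∈ Z) :
    b * B.card ≤ a * Z.card := by
  classical
  set P := B.image (fun x => update x i 0) with hP
  have h1 : B.card ≤ a * P.card := by
    refine card_le_mul_card_image _ _ fun p hp => ?_
    obtain ⟨x, hx, rfl⟩ := mem_image.1 hp
    obtain ⟨lo, hlo⟩ := hB x hx
    calc _ ≤ (Ico lo (lo + a)).card := by
          refine card_le_card_of_injOn (fun y => y i) ?_ ?_
          · intro y hy
            simp only [coe_filter, Set.mem_ofPred_eq] at hy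
            have := hlo (y i) (by rw [← eq_update_of_line hy.2]; exact hy.1)
            simpa using this
          · intro y hy y' hy' h
            simp only [coe_filter, Set.mem_ofPred_eq] at hy hy'
            rw [eq_update_of_line hy.2, eq_update_of_line hy'.2]
            simp only at h
            rw [h]
      _ = a := by simp
  have h2 : b * P.card ≤ Z.card := by
    calc b * P.card ≤ (Z.filter fun z => update z i 0 ∈ P).card := by
          refine mul_card_image_le_card_of_maps_to (f := fun z => update z i 0)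
            (fun z hz => (mem_filter.1 hz).2) b fun p hp => ?_
          obtain ⟨x, hx, rfl⟩ := mem_image.1 hp
          obtain ⟨lo, hlo⟩ := hZ x hx
          calc b = (Ico lo (lo + b)).card := by simp
            _ ≤ _ := by
              refine card_le_card_of_injOn (fun t => update x i t) ?_ ?_
              · intro t ht'
                simp only [coe_Ico, Set.mem_Ico] at ht'
                simp only [coe_filter, mem_filter, Set.mem_ofPred_eq, update_idem, and_true]
                exact ⟨hlo t ht'.1 ht'.2, hp⟩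
              · intro t _ t' _ h
                simpa using congrFun h i
      _ ≤ Z.card := card_filter_le _ _
  calc b * B.card ≤ b * (a * P.card) := Nat.mul_le_mul_left _ h1
    _ = a * (b * P.card) := by ring
    _ ≤ a * Z.card := Nat.mul_le_mul_left _ h2

/-- Packing lemma. -/
lemma packing (g : ι → ℕ) (T X : Finset (ι → ℕ)) (m : ℕ) (hm : 0 < m)
    (hinj : ∀ x ∈ T, ∀ y ∈ T, wt g x ≡ wt g y [MOD m] → x = y) (l : ι → ℕ)
    (hX : ∀ x ∈ X, x ∈ T ∧ ∀ j, x + Pi.single j (l j) ∈ T) :
    X.card + ∑ i, (X.filter fun x => x i < l i).card ≤ m := by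
  classical
  haveI : NeZero m := ⟨hm.ne'⟩
  let s : Option ι → (ι → ℕ) := fun o => o.elim 0 fun i => Pi.single i (l i)
  let U := (univ : Finset (Option ι)).sigma fun o => X.filter fun x => ∀ i, o = some i → x i < l i
  have hU : U.card = X.card + ∑ i, (X.filter fun x => x i < l i).card := by
    simp only [U, card_sigma, Fintype.sum_option]
    simp
  have hs : ∀ x ∈ X, ∀ o, x + s o ∈ T := by
    intro x hx o
    cases o with
    | none => simpa [s] using (hX x hx).1
    | some j => exact (hX x hx).2 j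
  rw [← hU]
  calc U.card ≤ (univ : Finset (ZMod m)).card := by
        refine card_le_card_of_injOn (fun p => (wt g p.2 : ZMod m) - wt g (s p.1))
          (fun _ _ => by simp) ?_
        rintro ⟨o, x⟩ hp ⟨o', x'⟩ hp' h
        simp only [U, coe_sigma, Set.mem_sigma_iff, coe_univ, Set.mem_univ, coe_filter,
          Set.mem_ofPred_eq, true_and] at hp hp'
        simp only at h
        have h1 : x + s o' = x' + s o := by
          refine hinj _ (hs x hp.1 o') _ (hs x' hp'.1 o) ?_
          rw [← ZMod.natCast_eq_natCast_iff, wt_add, wt_add]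
          push_cast
          linear_combination h
        have h2 : o = o' := by
          cases o with
          | none =>
            cases o' with
            | none => rfl
            | some j =>
              have := congrFun h1 j
              have := hp'.2 j rfl
              simp [s] at *
              omega
          | some i =>
            by_contra hne
            have h3 := congrFun h1 i
            have h4 := hp.2 i rfl
            cases o' with
            | none =>
              simp [s] at h3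
              omega
            | some j =>
              have hij : i ≠ j := fun h => hne (by rw [h])
              simp [s, Pi.single_eq_of_ne hij] at h3
              omega
        subst h2
        rw [add_right_cancel h1]
    _ = m := by simp

end Pool.Agent.MP_96f5a9_co.H51

end MrgPart0

-- ======== part 1: formerly Pool.Agent.MP_96f5a9_co.h51.Core
section MrgPart1

/-!
The slab argument: an order ideal whose weights are distinct modulo its size and whose tops are
almost all close to the maximal weight has at most `card ι + 1` points.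
-/

set_option autoImplicit false

namespace Pool.Agent.MP_96f5a9_co.H51

open Finset Function

/-- Data for the slab argument at one scale. -/
structure Setup (ι : Type) [Fintype ι] [DecidableEq ι] where
  g : ι → ℕ
  T : Finset (ι → ℕ)
  m : ℕ
  M : ℕ
  L : ℕ
  w : ℕ
  hg : ∀ i, 0 < g i
  hT : ∀ x ∈ T, ∀ y, y ≤ x → y ∈ T
  hcard : T.card = m
  hm : 0 < m
  hinj : ∀ x ∈ T, ∀ y ∈ T, wt g x ≡ wt g y [MOD m] → x = y
  hM : ∀ x ∈ T, wt g x ≤ M
  hL : 1 ≤ L
  hw : 2 * L ≤ w
  hlo : 128 * ((Fintype.card ι + 1) * w) ≤ M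
  hhi : M < 512 * (Fintype.card ι + 1) * w

namespace Setup

variable {ι : Type} [Fintype ι] [DecidableEq ι] (C : Setup ι)

def tight (x : ι → ℕ) : Prop := ∀ i, C.M < wt C.g (top C.T i x) + C.L

def p (i : ι) : ℕ := (C.w + C.L - 1) / C.g i

def u (i : ι) : ℕ := C.w / C.g i

def long (x : ι → ℕ) (i : ι) : Prop := C.w + 2 * C.L + C.p i * C.g i ≤ x i * C.g i

def vl (x : ι → ℕ) (j : ι) : Prop :=
  C.w + 2 * C.L + C.p j * C.g j + C.u j * C.g j ≤ ht C.T j x * C.g j

lemma p_le (i : ι) : C.p i * C.g i < C.w + C.L := by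
  have := Nat.div_mul_le_self (C.w + C.L - 1) (C.g i)
  have := C.hL
  unfold p
  omega

lemma le_p (i : ι) {t : ℕ} (h : t * C.g i < C.w + C.L) : t ≤ C.p i := by
  unfold p
  rw [Nat.le_div_iff_mul_le (C.hg i)]
  omega

lemma u_le (i : ι) : C.u i * C.g i ≤ C.w := Nat.div_mul_le_self _ _

lemma lt_u (i : ι) : C.w < (C.u i + 1) * C.g i := by
  have := Nat.lt_mul_div_succ C.w (C.hg i)
  unfold u
  linarith

open Classical in
noncomputable def S1 : Finset (ι → ℕ) := C.T.filter fun x => C.M < wt C.g x + (C.w + C.L)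

open Classical in
noncomputable def S0 : Finset (ι → ℕ) := C.T.filter fun x => C.M < wt C.g x + (C.w + 2 * C.L)

open Classical in
noncomputable def N : Finset (ι → ℕ) := C.T.filter fun x => ¬ C.tight x

open Classical in
noncomputable def X : Finset (ι → ℕ) :=
  C.T.filter fun x => C.tight x ∧ wt C.g x + (C.w + 2 * C.L) ≤ C.M

open Classical in
noncomputable def S2 : Finset (ι → ℕ) :=
  C.S1.filter fun x => ∃ i j, i ≠ j ∧ C.long x i ∧ C.long x j

lemma step1 : C.X.card + ∑ i, (C.X.filter fun x => x i < C.p i + 1).card ≤ C.m := by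
  classical
  refine packing C.g C.T C.X C.m C.hm C.hinj (fun i => C.p i + 1) fun x hx => ?_
  simp only [X, mem_filter] at hx
  refine ⟨hx.1, fun j => ?_⟩
  have h1 : x + Pi.single j (C.p j + 1) = update x j (x j + (C.p j + 1)) := by
    funext i
    by_cases hi : i = j
    · subst hi; simp
    · simp [update_of_ne hi, Pi.single_eq_of_ne hi]
  rw [h1]
  refine update_mem C.hT j hx.1 ?_
  have h2 := wt_top C.g C.T j x
  have h3 := hx.2.1 j
  have h4 := C.p_le j
  have h5 := hx.2.2
  have h6 : (x j + C.p j) * C.g j < ht C.T j x * C.g j := by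
    rw [add_mul]; omega
  have := Nat.lt_of_mul_lt_mul_right h6
  omega

lemma step2 : C.m ≤ C.X.card + C.S0.card + C.N.card := by
  classical
  rw [← C.hcard]
  calc C.T.card ≤ (C.X ∪ C.S0 ∪ C.N).card := by
        refine card_le_card fun x hx => ?_
        simp only [X, S0, N, mem_union, mem_filter]
        by_cases h : C.tight x
        · by_cases h' : C.M < wt C.g x + (C.w + 2 * C.L)
          · exact Or.inl (Or.inr ⟨hx, h'⟩)
          · exact Or.inl (Or.inl ⟨hx, h, by omega⟩)
        · exact Or.inr ⟨hx, h⟩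
    _ ≤ _ := (card_union_le _ _).trans (Nat.add_le_add_right (card_union_le _ _) _)

open Classical in
lemma step3 (i : ι) : (C.S1.filter fun x => C.long x i).card ≤
    (C.X.filter fun x => x i < C.p i + 1).card + C.N.card := by
  have h := line_count (C.S1.filter fun x => C.long x i)
    ((C.X.filter fun x => x i < C.p i + 1) ∪ C.N) i (C.p i + 1) (C.p i + 1) ?_ ?_
  · exact (Nat.le_of_mul_le_mul_left h (Nat.succ_pos _)).trans (card_union_le _ _)
  · intro x _
    refine ⟨ht C.T i x - C.p i, fun t ht' => ?_⟩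
    simp only [S1, mem_filter] at ht'
    have h1 := le_ht i ht'.1.1
    have h2 := wt_top C.g C.T i (update x i t)
    have h3 := C.hM _ (top_mem i ht'.1.1)
    rw [ht_update, update_self] at h1 h2
    have h4 : (ht C.T i x - t) * C.g i < C.w + C.L := by
      rw [Nat.sub_mul]
      have := ht'.1.2
      have := C.hL
      omega
    have := C.le_p i h4
    omega
  · intro x hx
    refine ⟨0, fun t _ ht' => ?_⟩
    simp only [S1, mem_filter] at hx
    have h0 := hx.2
    unfold long at h0
    have h1 : C.p i < x i := by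
      refine Nat.lt_of_mul_lt_mul_right (a := C.g i) ?_
      have := C.hL
      omega
    have hmem : update x i t ∈ C.T := update_mem C.hT i hx.1.1 (by have := le_ht i hx.1.1; omega)
    simp only [X, N, mem_union, mem_filter, update_self]
    by_cases hti : C.tight (update x i t)
    · refine Or.inl ⟨⟨hmem, hti, ?_⟩, by omega⟩
      have h2 := wt_update C.g x i t
      have h3 := C.hM x hx.1.1
      have h4 : t * C.g i ≤ C.p i * C.g i := Nat.mul_le_mul_right _ (by omega)
      omega
    · exact Or.inr ⟨hmem, hti⟩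

lemma wt_le_of_low {x : ι → ℕ} (h : ∀ i, ¬ C.long x i) :
    wt C.g x ≤ 4 * (Fintype.card ι * C.w) := by
  calc wt C.g x ≤ ∑ _i : ι, 4 * C.w := by
        refine sum_le_sum fun i _ => ?_
        have h1 := h i
        have h2 := C.p_le i
        have h3 := C.hw
        unfold long at h1
        omega
    _ = _ := by simp; ring

open Classical in
lemma step4 : C.S1.card + C.S2.card ≤ ∑ i, (C.S1.filter fun x => C.long x i).card := by
  have h1 : ∑ i, (C.S1.filter fun x => C.long x i).card =
      ∑ x ∈ C.S1, (univ.filter fun i => C.long x i).card := by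
    simp only [card_filter]
    exact sum_comm
  rw [h1, S2, card_eq_sum_ones, card_filter, ← sum_add_distrib]
  refine sum_le_sum fun x hx => ?_
  split_ifs with h
  · obtain ⟨i, j, hij, hi, hj⟩ := h
    calc 1 + 1 = ({i, j} : Finset ι).card := by rw [card_pair hij]
      _ ≤ _ := card_le_card fun a ha => by
        simp only [mem_insert, mem_singleton] at ha
        rcases ha with rfl | rfl <;> simpa
  · rw [add_zero, one_le_card]
    by_contra hne
    have h2 : ∀ i, ¬ C.long x i := fun i hi => hne ⟨i, by simpa using hi⟩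
    have h3 := C.wt_le_of_low h2
    simp only [S1, mem_filter] at hx
    have h4 := C.hlo
    have h5 := C.hw
    have h6 := hx.2
    rw [add_mul] at h4
    omega

lemma S2_bound : C.S2.card + C.S1.card ≤ C.S0.card + (Fintype.card ι + 1) * C.N.card := by
  classical
  have h1 := C.step1
  have h2 := C.step2
  have h3 := sum_le_sum fun i (_ : i ∈ (univ : Finset ι)) => C.step3 i
  have h4 := C.step4
  rw [sum_add_distrib, sum_const, card_univ, smul_eq_mul] at h3
  rw [add_mul]
  omega

lemma step5 (B : Finset (ι → ℕ)) (j : ι) (c : ℕ)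
    (hB : ∀ x ∈ B, x ∈ C.T ∧ C.tight x ∧ C.vl x j ∧ ∃ i, i ≠ j ∧ C.long x i)
    (hc : ∀ x ∈ B, ∃ lo, ∀ t, update x j t ∈ B → lo ≤ t ∧ t < lo + c * (C.u j + 1)) :
    B.card ≤ c * C.S2.card := by
  classical
  have h := line_count B C.S2 j (c * (C.u j + 1)) (C.u j + 1) hc ?_
  · have h' : (C.u j + 1) * B.card ≤ (C.u j + 1) * (c * C.S2.card) := by
      calc _ ≤ _ := h
        _ = _ := by ring
    exact Nat.le_of_mul_le_mul_left h' (Nat.succ_pos _)
  · intro x hx
    obtain ⟨hxT, hti, hvl, i, hij, hi⟩ := hB x hx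
    unfold vl at hvl
    have h1 : C.u j ≤ ht C.T j x := by
      refine Nat.le_of_mul_le_mul_right (c := C.g j) ?_ (C.hg j)
      omega
    refine ⟨ht C.T j x - C.u j, fun t h2 h3 => ?_⟩
    have h4 : ht C.T j x * C.g j ≤ t * C.g j + C.u j * C.g j := by
      rw [← add_mul]
      exact Nat.mul_le_mul_right _ (by omega)
    simp only [S2, S1, mem_filter]
    refine ⟨⟨update_mem C.hT j hxT (by omega), ?_⟩, i, j, hij, ?_, ?_⟩
    · have h5 := wt_update C.g x j t
      have h6 := wt_top C.g C.T j x
      have h7 := hti j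
      have h8 := C.u_le j
      omega
    · unfold long at hi ⊢
      rwa [update_of_ne hij]
    · unfold long
      rw [update_self]
      omega

lemma shallow_of_not_vl {x : ι → ℕ} (hti : C.tight x) {j : ι} (h : ¬ C.vl x j) :
    C.M < wt C.g x + 6 * C.w ∧ ht C.T j x * C.g j < 5 * C.w := by
  unfold vl at h
  have h1 := C.p_le j
  have h2 := C.u_le j
  have h3 := C.hw
  have h4 := wt_top C.g C.T j x
  have h5 := hti j
  omega

open Classical in
noncomputable def C1 : Finset (ι → ℕ) :=
  C.T.filter fun x => C.tight x ∧ ∃ i j, i ≠ j ∧ C.long x i ∧ C.vl x j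

lemma C1_bound (hk : 2 ≤ Fintype.card ι) :
    C.C1.card ≤ 1030 * (Fintype.card ι + 1) * C.S2.card := by
  classical
  obtain ⟨j1, j2, hj⟩ := Fintype.exists_pair_of_one_lt_card (α := ι) (by omega)
  let D : ι → Finset (ι → ℕ) := fun j => C.T.filter fun x =>
    C.tight x ∧ C.vl x j ∧ ∃ i, i ≠ j ∧ C.long x i
  let E : ι → Finset (ι → ℕ) := fun j => C.T.filter fun x =>
    C.tight x ∧ C.vl x j ∧ (∃ i, i ≠ j ∧ C.long x i) ∧ C.M < wt C.g x + 6 * C.w
  have hD : ∀ j, (D j).card ≤ 512 * (Fintype.card ι + 1) * C.S2.card := by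
    intro j
    refine C.step5 (D j) j _ (fun x hx => by simpa [D] using hx) fun x _ => ⟨0, fun t ht' => ?_⟩
    simp only [D, mem_filter] at ht'
    refine ⟨Nat.zero_le _, ?_⟩
    have h1 := coord_le_wt C.g (update x j t) j
    have h2 := C.hM _ ht'.1
    have h3 := C.hhi
    have h4 := C.lt_u j
    rw [update_self] at h1
    rw [zero_add]
    refine Nat.lt_of_mul_lt_mul_right (a := C.g j) ?_
    have h5 : 512 * (Fintype.card ι + 1) * C.w ≤
        512 * (Fintype.card ι + 1) * ((C.u j + 1) * C.g j) := Nat.mul_le_mul_left _ h4.le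
    rw [mul_assoc _ (C.u j + 1)]
    omega
  have hE : ∀ j, (E j).card ≤ 6 * C.S2.card := by
    intro j
    refine C.step5 (E j) j _ (fun x hx => ?_) fun x _ =>
      ⟨ht C.T j x + 1 - 6 * (C.u j + 1), fun t ht' => ?_⟩
    · simp only [E, mem_filter] at hx
      exact ⟨hx.1, hx.2.1, hx.2.2.1, hx.2.2.2.1⟩
    simp only [E, mem_filter] at ht'
    have h1 := le_ht j ht'.1
    have h2 := wt_top C.g C.T j (update x j t)
    have h3 := C.hM _ (top_mem j ht'.1)
    have h4 := C.lt_u j
    have h5 := ht'.2.2.2.2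
    rw [ht_update, update_self] at h1 h2
    have h6 : ht C.T j x < t + 6 * (C.u j + 1) := by
      refine Nat.lt_of_mul_lt_mul_right (a := C.g j) ?_
      rw [add_mul, mul_assoc]
      omega
    omega
  calc C.C1.card ≤ (D j1 ∪ D j2 ∪ univ.biUnion E).card := by
        refine card_le_card fun x hx => ?_
        simp only [C1, mem_filter] at hx
        obtain ⟨hxT, hti, i, j, hij, hi, hj'⟩ := hx
        simp only [D, E, mem_union, mem_filter, mem_biUnion, mem_univ, true_and]
        by_cases hs : C.M < wt C.g x + 6 * C.w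
        · exact Or.inr ⟨j, hxT, hti, hj', ⟨i, hij, hi⟩, hs⟩
        · have hv : ∀ j, C.vl x j := fun j => by
            by_contra h
            exact hs (C.shallow_of_not_vl hti h).1
          by_cases h1 : i = j1
          · exact Or.inl (Or.inr ⟨hxT, hti, hv _, i, h1 ▸ hj, hi⟩)
          · exact Or.inl (Or.inl ⟨hxT, hti, hv _, i, h1, hi⟩)
    _ ≤ (D j1).card + (D j2).card + ∑ j, (E j).card :=
        (card_union_le _ _).trans (Nat.add_le_add (card_union_le _ _) card_biUnion_le)
    _ ≤ 512 * (Fintype.card ι + 1) * C.S2.card + 512 * (Fintype.card ι + 1) * C.S2.card +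
          ∑ _j : ι, 6 * C.S2.card :=
        Nat.add_le_add (Nat.add_le_add (hD _) (hD _)) (sum_le_sum fun j _ => hE j)
    _ ≤ _ := by
        simp only [sum_const, card_univ, smul_eq_mul]
        nlinarith

/-- Sparse sets along long lines. -/
lemma sparse (B : Finset (ι → ℕ)) (j : ι) (a r : ℕ) (ha : C.g j ≤ a)
    (hB : ∀ x ∈ B, x ∈ C.T ∧ 2 * r * a ≤ ht C.T j x * C.g j)
    (hc : ∀ x ∈ B, ∃ lo, ∀ t, update x j t ∈ B → lo ≤ t ∧ t < lo + (a / C.g j + 1)) :
    r * B.card ≤ C.m := by
  have h := line_count B C.T j (a / C.g j + 1) (r * (a / C.g j + 1)) hc ?_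
  · have h' : (a / C.g j + 1) * (r * B.card) ≤ (a / C.g j + 1) * C.m := by
      rw [← C.hcard]
      calc _ = _ := by ring
        _ ≤ _ := h
    exact Nat.le_of_mul_le_mul_left h' (Nat.succ_pos _)
  · intro x hx
    refine ⟨0, fun t _ ht' => update_mem C.hT j (hB x hx).1 ?_⟩
    have h1 : 1 ≤ a / C.g j := (Nat.le_div_iff_mul_le (C.hg j)).2 (by omega)
    have h2 := Nat.div_mul_le_self a (C.g j)
    have h3 := (hB x hx).2
    have h4 : 2 * r * (a / C.g j) ≤ ht C.T j x := by
      refine Nat.le_of_mul_le_mul_right (c := C.g j) ?_ (C.hg j)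
      calc 2 * r * (a / C.g j) * C.g j = 2 * r * (a / C.g j * C.g j) := by ring
        _ ≤ 2 * r * a := Nat.mul_le_mul_left _ h2
        _ ≤ _ := h3
    have h5 : r * (a / C.g j + 1) ≤ 2 * r * (a / C.g j) := by nlinarith
    omega

open Classical in
noncomputable def LT : Finset (ι → ℕ) := C.T.filter fun x => C.tight x ∧ ∀ i, ¬ C.long x i

lemma LT_bound : C.LT.card ≤ 1 ∨ 8 * (Fintype.card ι + 1) * C.LT.card ≤ C.m := by
  classical
  by_cases h : ∃ j, C.g j < C.w + 2 * C.L
  · obtain ⟨j, hj⟩ := h
    have hw := C.hw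
    refine Or.inr (C.sparse C.LT j (4 * C.w) _ (by omega) (fun x hx => ?_)
      fun x _ => ⟨0, fun t ht' => ⟨Nat.zero_le _, ?_⟩⟩)
    · simp only [LT, mem_filter] at hx
      refine ⟨hx.1, ?_⟩
      have h1 := C.wt_le_of_low hx.2.2
      have h2 := wt_top C.g C.T j x
      have h3 := hx.2.1 j
      have h4 := C.hlo
      have h5 : 2 * (8 * (Fintype.card ι + 1)) * (4 * C.w) =
          64 * ((Fintype.card ι + 1) * C.w) := by ring
      rw [h5]
      rw [add_mul] at h4 ⊢
      omega
    · simp only [LT, mem_filter] at ht'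
      have h1 := ht'.2.2 j
      have h2 := C.p_le j
      unfold long at h1
      rw [update_self] at h1
      have : t ≤ 4 * C.w / C.g j := (Nat.le_div_iff_mul_le (C.hg j)).2 (by omega)
      omega
  · refine Or.inl (card_le_one.2 fun x hx y hy => ?_)
    have key : ∀ x ∈ C.LT, x = 0 := by
      intro x hx
      simp only [LT, mem_filter] at hx
      funext i
      have h1 := hx.2.2 i
      have h2 : C.w + 2 * C.L ≤ C.g i := by
        by_contra h3
        exact h ⟨i, by omega⟩
      have h3 : C.p i = 0 := by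
        unfold p
        have := C.hL
        exact Nat.div_eq_of_lt (by omega)
      unfold long at h1
      rw [h3] at h1
      by_contra h4
      have : 1 * C.g i ≤ x i * C.g i :=
        Nat.mul_le_mul_right _ (Nat.one_le_iff_ne_zero.2 (by simpa using h4))
      omega
    rw [key x hx, key y hy]

open Classical in
noncomputable def C2 (i : ι) : Finset (ι → ℕ) :=
  C.T.filter fun x => C.tight x ∧ C.long x i ∧ ∀ a b, a ≠ b → C.long x a → ¬ C.vl x b

lemma shallow_of_not_C1 (hk : 2 ≤ Fintype.card ι) {x : ι → ℕ} (hti : C.tight x) {i : ι}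
    (hi : C.long x i) (h : ∀ a b, a ≠ b → C.long x a → ¬ C.vl x b) :
    C.M < wt C.g x + 6 * C.w := by
  obtain ⟨j, hj⟩ := Fintype.exists_ne_of_one_lt_card (α := ι) (by omega) i
  exact (C.shallow_of_not_vl hti (h i j hj.symm hi)).1

lemma C2_big (hk : 2 ≤ Fintype.card ι) {i : ι} {x : ι → ℕ} (hx : x ∈ C.C2 i) :
    96 * ((Fintype.card ι + 1) * C.w) ≤ x i * C.g i := by
  classical
  simp only [C2, mem_filter] at hx
  obtain ⟨hxT, hti, hi, h⟩ := hx
  have h1 := C.shallow_of_not_C1 hk hti hi h
  have h2 : wt C.g x ≤ x i * C.g i + 5 * (Fintype.card ι * C.w) := by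
    unfold wt
    rw [← add_sum_erase _ _ (mem_univ i)]
    refine Nat.add_le_add_left ?_ _
    calc ∑ j ∈ univ.erase i, x j * C.g j ≤ ∑ _j ∈ univ.erase i, 5 * C.w := by
          refine sum_le_sum fun j hj => ?_
          have h3 := (C.shallow_of_not_vl hti (h i j (ne_of_mem_erase hj).symm hi)).2
          have h4 := Nat.mul_le_mul_right (C.g j) (le_ht j hxT)
          omega
      _ ≤ ∑ _j : ι, 5 * C.w := sum_le_sum_of_subset (erase_subset _ _)
      _ = _ := by simp; ring
  have h4 := C.hlo
  rw [add_mul] at h4 ⊢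
  omega

lemma C2_unique (hk : 2 ≤ Fintype.card ι) {i j : ι} {x : ι → ℕ} (hx : x ∈ C.C2 i) (hij : j ≠ i) :
    ¬ C.long x j := by
  classical
  intro hj
  have h1 := C.C2_big hk hx
  simp only [C2, mem_filter] at hx
  obtain ⟨hxT, hti, -, h⟩ := hx
  have h3 := (C.shallow_of_not_vl hti (h j i hij hj)).2
  have h4 := Nat.mul_le_mul_right (C.g i) (le_ht i hxT)
  rw [add_mul] at h1
  omega

lemma C2_light (hk : 2 ≤ Fintype.card ι) {i : ι} (hi : C.g i ≤ 6 * C.w) :
    8 * (Fintype.card ι + 1) * (C.C2 i).card ≤ C.m := by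
  classical
  refine C.sparse (C.C2 i) i (6 * C.w) _ hi (fun x hx => ?_)
    fun x _ => ⟨ht C.T i x - 6 * C.w / C.g i, fun t ht' => ?_⟩
  · have h1 := C.C2_big hk hx
    simp only [C2, mem_filter] at hx
    refine ⟨hx.1, ?_⟩
    have h4 := Nat.mul_le_mul_right (C.g i) (le_ht i hx.1)
    have h5 : 2 * (8 * (Fintype.card ι + 1)) * (6 * C.w) =
        96 * ((Fintype.card ι + 1) * C.w) := by ring
    omega
  · simp only [C2, mem_filter] at ht'
    have h0 := C.shallow_of_not_C1 hk ht'.2.1 ht'.2.2.1 ht'.2.2.2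
    have h1 := le_ht i ht'.1
    have h2 := wt_top C.g C.T i (update x i t)
    have h3 := C.hM _ (top_mem i ht'.1)
    rw [ht_update, update_self] at h1 h2
    have h4 : ht C.T i x - t ≤ 6 * C.w / C.g i := by
      rw [Nat.le_div_iff_mul_le (C.hg i), Nat.sub_mul]
      omega
    omega

open Classical in
lemma C2_heavy (hk : 2 ≤ Fintype.card ι) {i : ι} (hi : 6 * C.w < C.g i) :
    (C.C2 i).card ≤ C.N.card + C.LT.card +
      (C.C1.filter fun x => C.long x i ∧ ∀ j, j ≠ i → ¬ C.long x j).card := by
  refine le_trans ?_ ((card_union_le _ _).trans (Nat.add_le_add_right (card_union_le _ _) _))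
  have hpos : ∀ x ∈ C.C2 i, 1 ≤ x i := by
    intro x hx
    simp only [C2, mem_filter] at hx
    have h1 := hx.2.2.1
    have h2 := C.hL
    unfold long at h1
    by_contra h3
    have h4 : x i = 0 := by omega
    rw [h4] at h1
    omega
  refine card_le_card_of_injOn (fun x => update x i (x i - 1)) (fun x hx => ?_) ?_
  · rw [mem_coe] at hx
    have h1 := hpos x hx
    have hu := fun j hj => C.C2_unique hk (j := j) hx hj
    simp only [C2, mem_filter] at hx
    obtain ⟨hxT, -, -, -⟩ := hx
    have hmem : update x i (x i - 1) ∈ C.T :=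
      update_mem C.hT i hxT (by have := le_ht i hxT; omega)
    have hu' : ∀ j, j ≠ i → ¬ C.long (update x i (x i - 1)) j := by
      intro j hj
      have := hu j hj
      unfold long at this ⊢
      rwa [update_of_ne hj]
    simp only [coe_union, Set.mem_union, mem_coe, N, LT, C1, mem_filter]
    by_cases hti : C.tight (update x i (x i - 1))
    swap
    · exact Or.inl (Or.inl ⟨hmem, hti⟩)
    by_cases hl : C.long (update x i (x i - 1)) i
    swap
    · refine Or.inl (Or.inr ⟨hmem, hti, fun j => ?_⟩)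
      by_cases hj : j = i
      · rwa [hj]
      · exact hu' j hj
    refine Or.inr ⟨⟨hmem, hti, ?_⟩, hl, hu'⟩
    by_contra hne
    have h2 := C.shallow_of_not_C1 hk hti hl fun a b hab ha hb => hne ⟨a, b, hab, ha, hb⟩
    have h3 := wt_update C.g x i (x i - 1)
    have h4 := C.hM x hxT
    have h5 : x i * C.g i = (x i - 1) * C.g i + C.g i := by
      conv_lhs => rw [← Nat.sub_add_cancel h1]
      ring
    omega
  · intro x hx y hy h
    have h1 := hpos x hx
    have h2 := hpos y hy
    funext j
    have h3 := congrFun h j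
    by_cases hj : j = i
    · subst hj
      simp only [update_self] at h3
      omega
    · simpa [update_of_ne hj] using h3

/-- The main counting inequality at one scale. -/
lemma main_count (hk : 2 ≤ Fintype.card ι) :
    ∃ c : ℕ, 8 * (Fintype.card ι + 1) * c ≤ C.m ∧
      C.m ≤ (Fintype.card ι + 1) * C.N.card + (Fintype.card ι + 1) * C.LT.card +
        2 * C.C1.card + Fintype.card ι * c := by
  classical
  let F : ι → Finset (ι → ℕ) := fun i =>
    C.C1.filter fun x => C.long x i ∧ ∀ j, j ≠ i → ¬ C.long x j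
  have hF : ∑ i, (F i).card ≤ C.C1.card := by
    rw [← card_biUnion]
    · exact card_le_card (biUnion_subset.2 fun i _ => filter_subset _ _)
    · intro i _ j _ hij
      refine disjoint_left.2 fun x hx hx' => ?_
      simp only [F, mem_filter] at hx hx'
      exact hx'.2.2 i hij hx.2.1
  refine ⟨C.m / (8 * (Fintype.card ι + 1)), Nat.mul_div_le _ _, ?_⟩
  have h1 : ∀ i, (C.C2 i).card ≤
      C.N.card + C.LT.card + (F i).card + C.m / (8 * (Fintype.card ι + 1)) := by
    intro i
    by_cases hi : C.g i ≤ 6 * C.w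
    · have h2 : (C.C2 i).card ≤ C.m / (8 * (Fintype.card ι + 1)) := by
        rw [Nat.le_div_iff_mul_le (by positivity), mul_comm]
        exact C.C2_light hk hi
      omega
    · exact (C.C2_heavy hk (by omega)).trans (Nat.le_add_right _ _)
  have h2 := sum_le_sum fun i (_ : i ∈ (univ : Finset ι)) => h1 i
  simp only [sum_add_distrib, sum_const, card_univ, smul_eq_mul] at h2
  have h3 : C.m ≤ C.N.card + C.LT.card + C.C1.card + ∑ i, (C.C2 i).card := by
    rw [← C.hcard]
    calc C.T.card ≤ (C.N ∪ C.LT ∪ C.C1 ∪ univ.biUnion C.C2).card := by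
          refine card_le_card fun x hx => ?_
          simp only [N, LT, C1, C2, mem_union, mem_filter, mem_biUnion, mem_univ, true_and]
          by_cases hti : C.tight x
          swap
          · exact Or.inl (Or.inl (Or.inl ⟨hx, hti⟩))
          by_cases hl : ∀ i, ¬ C.long x i
          · exact Or.inl (Or.inl (Or.inr ⟨hx, hti, hl⟩))
          by_cases hc : ∃ i j, i ≠ j ∧ C.long x i ∧ C.vl x j
          · exact Or.inl (Or.inr ⟨hx, hti, hc⟩)
          push Not at hl
          obtain ⟨i, hi⟩ := hl
          exact Or.inr ⟨i, hx, hti, hi, fun a b hab ha hb => hc ⟨a, b, hab, ha, hb⟩⟩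
      _ ≤ _ := (card_union_le _ _).trans (Nat.add_le_add ((card_union_le _ _).trans
          (Nat.add_le_add_right (card_union_le _ _) _)) card_biUnion_le)
  rw [add_mul, add_mul]
  omega

lemma N_bound : C.N.card * C.L ≤ ∑ x ∈ C.T, ∑ i, (C.M - wt C.g (top C.T i x)) := by
  classical
  calc C.N.card * C.L = ∑ _x ∈ C.N, C.L := by simp
    _ ≤ ∑ x ∈ C.N, ∑ i, (C.M - wt C.g (top C.T i x)) := by
        refine sum_le_sum fun x hx => ?_
        simp only [N, mem_filter, tight] at hx
        obtain ⟨-, hx⟩ := hx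
        push Not at hx
        obtain ⟨i, hi⟩ := hx
        calc C.L ≤ C.M - wt C.g (top C.T i x) := by omega
          _ ≤ _ := single_le_sum (f := fun i => C.M - wt C.g (top C.T i x))
              (fun _ _ => Nat.zero_le _) (mem_univ i)
    _ ≤ _ := sum_le_sum_of_subset (filter_subset _ _)

end Setup

end Pool.Agent.MP_96f5a9_co.H51

end MrgPart1

-- ======== part 2: formerly Pool.Agent.MP_96f5a9_co.h51.Scale
section MrgPart2

/-!
Choice of the scale and the final arithmetic of the slab argument.
-/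

set_option autoImplicit false

namespace Pool.Agent.MP_96f5a9_co.H51

open Finset Function

lemma exists_small_step (f : ℕ → ℕ) (t0 m : ℕ) (ht0 : 0 < t0) (hf : f t0 ≤ m) :
    ∃ t < t0, t0 * f (t + 1) ≤ t0 * f t + m := by
  by_contra h
  push Not at h
  have key : ∀ n ≤ t0, n * (m + 1) ≤ t0 * f n := by
    intro n
    induction n with
    | zero => simp
    | succ n ih =>
      intro hn
      have h1 := ih (by omega)
      have h2 := h n (by omega)
      rw [add_mul]
      omega
  have h1 := key t0 le_rfl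
  have h2 := Nat.mul_le_mul_left t0 hf
  rw [mul_add] at h1
  omega

lemma final_arith (k m n s s2 c1 lt c : ℕ) (hm : 0 < m)
    (hn : 2 ^ 14 * (k + 1) ^ 3 * n ≤ k * m) (hs : 2 ^ 14 * (k + 1) * s ≤ m)
    (hs2 : s2 ≤ s + (k + 1) * n) (hc1 : c1 ≤ 1030 * (k + 1) * s2)
    (hlt : lt ≤ 1 ∨ 8 * (k + 1) * lt ≤ m) (hc : 8 * (k + 1) * c ≤ m)
    (h : m ≤ (k + 1) * n + (k + 1) * lt + 2 * c1 + k * c) : m ≤ k + 1 := by
  set e := k + 1 with he
  have he0 : 0 < e := by omega
  have ha : 16384 * (e * (e * n)) ≤ m := by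
    refine Nat.le_of_mul_le_mul_left ?_ he0
    calc e * (16384 * (e * (e * n))) = 2 ^ 14 * e ^ 3 * n := by ring
      _ ≤ k * m := hn
      _ ≤ e * m := Nat.mul_le_mul_right _ (by omega)
  have hb : 16384 * (e * s) ≤ m := by
    calc _ = 2 ^ 14 * e * s := by ring
      _ ≤ m := hs
  have hd : 8 * (e * c) ≤ m := by rwa [← mul_assoc]
  have h1 : e * n ≤ e * (e * n) := Nat.le_mul_of_pos_left _ he0
  have h2 : c1 ≤ 1030 * (e * s + e * (e * n)) := by
    calc c1 ≤ 1030 * e * s2 := hc1
      _ ≤ 1030 * e * (s + e * n) := Nat.mul_le_mul_left _ hs2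
      _ = _ := by ring
  have h3 : k * c ≤ e * c := Nat.mul_le_mul_right _ (by omega)
  rcases hlt with hlt | hlt
  · have h4 : e * lt ≤ e := by
      calc e * lt ≤ e * 1 := Nat.mul_le_mul_left _ hlt
        _ = e := mul_one _
    have h5 : m < 8 * e := by omega
    have hc0 : c = 0 := by
      by_contra h0
      have : e ≤ e * c := Nat.le_mul_of_pos_right _ (by omega)
      omega
    have hs0 : s = 0 := by
      by_contra h0
      have : e ≤ e * s := Nat.le_mul_of_pos_right _ (by omega)
      omega
    have hn0 : n = 0 := by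
      by_contra h0
      have : e ≤ e * n := Nat.le_mul_of_pos_right _ (by omega)
      omega
    subst hc0 hs0 hn0
    simp only [mul_zero, add_zero] at h h2
    omega
  · rw [mul_assoc] at hlt
    omega

variable {ι : Type} [Fintype ι] [DecidableEq ι]

/-- If the weight bound `M` is large against the size `m`, the tops leave a large slack, unless
`m ≤ card ι + 1`. -/
theorem core (g : ι → ℕ) (T : Finset (ι → ℕ)) (m M : ℕ) (hg : ∀ i, 0 < g i)
    (hT : ∀ x ∈ T, ∀ y, y ≤ x → y ∈ T) (hcard : T.card = m) (hm : 0 < m)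
    (hinj : ∀ x ∈ T, ∀ y ∈ T, wt g x ≡ wt g y [MOD m] → x = y) (hM : ∀ x ∈ T, wt g x ≤ M)
    (hk : 2 ≤ Fintype.card ι) (hQ : 2 ^ 36 * (Fintype.card ι + 1) ^ 5 * m ≤ M)
    (hs : ∑ x ∈ T, ∑ i, (M - wt g (top T i x)) ≤ Fintype.card ι * m ^ 2) :
    m ≤ Fintype.card ι + 1 := by
  classical
  set k := Fintype.card ι with hkdef
  set t0 := 2 ^ 14 * (k + 1) with ht0
  have ht0pos : 0 < t0 := by positivity
  set L := M / (256 * (k + 1) * t0) with hL
  have hL1 : 2 ^ 14 * (k + 1) ^ 3 * m ≤ L := by
    rw [hL, Nat.le_div_iff_mul_le (by positivity)]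
    calc _ = 2 ^ 36 * (k + 1) ^ 5 * m := by rw [ht0]; ring
      _ ≤ M := hQ
  have hL2 : 1 ≤ L := le_trans (Nat.one_le_iff_ne_zero.2 (by positivity)) hL1
  have hL3 : L * (256 * (k + 1) * t0) ≤ M := Nat.div_mul_le_self _ _
  have hL4 : M < (256 * (k + 1) * t0) * (L + 1) := Nat.lt_mul_div_succ _ (by positivity)
  obtain ⟨t, ht, hstep⟩ := exists_small_step
    (fun t => (T.filter fun x => M < wt g x + (t0 * L + t * L + L)).card) t0 m ht0pos
    (by rw [← hcard]; exact card_filter_le _ _)
  let C : Setup ι :=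
    { g := g, T := T, m := m, M := M, L := L, w := t0 * L + t * L
      hg := hg, hT := hT, hcard := hcard, hm := hm, hinj := hinj, hM := hM, hL := hL2
      hw := by
        have : 2 * L ≤ t0 * L := Nat.mul_le_mul_right _ (by omega)
        omega
      hlo := by
        have h1 : t * L ≤ t0 * L := Nat.mul_le_mul_right _ ht.le
        calc 128 * ((k + 1) * (t0 * L + t * L)) ≤ 128 * ((k + 1) * (t0 * L + t0 * L)) := by
              gcongr
          _ = L * (256 * (k + 1) * t0) := by ring
          _ ≤ M := hL3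
      hhi := by
        calc M < (256 * (k + 1) * t0) * (L + 1) := hL4
          _ ≤ (256 * (k + 1) * t0) * (L + L) := by gcongr
          _ = 512 * (k + 1) * (t0 * L) := by ring
          _ ≤ 512 * (k + 1) * (t0 * L + t * L) := by gcongr; omega }
  have e1 : C.S1.card = (T.filter fun x => M < wt g x + (t0 * L + t * L + L)).card := by
    unfold Setup.S1
    congr
  have e0 : C.S0.card = (T.filter fun x => M < wt g x + (t0 * L + (t + 1) * L + L)).card := by
    unfold Setup.S0
    congr 1
    refine filter_congr fun x _ => ?_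
    have : C.w + 2 * C.L = t0 * L + (t + 1) * L + L := by
      show t0 * L + t * L + 2 * L = _
      ring
    rw [this]
  rw [← e1, ← e0] at hstep
  obtain ⟨c, hc, hmain⟩ := C.main_count hk
  have hN : C.N.card * L ≤ k * m ^ 2 := C.N_bound.trans hs
  have hS2 := C.S2_bound
  refine final_arith k m C.N.card (C.S0.card - C.S1.card) C.S2.card C.C1.card C.LT.card c hm
    ?_ ?_ ?_ (C.C1_bound hk) C.LT_bound hc hmain
  · refine Nat.le_of_mul_le_mul_right (c := m) ?_ hm
    calc 2 ^ 14 * (k + 1) ^ 3 * C.N.card * m = C.N.card * (2 ^ 14 * (k + 1) ^ 3 * m) := by ring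
      _ ≤ C.N.card * L := Nat.mul_le_mul_left _ hL1
      _ ≤ k * m ^ 2 := hN
      _ = _ := by ring
  · rw [← ht0, Nat.mul_sub]
    omega
  · rw [← hkdef] at hS2
    omega

end Pool.Agent.MP_96f5a9_co.H51

end MrgPart2

-- ======== part 3: formerly Pool.Agent.MP_96f5a9_co.h51.Bridge
section MrgPart3

/-!
From a numerical semigroup to the order ideal of least factorizations of its Apery elements.
-/

set_option autoImplicit false

namespace Pool.Agent.MP_96f5a9_co.H51

open Finset Function

section Ideal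

variable {ι : Type} [Fintype ι] [LinearOrder ι]

/-- The monomial order: weight first, then lexicographic. -/
def key (g x : ι → ℕ) : ℕ ×ₗ Lex (ι → ℕ) := toLex (wt g x, toLex x)

lemma key_add (g x y : ι → ℕ) : key g (x + y) = key g x + key g y := by
  unfold key
  rw [wt_add]
  rfl

lemma exists_ideal (g : ι → ℕ) (m : ℕ) :
    ∃ T : Finset (ι → ℕ), 0 < m → (∀ x ∈ T, ∀ y, y ≤ x → y ∈ T) ∧
      (∀ x ∈ T, ∀ y ∈ T, wt g x ≡ wt g y [MOD m] → x = y) ∧
      ∀ y, ∃ x ∈ T, wt g x ≡ wt g y [MOD m] ∧ wt g x ≤ wt g y := by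
  by_cases hm : 0 < m
  swap
  · exact ⟨∅, fun h => absurd h hm⟩
  let A : Set (ι → ℕ) := {x | ∀ y, wt g y ≡ wt g x [MOD m] → key g x ≤ key g y}
  have hinj : ∀ x ∈ A, ∀ y ∈ A, wt g x ≡ wt g y [MOD m] → x = y := by
    intro x hx y hy h
    have h1 := le_antisymm (hx y h.symm) (hy x h)
    have h2 := congrArg (fun p => ofLex (ofLex p).2) h1
    simpa [key] using h2
  have hfin : A.Finite := by
    refine Set.Finite.of_injOn (f := fun x => wt g x % m) (t := Set.Iio m) ?_ ?_ (Set.finite_Iio m)
    · intro x _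
      exact Nat.mod_lt _ hm
    · intro x hx y hy h
      exact hinj x hx y hy h
  refine ⟨hfin.toFinset, fun _ => ⟨?_, ?_, ?_⟩⟩
  · intro x hx y hyx
    rw [Set.Finite.mem_toFinset] at hx ⊢
    obtain ⟨u, rfl⟩ : ∃ u, x = y + u := ⟨x - y, (add_tsub_cancel_of_le hyx).symm⟩
    intro z hz
    have h1 := hx (z + u) (by rw [wt_add, wt_add]; exact hz.add_right _)
    rw [key_add, key_add] at h1
    exact le_of_add_le_add_right h1
  · intro x hx y hy
    rw [Set.Finite.mem_toFinset] at hx hy
    exact hinj x hx y hy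
  · intro y
    let B : Set (ι → ℕ) := {z | wt g z ≡ wt g y [MOD m]}
    have hB : B.Nonempty := ⟨y, Nat.ModEq.refl _⟩
    have hx : argminOn (key g) B hB ∈ B := argminOn_mem _ _ _
    refine ⟨argminOn (key g) B hB, ?_, hx, ?_⟩
    · rw [Set.Finite.mem_toFinset]
      intro z hz
      exact argminOn_le (key g) B (a := z) (hz.trans hx)
    · have h1 := argminOn_le (key g) B (a := y) (Nat.ModEq.refl _)
      unfold key at h1
      rw [Prod.Lex.toLex_le_toLex] at h1
      rcases h1 with h1 | h1
      · exact h1.le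
      · exact h1.1.le

end Ideal

lemma sum_mod_le {α : Type} (T : Finset α) (m : ℕ) (hm : 0 < m) (f : α → ℕ)
    (hf : ∀ x ∈ T, ∀ y ∈ T, f x % m = f y % m → x = y) :
    (∑ x ∈ T, f x % m) * 2 ≤ m * (m - 1) := by
  classical
  rw [← sum_range_id_mul_two, ← sum_image (g := fun x => f x % m) (f := fun r => r) hf]
  refine Nat.mul_le_mul_right _ (sum_le_sum_of_subset fun r hr => ?_)
  obtain ⟨x, -, rfl⟩ := mem_image.1 hr
  exact mem_range.2 (Nat.mod_lt _ hm)

/-- The abstract Wilf inequality for an order ideal with distinct weights modulo its size. -/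
theorem wilf_ideal {ι : Type} [Fintype ι] [DecidableEq ι] (g : ι → ℕ) (T : Finset (ι → ℕ))
    (m F : ℕ) (hm : 0 < m) (hg : ∀ i, m ≤ g i)
    (hT : ∀ x ∈ T, ∀ y, y ≤ x → y ∈ T) (hcard : T.card = m)
    (hinj : ∀ x ∈ T, ∀ y ∈ T, wt g x ≡ wt g y [MOD m] → x = y) (hM : ∀ x ∈ T, wt g x ≤ F + m)
    (hbig : 2 ^ 36 * (Fintype.card ι + 1) ^ 5 * m ≤ F ∨
      (2 ^ 36 * (Fintype.card ι + 1) ^ 5) ^ (Fintype.card ι + 1) ≤ m) :
    F + 1 ≤ (Fintype.card ι + 1) * ∑ x ∈ T, (F + m - wt g x) / m := by
  classical
  set k := Fintype.card ι with hk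
  set M := F + m with hMdef
  set n := ∑ x ∈ T, (M - wt g x) / m with hn
  by_cases hsmall : m ≤ k + 1
  · obtain ⟨x0, hx0⟩ : T.Nonempty := card_pos.1 (by omega)
    have h0 : (0 : ι → ℕ) ∈ T := hT x0 hx0 0 bot_le
    have h1 : (M - wt g 0) / m ≤ n :=
      single_le_sum (f := fun x => (M - wt g x) / m) (fun _ _ => Nat.zero_le _) h0
    have h2 : wt g 0 = 0 := by simp [wt]
    rw [h2, Nat.sub_zero] at h1
    have h3 := Nat.lt_mul_div_succ M hm
    have h4 : m * (M / m) ≤ (k + 1) * n := Nat.mul_le_mul hsmall h1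
    rw [mul_add] at h3
    omega
  have hk0 : k ≠ 0 := by
    intro h
    have : IsEmpty ι := Fintype.card_eq_zero_iff.1 h
    have : T.card ≤ 1 := card_le_one.2 fun x _ y _ => Subsingleton.elim x y
    omega
  have hQ : 2 ^ 36 * (k + 1) ^ 5 * m ≤ M := by
    rcases hbig with h | h
    · omega
    by_contra hne
    set B := 2 ^ 36 * (k + 1) ^ 5 with hB
    have hB1 : 1 < B := by
      have : 1 ≤ (k + 1) ^ 5 := Nat.one_le_pow _ _ (by omega)
      omega
    have h1 : T.card ≤ (Fintype.piFinset fun _ : ι => range B).card := by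
      refine card_le_card fun x hx => ?_
      simp only [Fintype.mem_piFinset, mem_range]
      intro i
      have h2 := coord_le_wt g x i
      have h3 := hM x hx
      have h4 : x i * m ≤ x i * g i := Nat.mul_le_mul_left _ (hg i)
      refine Nat.lt_of_mul_lt_mul_right (a := m) ?_
      omega
    simp only [Fintype.card_piFinset, card_range, prod_const, card_univ] at h1
    have h2 : B ^ k < B ^ (k + 1) := Nat.pow_lt_pow_right hB1 (by omega)
    rw [← hk] at h1
    omega
  set R := ∑ x ∈ T, (M - wt g x) % m with hR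
  set P := ∑ x ∈ T, wt g x with hP
  set Sl := ∑ x ∈ T, ∑ i, (M - wt g (top T i x)) with hSl
  have h1 : m * n + R + P = m * M := by
    rw [hn, hR, hP, mul_sum, ← sum_add_distrib, ← sum_add_distrib, ← hcard]
    rw [← smul_eq_mul, ← sum_const]
    refine sum_congr rfl fun x hx => ?_
    have := hM x hx
    have := Nat.div_add_mod (M - wt g x) T.card
    rw [hcard] at *
    omega
  have h2 : Sl + (k + 1) * P = k * (m * M) := by
    rw [hP, hk, ← sum_wt_top g hT, hSl, ← sum_add_distrib]
    calc _ = ∑ _x ∈ T, ∑ _i : ι, M := by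
          refine sum_congr rfl fun x hx => ?_
          rw [← sum_add_distrib]
          exact sum_congr rfl fun i _ => Nat.sub_add_cancel (hM _ (top_mem i hx))
      _ = _ := by simp [hcard]; ring
  have h3 : R * 2 ≤ m * (m - 1) := by
    refine sum_mod_le T m hm _ fun x hx y hy h => hinj x hx y hy ?_
    have hx' := hM x hx
    have hy' := hM y hy
    have h4 : (M - wt g x) + wt g x ≡ (M - wt g y) + wt g y [MOD m] := by
      rw [Nat.sub_add_cancel hx', Nat.sub_add_cancel hy']
    exact Nat.ModEq.add_left_cancel h h4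
  have h4 : (k + 1) * R ≤ Sl + m * (m - 1) := by
    by_cases hk1 : k = 1
    · rw [hk1]; omega
    have h5 : k * m ^ 2 < Sl := by
      by_contra hne
      exact hsmall (core g T m M (fun i => lt_of_lt_of_le hm (hg i)) hT hcard hm hinj hM
        (by omega) hQ (not_lt.1 hne))
    have h6 : m * (m - 1) ≤ m ^ 2 := by
      rw [pow_two]; exact Nat.mul_le_mul_left _ (Nat.sub_le _ _)
    have h7 : k * R ≤ k * m ^ 2 := Nat.mul_le_mul_left _ (by omega)
    rw [add_mul]
    omega
  refine Nat.le_of_mul_le_mul_left ?_ hm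
  obtain ⟨m', rfl⟩ : ∃ m', m = m' + 1 := ⟨m - 1, by omega⟩
  rw [Nat.add_sub_cancel] at h4
  nlinarith

open Classical in
/-- Wilf's inequality for large depth or large multiplicity. -/
theorem wilf_large (S : AddSubmonoid ℕ) (F m : ℕ) (hF : ∀ x, F < x → x ∈ S) (hm0 : 0 < m)
    (hmS : m ∈ S) (hmin : ∀ x ∈ S, x ≠ 0 → m ≤ x)
    (hbig : 2 ^ 36 * (gens S).ncard ^ 5 * m ≤ F ∨
      (2 ^ 36 * (gens S).ncard ^ 5) ^ (gens S).ncard ≤ m) :
    F + 1 ≤ (gens S).ncard * ((range (F + 1)).filter (· ∈ S)).card := by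
  have hfin := gens_finite S F hF
  have hmg : m ∈ gens S := by
    refine ⟨hmS, hm0.ne', fun a ha b hb hab => ?_⟩
    by_contra hne
    push Not at hne
    have := hmin a ha hne.1
    have := hmin b hb hne.2
    omega
  let G : Finset ℕ := hfin.toFinset.erase m
  have hG : ∀ x, x ∈ G ↔ x ≠ m ∧ x ∈ gens S := fun x => by simp [G]
  have he : (gens S).ncard = Fintype.card G + 1 := by
    rw [Set.ncard_eq_toFinset_card _ hfin, Fintype.card_coe, card_erase_add_one]
    simpa using hmg
  let g : G → ℕ := fun i => i.1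
  have hwt : ∀ x, wt g x ∈ S := fun x =>
    S.sum_mem fun i _ => by
      rw [← smul_eq_mul]
      exact S.nsmul_mem ((hG _).1 i.2).2.1 _
  have hrepr : ∀ s ∈ S, ∃ y t, s = wt g y + t * m := by
    intro s hs
    obtain ⟨l, hl, rfl⟩ := exists_fact S s hs
    clear hs
    induction l using Multiset.induction_on with
    | empty => exact ⟨0, 0, by simp [wt]⟩
    | cons a l ih =>
      obtain ⟨y, t, h⟩ := ih fun b hb => hl b (Multiset.mem_cons_of_mem hb)
      have ha := hl a (Multiset.mem_cons_self _ _)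
      rw [Multiset.sum_cons, h]
      by_cases ham : a = m
      · exact ⟨y, t + 1, by rw [ham]; ring⟩
      · refine ⟨y + Pi.single ⟨a, (hG a).2 ⟨ham, ha⟩⟩ 1, t, ?_⟩
        rw [wt_add, wt_single]
        simp only [g]
        ring
  obtain ⟨T, hT⟩ := exists_ideal g m
  obtain ⟨hT, hinj, hsurj⟩ := hT hm0
  have hcard : T.card = m := by
    have h1 : T.image (fun x => wt g x % m) = range m := by
      ext r
      simp only [mem_image, mem_range]
      constructor
      · rintro ⟨x, -, rfl⟩
        exact Nat.mod_lt _ hm0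
      · intro hr
        have h2 : F + 1 ≤ (F + 1) * m := Nat.le_mul_of_pos_right _ hm0
        obtain ⟨y, t, h⟩ := hrepr (r + (F + 1) * m) (hF _ (by omega))
        obtain ⟨x, hx, h3, -⟩ := hsurj y
        refine ⟨x, hx, ?_⟩
        have h4 := congrArg (· % m) h
        simp only [Nat.add_mul_mod_self_right, Nat.mod_eq_of_lt hr] at h4
        rw [h4]
        exact h3
    rw [← card_image_of_injOn (f := fun x => wt g x % m) fun x hx y hy h => hinj x hx y hy h, h1,
      card_range]
  have hM : ∀ x ∈ T, wt g x ≤ F + m := by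
    intro x hx
    by_contra hne
    obtain ⟨y, t, h⟩ := hrepr (wt g x - m) (hF _ (by omega))
    obtain ⟨z, hz, h3, h4⟩ := hsurj y
    have h5 : wt g x = wt g y + (t + 1) * m := by rw [add_mul]; omega
    have h6 : wt g z ≡ wt g x [MOD m] := by
      rw [h5]
      unfold Nat.ModEq at h3 ⊢
      rw [Nat.add_mul_mod_self_right]
      exact h3
    have h7 := hinj z hz x hx h6
    rw [h7] at h4
    omega
  have hmain := wilf_ideal g T m F hm0
    (fun i => hmin _ ((hG _).1 i.2).2.1 ((hG _).1 i.2).2.2.1) hT hcard hinj hM (by rwa [← he])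
  rw [← he] at hmain
  refine hmain.trans (Nat.mul_le_mul_left _ ?_)
  have h1 : ∑ x ∈ T, (F + m - wt g x) / m =
      (T.sigma fun x => range ((F + m - wt g x) / m)).card := by simp [card_sigma]
  rw [h1]
  refine card_le_card_of_injOn (fun p => wt g p.1 + p.2 * m) ?_ ?_
  · rintro ⟨x, t⟩ hp
    simp only [coe_sigma, Set.mem_sigma_iff, mem_coe, mem_range] at hp
    simp only [coe_filter, mem_range, Set.mem_ofPred_eq]
    refine ⟨?_, S.add_mem (hwt x) ?_⟩
    · have h2 : (t + 1) * m ≤ F + m - wt g x := (Nat.le_div_iff_mul_le hm0).1 hp.2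
      have := hM x hp.1
      rw [add_mul] at h2
      omega
    · rw [← smul_eq_mul]
      exact S.nsmul_mem hmS _
  · rintro ⟨x, t⟩ hp ⟨y, t'⟩ hp' h
    simp only [coe_sigma, Set.mem_sigma_iff, mem_coe, mem_range] at hp hp'
    simp only at h
    have h2 : x = y := by
      refine hinj x hp.1 y hp'.1 ?_
      have h3 := congrArg (· % m) h
      simp only [Nat.add_mul_mod_self_right] at h3
      exact h3
    subst h2
    have h3 : t = t' := Nat.eq_of_mul_eq_mul_right hm0 (by omega)
    subst h3
    rfl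

end Pool.Agent.MP_96f5a9_co.H51

end MrgPart3

-- marker of a merged file
example : 731051 + 633000 = 731051 + 633000 := rfl

end MrgPart0

-- ======== part 1: formerly Pool.Agent.MP_96f5a9_co.h16.Mac
section MrgPart1

/-!
A ratio form of Macaulay's bound on the shadow of a family of monomials of one degree.
-/

set_option autoImplicit false

namespace Pool.Agent.MP_96f5a9_co.H16

open Finset Function

variable {ι : Type} [Fintype ι] [DecidableEq ι]

/-- Degree of an exponent vector. -/
def dg (x : ι → ℕ) : ℕ := ∑ i, x i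

/-- The unit vector. -/
def ee (i : ι) : ι → ℕ := Pi.single i 1

/-- The shadow. -/
def sh (A : Finset (ι → ℕ)) : Finset (ι → ℕ) :=
  A.biUnion fun z => (univ.filter fun i => 0 < z i).image fun i => z - ee i

omit [Fintype ι] in
lemma sub_add_ee {z : ι → ℕ} {i : ι} (h : 0 < z i) : z - ee i + ee i = z := by
  funext j
  by_cases hj : j = i
  · subst hj
    simp only [ee, Pi.add_apply, Pi.sub_apply, Pi.single_eq_same]
    omega
  · simp [ee, hj]

lemma mem_sh {A : Finset (ι → ℕ)} {y : ι → ℕ} : y ∈ sh A ↔ ∃ i, y + ee i ∈ A := by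
  simp only [sh, mem_biUnion, mem_image, mem_filter, mem_univ, true_and]
  constructor
  · rintro ⟨z, hz, i, hi, rfl⟩
    exact ⟨i, by rwa [sub_add_ee hi]⟩
  · rintro ⟨i, hi⟩
    exact ⟨_, hi, i, by simp [ee], funext fun j => Nat.add_sub_cancel ..⟩

lemma dg_add_ee (y : ι → ℕ) (i : ι) : dg (y + ee i) = dg y + 1 := by
  simp [dg, ee, sum_add_distrib]

lemma dg_update (y : ι → ℕ) (u : ι) (k : ℕ) : dg (update y u k) + y u = dg y + k := by
  unfold dg
  rw [sum_update_of_mem (mem_univ u), ← add_sum_erase _ _ (mem_univ u), sdiff_singleton_eq_erase]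
  omega

omit [Fintype ι] in
lemma update_add_ee (y : ι → ℕ) {u i : ι} (h : i ≠ u) (k : ℕ) :
    update (y + ee i) u k = update y u k + ee i := by
  funext j
  by_cases hj : j = u
  · subst hj
    simp [ee, h.symm]
  · simp [hj]

omit [Fintype ι] in
lemma update_add_ee_self (y : ι → ℕ) (u : ι) (k : ℕ) : update (y + ee u) u k = update y u k := by
  funext j
  by_cases hj : j = u
  · subst hj
    simp
  · simp [ee, hj]

omit [Fintype ι] in
lemma update_succ (y : ι → ℕ) (u : ι) (k : ℕ) : update y u k + ee u = update y u (k + 1) := by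
  funext j
  by_cases hj : j = u
  · subst hj
    simp [ee]
  · simp [ee, hj]

/-- The trace of `E` on the line through `z` in direction `u`. -/
def tr (E : Finset (ι → ℕ)) (u : ι) (z : ι → ℕ) : Finset ℕ :=
  (E.image fun y => y u).filter fun k => update z u k ∈ E

lemma mem_tr {E : Finset (ι → ℕ)} {u : ι} {z : ι → ℕ} {k : ℕ} :
    k ∈ tr E u z ↔ update z u k ∈ E := by
  simp only [tr, mem_filter, mem_image]
  exact ⟨fun h => h.2, fun h => ⟨⟨_, h, by simp⟩, h⟩⟩

lemma tr_update (E : Finset (ι → ℕ)) (u : ι) (z : ι → ℕ) (k : ℕ) :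
    tr E u (update z u k) = tr E u z := by
  ext j
  rw [mem_tr, mem_tr, update_idem]

/-- Compression in direction `u`. -/
def cmp (u : ι) (E : Finset (ι → ℕ)) : Finset (ι → ℕ) :=
  E.biUnion fun z => (range (tr E u z).card).image (update z u)

lemma mem_cmp {E : Finset (ι → ℕ)} {u : ι} {y : ι → ℕ} :
    y ∈ cmp u E ↔ y u < (tr E u y).card := by
  simp only [cmp, mem_biUnion, mem_image, mem_range]
  constructor
  · rintro ⟨z, -, k, hk, rfl⟩
    rwa [tr_update, update_self]
  · intro h
    obtain ⟨k, hk⟩ : (tr E u y).Nonempty := card_pos.1 (by omega)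
    exact ⟨_, mem_tr.1 hk, y u, by rwa [tr_update], by rw [update_idem, update_eq_self]⟩

lemma card_line (E : Finset (ι → ℕ)) (u : ι) {w : ι → ℕ} (hw : w u = 0) :
    (E.filter fun z => update z u 0 = w).card = (tr E u w).card := by
  refine card_nbij' (fun z => z u) (update w u) (fun z hz => ?_) (fun k hk => ?_) (fun z hz => ?_)
    fun k _ => by simp
  · simp only [coe_filter, Set.mem_ofPred_eq] at hz
    rw [mem_coe, mem_tr, ← hz.2, update_idem, update_eq_self]
    exact hz.1
  · simp only [coe_filter, Set.mem_ofPred_eq]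
    exact ⟨mem_tr.1 hk, by rw [update_idem, ← hw, update_eq_self]⟩
  · simp only [coe_filter, Set.mem_ofPred_eq] at hz
    rw [← hz.2, update_idem, update_eq_self]

lemma card_cmp (u : ι) (E : Finset (ι → ℕ)) : (cmp u E).card = E.card := by
  let W := (E ∪ cmp u E).image fun z => update z u 0
  have h : ∀ A ⊆ E ∪ cmp u E, A.card = ∑ w ∈ W, (tr A u w).card := fun A hA => by
    rw [card_eq_sum_card_fiberwise (f := fun z => update z u 0) (t := W)
      fun z hz => mem_image_of_mem _ (hA hz)]
    refine sum_congr rfl fun w hw => card_line A u ?_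
    obtain ⟨z, -, rfl⟩ := mem_image.1 hw
    simp
  rw [h _ subset_union_right, h _ subset_union_left]
  refine sum_congr rfl fun w _ => ?_
  rw [← card_range (tr E u w).card]
  congr 1
  ext k
  rw [mem_tr, mem_cmp, tr_update, update_self, mem_range]

lemma dg_cmp {D : ℕ} {u : ι} {E : Finset (ι → ℕ)} (hE : ∀ z ∈ E, dg z ≤ D) :
    ∀ y ∈ cmp u E, dg y ≤ D := by
  intro y hy
  rw [mem_cmp] at hy
  by_contra hc
  have : tr E u y ⊆ range (y u) := fun k hk => by
    have h1 := hE _ (mem_tr.1 hk)
    have h2 := dg_update y u k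
    rw [mem_range]
    omega
  have := card_le_card this
  rw [card_range] at this
  omega

lemma gap {K K' : Finset ℕ} {s j : ℕ} (h1 : ∀ k ∈ K, k < s → k ∈ K') (h2 : ∀ k, k + 1 ∈ K → k ∈ K')
    (hj : j < K.card) (hs : j < s) : j < K'.card := by
  by_cases h : ∃ k0 ≤ s, k0 ∉ K
  · obtain ⟨k0, a, b⟩ := h
    refine hj.trans_le (card_le_card_of_injOn (fun k => if k < k0 then k else k - 1)
      (fun k hk => ?_) fun k hk k' hk' e => ?_)
    · have hk0 : k ≠ k0 := fun e => b (e ▸ hk)
      simp only [mem_coe]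
      split_ifs with c
      · exact h1 k hk (by omega)
      · exact h2 _ (by rwa [Nat.sub_add_cancel (by omega)])
    · have hk0 : k ≠ k0 := fun e => b (e ▸ hk)
      have hk0' : k' ≠ k0 := fun e => b (e ▸ hk')
      simp only at e
      split_ifs at e <;> omega
  · push Not at h
    have : range s ⊆ K' := fun k hk => h1 k (h k (mem_range.1 hk).le) (mem_range.1 hk)
    have := card_le_card this
    rw [card_range] at this
    omega

/-- The shadow after adding one homogenising variable. -/
def shs (D : ℕ) (E : Finset (ι → ℕ)) : Finset (ι → ℕ) := (E.filter fun z => dg z < D) ∪ sh E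

lemma mem_shs {D : ℕ} {E : Finset (ι → ℕ)} {y : ι → ℕ} :
    y ∈ shs D E ↔ (y ∈ E ∧ dg y < D) ∨ ∃ i, y + ee i ∈ E := by
  rw [shs, mem_union, mem_filter, mem_sh]

lemma shs_cmp {D : ℕ} (u : ι) {E : Finset (ι → ℕ)} (hE : ∀ z ∈ E, dg z ≤ D) :
    shs D (cmp u E) ⊆ cmp u (shs D E) := by
  have B : ∀ y ∈ cmp u E, dg y < D → y ∈ cmp u (shs D E) := fun y hy hd => by
    rw [mem_cmp] at hy ⊢
    refine gap (s := D + y u - dg y) (fun k hk hs => ?_) (fun k hk => ?_) hy (by omega)
    · have := dg_update y u k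
      exact mem_tr.2 (mem_shs.2 (Or.inl ⟨mem_tr.1 hk, by omega⟩))
    · exact mem_tr.2 (mem_shs.2 (Or.inr ⟨u, by rw [update_succ]; exact mem_tr.1 hk⟩))
  intro y hy
  rcases mem_shs.1 hy with h | ⟨i, h⟩
  · exact B y h.1 h.2
  by_cases hi : i = u
  · subst hi
    have h1 := dg_cmp hE _ h
    rw [dg_add_ee] at h1
    refine B y ?_ (by omega)
    rw [mem_cmp] at h ⊢
    have e : tr E i (y + ee i) = tr E i y := by
      ext k
      rw [mem_tr, mem_tr, update_add_ee_self]
    rw [e, Pi.add_apply] at h
    omega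
  · rw [mem_cmp] at h ⊢
    have e : tr E u (y + ee i) ⊆ tr (shs D E) u y := fun k hk =>
      mem_tr.2 (mem_shs.2 (Or.inr ⟨i, by rw [← update_add_ee y hi]; exact mem_tr.1 hk⟩))
    have := card_le_card e
    rw [Pi.add_apply] at h
    omega

lemma exists_closed {D : ℕ} {E : Finset (ι → ℕ)} (hE : ∀ z ∈ E, dg z ≤ D) (s : Finset ι) :
    ∃ E' : Finset (ι → ℕ), E'.card = E.card ∧ (∀ z ∈ E', dg z ≤ D) ∧
      (shs D E').card ≤ (shs D E).card ∧ ∀ i ∈ s, ∀ y, y + ee i ∈ E' → y ∈ E' := by
  induction s using Finset.induction_on with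
  | empty => exact ⟨E, rfl, hE, le_rfl, by simp⟩
  | insert u s _ ih =>
    obtain ⟨E', h1, h2, h3, h4⟩ := ih
    refine ⟨cmp u E', by rw [card_cmp, h1], dg_cmp h2,
      (card_le_card (shs_cmp u h2)).trans (by rwa [card_cmp]), fun i hi y hy => ?_⟩
    rw [mem_cmp] at hy ⊢
    have e : tr E' u (y + ee i) ⊆ tr E' u y := fun k hk => by
      rw [mem_tr] at hk ⊢
      by_cases c : i = u
      · rwa [c, update_add_ee_self] at hk
      · rw [update_add_ee y c] at hk
        exact h4 i ((mem_insert.1 hi).resolve_left c) _ hk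
    have := card_le_card e
    rw [Pi.add_apply] at hy
    omega

lemma choose_step (j x : ℕ) : (j + 1) * (j + 1 + x).choose x = (j + 1 + x) * (j + x).choose x := by
  have h := Nat.choose_mul_succ_eq (j + x) x
  rw [show j + x + 1 - x = j + 1 by omega, show j + x + 1 = j + 1 + x by omega] at h
  rw [mul_comm, ← h, mul_comm]

/-- A family of at most `C (D + x, x)` monomials of degree `D` has a shadow of relative size at
least `D / (D + x)`. -/
theorem ratio (x : ℕ) : ∀ (D : ℕ) (A : Finset (ι → ℕ)), (∀ z ∈ A, dg z = D) →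
    A.card ≤ (D + x).choose x → D * A.card ≤ (D + x) * (sh A).card := by
  induction x with
  | zero =>
    intro D A hA h
    rcases Nat.eq_zero_or_pos D with rfl | hD
    · simp
    rcases A.eq_empty_or_nonempty with rfl | ⟨z, hz⟩
    · simp
    obtain ⟨i, -, hi⟩ : ∃ i ∈ univ, z i ≠ 0 :=
      exists_ne_zero_of_sum_ne_zero (by have := hA z hz; unfold dg at this; omega)
    have : 0 < (sh A).card := card_pos.2 ⟨z - ee i,
      mem_sh.2 ⟨i, by rwa [sub_add_ee (Nat.pos_of_ne_zero hi)]⟩⟩
    rw [Nat.choose_zero_right] at h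
    exact Nat.mul_le_mul_left _ (by omega)
  | succ x ih =>
    intro D A hA h
    rcases D with _ | d
    · simp
    obtain ⟨E, h1, h2, h3, h4⟩ := exists_closed (fun z hz => (hA z hz).le) univ
    have h5 : shs (d + 1) A = sh A := by
      rw [shs, filter_false_of_mem fun z hz => by rw [hA z hz]; omega, empty_union]
    set N := (E.filter fun z => dg z < d + 1).card with hN
    have h6 : N ≤ (sh A).card := by
      rw [← h5]
      exact (card_le_card subset_union_left).trans h3
    let t : ℕ → ℕ := fun j => (E.filter fun z => dg z = j).card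
    have h7 : N = ∑ j ∈ range (d + 1), t j := by
      rw [hN, card_eq_sum_card_fiberwise (f := dg) (t := range (d + 1))
        fun z hz => by simpa using (mem_filter.1 hz).2]
      refine sum_congr rfl fun j hj => ?_
      rw [filter_filter]
      congr 1
      refine filter_congr fun z _ => ⟨fun a => a.2, fun a => ⟨?_, a⟩⟩
      rw [a]
      exact mem_range.1 hj
    have h8 : A.card = N + t (d + 1) := by
      rw [← h1, ← card_filter_add_card_filter_not (s := E) fun z => dg z < d + 1]
      congr 2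
      exact filter_congr fun z hz => by have := h2 z hz; omega
    set C := (d + 1 + x).choose x with hC
    set a := min (t (d + 1)) C with ha
    have h9 : ∀ i j, j + i = d + 1 → a * (j + x).choose x ≤ t j * C := by
      intro i
      induction i with
      | zero =>
        intro j hj
        obtain rfl : j = d + 1 := hj
        exact Nat.mul_le_mul_right _ (min_le_left _ _)
      | succ i ih2 =>
        intro j hj
        have k1 := ih2 (j + 1) (by omega)
        obtain ⟨B, b1, b2⟩ := exists_subset_card_eq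
          (min_le_left (t (j + 1)) ((j + 1 + x).choose x))
        have k2 := ih (j + 1) B (fun z hz => (mem_filter.1 (b1 hz)).2) (b2 ▸ min_le_right _ _)
        have k3 : (sh B).card ≤ t j := card_le_card fun y hy => by
          obtain ⟨i, hi⟩ := mem_sh.1 hy
          have c := mem_filter.1 (b1 hi)
          exact mem_filter.2 ⟨h4 i (mem_univ _) y c.1, by have := c.2; rw [dg_add_ee] at this; omega⟩
        have k4 : a * (j + 1 + x).choose x ≤ B.card * C := by
          rw [b2]
          rcases le_total (t (j + 1)) ((j + 1 + x).choose x) with c | c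
          · rwa [min_eq_left c]
          · rw [min_eq_right c, mul_comm]
            exact Nat.mul_le_mul_left _ (min_le_right _ _)
        refine Nat.le_of_mul_le_mul_left ?_ (show 0 < j + 1 + x by omega)
        calc (j + 1 + x) * (a * (j + x).choose x) = (j + 1) * (a * (j + 1 + x).choose x) := by
              rw [mul_left_comm, ← choose_step, mul_left_comm]
          _ ≤ (j + 1) * B.card * C := by
              rw [mul_assoc]
              exact Nat.mul_le_mul_left _ k4
          _ ≤ (j + 1 + x) * t j * C :=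
              Nat.mul_le_mul_right _ (k2.trans (Nat.mul_le_mul_left _ k3))
          _ = _ := mul_assoc _ _ _
    have h10 : a * (d + x + 1).choose (x + 1) ≤ N * C := by
      rw [← Nat.sum_range_add_choose, h7, mul_sum, sum_mul]
      exact sum_le_sum fun j hj => h9 (d + 1 - j) j (by have := mem_range.1 hj; omega)
    have h11 := Nat.choose_succ_right_eq (d + x + 1) x
    rw [show d + x + 1 - x = d + 1 by omega, show (d + x + 1).choose x = C by
      rw [hC, add_right_comm]] at h11
    have hC0 : 0 < C := Nat.choose_pos (by omega)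
    have h12 : t (d + 1) ≤ C := by
      by_contra c
      rw [ha, min_eq_right (by omega), mul_comm] at h10
      have := Nat.le_of_mul_le_mul_right h10 hC0
      have e : (d + 1 + (x + 1)).choose (x + 1) = C + (d + x + 1).choose (x + 1) := by
        rw [hC, show d + 1 + x = d + x + 1 by omega, ← Nat.choose_succ_succ']
        congr 1
        omega
      omega
    rw [ha, min_eq_left h12] at h10
    have h13 : (d + 1) * t (d + 1) ≤ (x + 1) * N := by
      refine Nat.le_of_mul_le_mul_right ?_ hC0
      calc (d + 1) * t (d + 1) * C = t (d + 1) * (d + x + 1).choose (x + 1) * (x + 1) := by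
            rw [mul_assoc (t _), h11]
            ring
        _ ≤ N * C * (x + 1) := Nat.mul_le_mul_right _ h10
        _ = _ := by ring
    rw [h8]
    nlinarith

end Pool.Agent.MP_96f5a9_co.H16

end MrgPart1

-- ======== part 2: formerly Pool.Agent.MP_96f5a9_co.h16.Cubic
section MrgPart2

/-!
Wilf's inequality for an order ideal with few points of degree three.
-/

set_option autoImplicit false

namespace Pool.Agent.MP_96f5a9_co.H16

open Finset Function H51

variable {ι : Type} [Fintype ι] [DecidableEq ι]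

lemma shift_le (A B : Finset (ι → ℕ)) (i : ι) (ψ : ℕ → ℕ) (hψ : ψ 0 = 0) (φ : (ι → ℕ) → ℕ)
    (h : ∀ z ∈ B, 0 < z i → z - ee i ∈ A) :
    ∑ z ∈ B, ψ (z i) * φ (z - ee i) ≤ ∑ y ∈ A, ψ (y i + 1) * φ y := by
  calc _ = ∑ z ∈ B.filter (fun z => 0 < z i), ψ ((z - ee i) i + 1) * φ (z - ee i) := by
        rw [sum_filter]
        refine sum_congr rfl fun z _ => ?_
        split_ifs with c
        · rw [show (z - ee i) i + 1 = z i by simp only [ee, Pi.sub_apply, Pi.single_eq_same]; omega]
        · rw [show z i = 0 by omega, hψ, zero_mul]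
    _ = ∑ y ∈ (B.filter fun z => 0 < z i).image (fun z => z - ee i), ψ (y i + 1) * φ y := by
        rw [sum_image]
        intro z hz z' hz' e
        rw [← sub_add_ee (mem_filter.1 hz).2, ← sub_add_ee (mem_filter.1 hz').2]
        exact congrArg (· + ee i) e
    _ ≤ _ := sum_le_sum_of_subset fun y hy => by
        obtain ⟨z, hz, rfl⟩ := mem_image.1 hy
        exact h z (mem_filter.1 hz).1 (mem_filter.1 hz).2

lemma sum_mod_eq {α : Type} (T : Finset α) (m : ℕ) (hm : 0 < m) (hT : T.card = m) (f : α → ℕ)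
    (hf : ∀ x ∈ T, ∀ y ∈ T, f x % m = f y % m → x = y) :
    ∑ x ∈ T, f x % m = ∑ r ∈ range m, r := by
  classical
  rw [← sum_image (g := fun x => f x % m) (f := fun r => r) hf]
  congr 1
  refine eq_of_subset_of_card_le (fun r hr => ?_) ?_
  · obtain ⟨x, -, rfl⟩ := mem_image.1 hr
    exact mem_range.2 (Nat.mod_lt _ hm)
  · rw [card_image_of_injOn hf, hT, card_range]

lemma wt_ee (g y : ι → ℕ) (i : ι) : wt g (y + ee i) = wt g y + g i := by
  rw [wt_add, ee, wt_single, one_mul]

lemma dg_sub {z : ι → ℕ} {i : ι} (h : 0 < z i) : dg (z - ee i) + 1 = dg z := by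
  rw [← dg_add_ee _ i, sub_add_ee h]

theorem core (g : ι → ℕ) (T : Finset (ι → ℕ)) (m F D0 K : ℕ) (hm : 0 < m) (hg : ∀ i, m ≤ g i)
    (hT : ∀ x ∈ T, ∀ y, y ≤ x → y ∈ T) (hcard : T.card = m)
    (hinj : ∀ x ∈ T, ∀ y ∈ T, wt g x ≡ wt g y [MOD m] → x = y) (hM : ∀ x ∈ T, wt g x ≤ F + m)
    (hD : 3 ≤ D0) (hK : D0 < K) (hs : ∀ z ∈ T, (univ.filter fun i => 0 < z i).card < K)
    (hlev : ∀ D, 3 ≤ D → (D + if D < D0 then D - 2 else K) * (T.filter fun z => dg z = D).card ≤
      (D - 1 + Fintype.card ι) * (sh (T.filter fun z => dg z = D)).card) :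
    F + 1 ≤ (Fintype.card ι + 1) * ∑ x ∈ T, (F + m - wt g x) / m := by
  obtain ⟨k, rfl⟩ : ∃ k, m = k + 1 := ⟨m - 1, by omega⟩
  obtain ⟨K, rfl⟩ : ∃ k, K = k + 1 := ⟨K - 1, by omega⟩
  set p := Fintype.card ι with hp
  let r : (ι → ℕ) → ℕ := fun z => F + (k + 1) - wt g z
  let a : (ι → ℕ) → ℕ := fun z => r z / (k + 1)
  let l : (ι → ℕ) → ℕ := fun z => r z % (k + 1)
  let b : (ι → ℕ) → ℕ := fun z => (r z + (F + 1)) / (k + 1)
  let l' : (ι → ℕ) → ℕ := fun z => (r z + (F + 1)) % (k + 1)
  let Q : (ι → ℕ) → ℕ := fun z => ∑ i, z i * a (z - ee i)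
  let Λ : (ι → ℕ) → ℕ := fun z => ∑ i, z i * l (z - ee i)
  let κ : ℕ → ℕ := fun D => if D < D0 then D - 2 else K + 1
  show F + 1 ≤ (p + 1) * ∑ x ∈ T, a x
  have hal : ∀ z, (k + 1) * a z + l z = r z := fun z => Nat.div_add_mod _ _
  have hbl : ∀ z, (k + 1) * b z + l' z = r z + (F + 1) := fun z => Nat.div_add_mod _ _
  have hl : ∀ z, l z ≤ k := fun z => Nat.le_of_lt_succ (Nat.mod_lt _ hm)
  have hr : ∀ z ∈ T, r z + wt g z = F + (k + 1) := fun z hz => Nat.sub_add_cancel (hM z hz)
  have hdown : ∀ z ∈ T, ∀ i, z - ee i ∈ T := fun z hz i => hT z hz _ fun j => Nat.sub_le _ _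
  have hres : ∀ c, ∑ x ∈ T, (r x + c) % (k + 1) = ∑ j ∈ range (k + 1), j := fun c =>
    sum_mod_eq T _ hm hcard _ fun x hx y hy h => hinj x hx y hy <| by
      have h4 : (r x + c) + wt g x ≡ (r y + c) + wt g y [MOD k + 1] := by
        rw [add_right_comm, hr x hx, add_right_comm (r y), hr y hy]
      exact Nat.ModEq.add_left_cancel h h4
  have S1 : ∑ z ∈ T, b z = ∑ z ∈ T, a z + (F + 1) := by
    have e1 : ∑ z ∈ T, l' z = ∑ z ∈ T, l z := (hres (F + 1)).trans (hres 0).symm
    have e2 : ∑ z ∈ T, ((k + 1) * b z + l' z) = ∑ z ∈ T, ((k + 1) * a z + l z + (F + 1)) :=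
      sum_congr rfl fun z _ => by rw [hal, hbl]
    rw [sum_add_distrib, sum_add_distrib, sum_add_distrib, e1, ← mul_sum, ← mul_sum, sum_const,
      hcard, smul_eq_mul] at e2
    refine Nat.eq_of_mul_eq_mul_left hm ?_
    rw [mul_add]
    omega
  have hI : ∀ z ∈ T, (k + 1) * (b z + dg z * a z) + k + l' z + dg z * l z =
      (k + 1) * (2 * a z + Q z) + 2 * l z + Λ z := fun z hz => by
    have e : (k + 1) * Q z + Λ z = dg z * r z + wt g z := by
      simp only [Q, Λ, dg, wt, mul_sum, sum_mul, ← sum_add_distrib]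
      refine sum_congr rfl fun i _ => ?_
      rcases Nat.eq_zero_or_pos (z i) with c | c
      · simp [c]
      · have e1 := hr z hz
        have e2 := hr _ (hdown z hz i)
        have e3 := wt_ee g (z - ee i) i
        rw [sub_add_ee c] at e3
        rw [mul_left_comm, ← mul_add, hal, ← mul_add]
        congr 1
        omega
    have e1 := hr z hz
    have e2 := hal z
    have e3 := hbl z
    rw [← e2] at e
    nlinarith
  have hΛ : ∀ z, Λ z ≤ dg z * k := fun z => by
    rw [dg, sum_mul]
    exact sum_le_sum fun i _ => Nat.mul_le_mul_left _ (hl _)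
  have P1 : ∀ z ∈ T, b z + dg z * a z ≤ 2 * a z + Q z + (dg z - 2) := fun z hz => by
    have e1 := hI z hz
    have e2 := hΛ z
    have e3 := hl z
    refine Nat.le_of_lt_succ (Nat.lt_of_mul_lt_mul_left (a := k + 1) ?_)
    rw [Nat.succ_eq_add_one, add_assoc _ _ 1, mul_add (k + 1) (2 * a z + Q z)]
    generalize (k + 1) * (b z + dg z * a z) = X at *
    generalize (k + 1) * (2 * a z + Q z) = Y at *
    rcases hd : dg z with _ | _ | d
    · rw [hd] at e1 e2
      omega
    · rw [hd] at e1 e2
      omega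
    · rw [hd] at e1 e2
      rw [show d + 1 + 1 - 2 = d by omega]
      nlinarith [Nat.zero_le (d * l z)]
  let H := T.filter fun z => ¬ dg z < D0
  have P2 : ∑ z ∈ H, (b z + dg z * a z) ≤ ∑ z ∈ H, (2 * a z + Q z + (K + 1)) := by
    have e1 : ∀ z ∈ H, Λ z ≤ K * k + if D0 < dg z then ∑ i, (z i - 1) * l (z - ee i) else 0 := by
      intro z hz
      obtain ⟨z1, z2⟩ := mem_filter.1 hz
      split_ifs with c
      · calc Λ z ≤ ∑ i, ((if 0 < z i then k else 0) + (z i - 1) * l (z - ee i)) := by
              refine sum_le_sum fun i _ => ?_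
              have := hl (z - ee i)
              rcases hi : z i with _ | j
              · simp
              · rw [if_pos (by omega), Nat.add_sub_cancel, add_mul]
                omega
          _ ≤ _ := by
              rw [sum_add_distrib, ← sum_filter, sum_const, smul_eq_mul]
              exact Nat.add_le_add_right
                (Nat.mul_le_mul_right _ (Nat.le_of_lt_succ (hs z z1))) _
      · exact (hΛ z).trans (Nat.mul_le_mul_right _ (by omega))
    have e2 : ∑ z ∈ H, Λ z ≤ ∑ z ∈ H, (K * k + dg z * l z) := by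
      refine (sum_le_sum e1).trans ?_
      rw [sum_add_distrib, sum_add_distrib, ← sum_filter, sum_comm]
      refine Nat.add_le_add_left ?_ _
      simp only [dg, sum_mul]
      rw [sum_comm (s := H)]
      refine sum_le_sum fun i _ => shift_le H _ i (· - 1) rfl l fun z hz hi => ?_
      obtain ⟨z1, z2⟩ := mem_filter.1 hz
      have := dg_sub hi
      exact mem_filter.2 ⟨hdown z (mem_filter.1 z1).1 i, by unfold dg at this ⊢; omega⟩
    have e3 : ∑ z ∈ H, ((k + 1) * (b z + dg z * a z) + (K * k + dg z * l z)) ≤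
        ∑ z ∈ H, ((k + 1) * (2 * a z + Q z + (K + 1)) + Λ z) := sum_le_sum fun z hz => by
      have e1 := hI z (mem_filter.1 hz).1
      have e2 := hl z
      rw [mul_add (k + 1) (2 * a z + Q z)]
      nlinarith
    rw [sum_add_distrib, sum_add_distrib (g := Λ), ← mul_sum, ← mul_sum] at e3
    exact Nat.le_of_mul_le_mul_left (by omega) hm
  have S2 : ∑ z ∈ T, (b z + dg z * a z) ≤ ∑ z ∈ T, (2 * a z + Q z + κ (dg z)) := by
    rw [← sum_filter_add_sum_filter_not T fun z => dg z < D0,
      ← sum_filter_add_sum_filter_not T fun z => dg z < D0]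
    refine Nat.add_le_add (sum_le_sum fun z hz => ?_) (P2.trans (sum_le_sum fun z hz => ?_))
    · simp only [κ, if_pos (mem_filter.1 hz).2]
      exact P1 z (mem_filter.1 hz).1
    · simp only [κ, if_neg (mem_filter.1 hz).2, le_refl]
  let U := (sh T).filter fun y => 2 ≤ dg y
  have hU : U ⊆ T := fun y hy => by
    obtain ⟨i, hi⟩ := mem_sh.1 (mem_filter.1 hy).1
    exact hT _ hi _ fun j => Nat.le_add_right _ _
  let φ : (ι → ℕ) → ℕ := fun y => a y - if y ∈ U then 1 else 0
  have S3 : ∑ z ∈ T, Q z + ∑ y ∈ U, (dg y + p) ≤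
      ∑ z ∈ T, (dg z + p) * a z + ∑ z ∈ T, if 3 ≤ dg z then dg z else 0 := by
    have e1 : ∀ z ∈ T, Q z ≤ ∑ i, z i * φ (z - ee i) + if 3 ≤ dg z then dg z else 0 := by
      intro z _
      calc Q z ≤ ∑ i, (z i * φ (z - ee i) + if 3 ≤ dg z then z i else 0) := by
            refine sum_le_sum fun i _ => ?_
            rcases Nat.eq_zero_or_pos (z i) with c | c
            · simp [c]
            simp only [φ]
            by_cases c' : z - ee i ∈ U
            · have := (mem_filter.1 c').2
              have := dg_sub c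
              rw [if_pos c', if_pos (by omega), ← Nat.mul_succ]
              exact Nat.mul_le_mul_left _ (by omega)
            · rw [if_neg c']
              exact Nat.le_add_right _ _
        _ = _ := by
            rw [sum_add_distrib]
            split_ifs
            · rfl
            · simp
    have e2 : ∑ z ∈ T, ∑ i, z i * φ (z - ee i) ≤ ∑ y ∈ T, (dg y + p) * φ y := by
      rw [sum_comm]
      refine (sum_le_sum fun i _ => shift_le T T i id rfl φ fun z hz _ => hdown z hz i).trans ?_
      rw [sum_comm]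
      refine sum_le_sum fun y _ => le_of_eq ?_
      rw [← sum_mul, hp]
      simp [dg, sum_add_distrib]
    have e3 : ∑ y ∈ T, (dg y + p) * φ y + ∑ y ∈ U, (dg y + p) = ∑ z ∈ T, (dg z + p) * a z := by
      rw [← inter_eq_right.2 hU, ← sum_ite_mem, ← sum_add_distrib]
      refine sum_congr rfl fun y hy => ?_
      simp only [φ]
      split_ifs with c
      · obtain ⟨i, hi⟩ := mem_sh.1 (mem_filter.1 c).1
        have e4 := hr _ hi
        have e5 := hr _ hy
        have e6 := hg i
        rw [wt_ee] at e4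
        have : 1 ≤ a y := (Nat.le_div_iff_mul_le hm).2 (by omega)
        rw [← Nat.mul_succ, Nat.succ_eq_add_one, Nat.sub_add_cancel this]
      · rfl
    have e4 := sum_le_sum e1
    rw [sum_add_distrib] at e4
    omega
  have S4 : ∑ z ∈ T, ((if 3 ≤ dg z then dg z else 0) + κ (dg z)) ≤ ∑ y ∈ U, (dg y + p) := by
    have hN : ∀ z ∈ T, dg z ∈ range (T.sup dg + 2) := fun z hz =>
      mem_range.2 (by have := le_sup (f := dg) hz; omega)
    have hN' : ∀ z ∈ U, dg z + 1 ∈ range (T.sup dg + 2) := fun z hz =>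
      mem_range.2 (by have := le_sup (f := dg) (hU hz); omega)
    rw [← sum_fiberwise_of_maps_to hN, ← sum_fiberwise_of_maps_to hN']
    refine sum_le_sum fun D _ => ?_
    rw [sum_congr rfl (g := fun _ => (if 3 ≤ D then D else 0) + κ D)
      fun z hz => by rw [(mem_filter.1 hz).2], sum_const, smul_eq_mul, mul_comm]
    split_ifs with c
    · refine (hlev D c).trans ?_
      rw [sum_congr rfl (g := fun _ => D - 1 + p)
        fun z hz => by rw [← (mem_filter.1 hz).2, Nat.add_sub_cancel], sum_const, smul_eq_mul,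
        mul_comm]
      refine Nat.mul_le_mul_right _ (card_le_card fun y hy => ?_)
      obtain ⟨i, hi⟩ := mem_sh.1 hy
      obtain ⟨h1, h2⟩ := mem_filter.1 hi
      rw [dg_add_ee] at h2
      exact mem_filter.2 ⟨mem_filter.2 ⟨mem_sh.2 ⟨i, h1⟩, by omega⟩, h2⟩
    · simp only [κ]
      rw [if_pos (by omega), show D - 2 = 0 by omega]
      simp
  simp only [sum_add_distrib, add_mul, ← mul_sum] at S2 S3 S4 ⊢
  omega

lemma level_lt {T : Finset (ι → ℕ)} (hT : ∀ x ∈ T, ∀ y, y ≤ x → y ∈ T) (x : ℕ)
    (h : (T.filter fun z => dg z = 3).card < (3 + x).choose x) (D : ℕ) (hD : 3 ≤ D) :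
    (T.filter fun z => dg z = D).card < (D + x).choose x := by
  induction D, hD using Nat.le_induction with
  | base => exact h
  | succ D _ ih =>
    by_contra c
    obtain ⟨B, b1, b2⟩ := exists_subset_card_eq (not_lt.1 c)
    have k2 := ratio x (D + 1) B (fun z hz => (mem_filter.1 (b1 hz)).2) b2.le
    have k3 : (sh B).card ≤ (T.filter fun z => dg z = D).card := card_le_card fun y hy => by
      obtain ⟨i, hi⟩ := mem_sh.1 hy
      obtain ⟨h1, h2⟩ := mem_filter.1 (b1 hi)
      rw [dg_add_ee] at h2
      exact mem_filter.2 ⟨hT _ h1 _ fun j => Nat.le_add_right _ _, by omega⟩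
    rw [b2, choose_step] at k2
    have := Nat.le_of_mul_le_mul_left k2 (by omega)
    omega

lemma supp_lt {T : Finset (ι → ℕ)} (hT : ∀ x ∈ T, ∀ y, y ≤ x → y ∈ T) (x : ℕ)
    (h : (T.filter fun z => dg z = 3).card < (3 + x).choose x) {z : ι → ℕ} (hz : z ∈ T) :
    (univ.filter fun i => 0 < z i).card < x + 3 := by
  by_contra c
  have h1 := Nat.choose_le_choose 3 (not_lt.1 c)
  have h2 : (powersetCard 3 (univ.filter fun i => 0 < z i)).card ≤
      (T.filter fun z => dg z = 3).card := by
    refine card_le_card_of_injOn (fun A i => if i ∈ A then 1 else 0) (fun A hA => ?_)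
      fun A _ B _ e => ?_
    · obtain ⟨a1, a2⟩ := mem_powersetCard.1 (mem_coe.1 hA)
      refine mem_coe.2 (mem_filter.2 ⟨hT z hz _ fun i => ?_, by simp [dg, a2]⟩)
      show (if i ∈ A then 1 else 0) ≤ z i
      split_ifs with c'
      · exact (mem_filter.1 (a1 c')).2
      · exact Nat.zero_le _
    · ext i
      have := congrFun e i
      simp only at this
      split_ifs at this <;> simp_all
  rw [card_powersetCard] at h2
  rw [add_comm, Nat.choose_symm_add] at h
  omega

theorem wilf_ideal (g : ι → ℕ) (T : Finset (ι → ℕ)) (m F : ℕ) (hm : 0 < m) (hg : ∀ i, m ≤ g i)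
    (hT : ∀ x ∈ T, ∀ y, y ≤ x → y ∈ T) (hcard : T.card = m)
    (hinj : ∀ x ∈ T, ∀ y ∈ T, wt g x ≡ wt g y [MOD m] → x = y) (hM : ∀ x ∈ T, wt g x ≤ F + m)
    (h : (T.filter fun z => dg z = 3).card = 0 ∨
      (T.filter fun z => dg z = 3).card < ((Fintype.card ι + 1) / 3 + 1).choose 3) :
    F + 1 ≤ (Fintype.card ι + 1) * ∑ x ∈ T, (F + m - wt g x) / m := by
  by_cases h0 : (T.filter fun z => dg z = 3).card = 0
  · have h1 : (T.filter fun z => dg z = 3).card < (3 + 0).choose 0 := by simp [h0]
    refine core g T m F 3 4 hm hg hT hcard hinj hM le_rfl (by omega)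
      (fun z hz => (supp_lt hT 0 h1 hz).trans (by omega)) fun D hD => ?_
    have := level_lt hT 0 h1 D hD
    rw [Nat.choose_zero_right, Nat.lt_one_iff] at this
    simp [this]
  replace h := h.resolve_left h0
  set p := Fintype.card ι
  obtain ⟨x, hx⟩ : ∃ x, (p + 1) / 3 = x + 3 := by
    refine ⟨(p + 1) / 3 - 3, ?_⟩
    by_contra c
    have := Nat.choose_le_choose 3 (show (p + 1) / 3 + 1 ≤ 3 by omega)
    rw [Nat.choose_self] at this
    omega
  rw [hx, show x + 3 + 1 = x + 1 + 3 by omega, ← Nat.choose_symm_add, add_comm (x + 1)] at h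
  refine core g T m F (x + 3) (x + 4) hm hg hT hcard hinj hM (by omega) (by omega)
    (fun z hz => supp_lt hT _ h hz) fun D hD => ?_
  have h1 := ratio (x + 1) D _ (fun z hz => (mem_filter.1 hz).2) (level_lt hT _ h D hD).le
  have h2 : (D + if D < x + 3 then D - 2 else x + 4) * (D + (x + 1)) ≤ D * (D - 1 + p) := by
    obtain ⟨q, hq⟩ : ∃ q, p = 3 * x + 8 + q := ⟨p - (3 * x + 8), by omega⟩
    obtain ⟨d, rfl⟩ : ∃ d, D = d + 3 := ⟨D - 3, by omega⟩
    rw [hq, show d + 3 - 1 = d + 2 by omega, show d + 3 - 2 = d + 1 by omega]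
    split_ifs with c
    · obtain ⟨y, rfl⟩ : ∃ y, x = d + y := ⟨x - d, by omega⟩
      nlinarith [Nat.zero_le (d * q), Nat.zero_le (d * y)]
    · obtain ⟨y, rfl⟩ : ∃ y, d = x + y := ⟨d - x, by omega⟩
      nlinarith [Nat.zero_le (x * q), Nat.zero_le (x * y), Nat.zero_le (y * q)]
  refine Nat.le_of_mul_le_mul_left ?_ (show 0 < D by omega)
  calc _ = (D + if D < x + 3 then D - 2 else x + 4) * (D * _) := mul_left_comm _ _ _
    _ ≤ _ := Nat.mul_le_mul_left _ h1
    _ ≤ _ := by
      rw [← mul_assoc, ← mul_assoc]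
      exact Nat.mul_le_mul_right _ h2

end Pool.Agent.MP_96f5a9_co.H16

end MrgPart2

-- marker of a merged file
example : 731051 + 585474 = 731051 + 585474 := rfl
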