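import Pool.Agent.MP_96f5a9_co.h16.Rare
import Pool.Agent.MP_96f5a9_co.h7.Err
import Pool.Agent.MP_96f5a9_co.h12.Cell
import Pool.Agent.MP_96f5a9_co.h20.Sum
import Pool.Agent.MP_96f5a9_co.h42.Ref
import Pool.Agent.MP_96f5a9_co.h58.NodeG
import Pool.Agent.MP_96f5a9_co.h61.NodeI

/-!
Almost equal generators: choice of the scale and of the constants.
-/

set_option autoImplicit false

namespace Pool.Agent.MP_96f5a9_co.H16

open Finset H51 H59 H80 WA

lemma geo_le (b d A : ℕ) : ∑ j ∈ range A, (if b * 2 ^ j ≤ d then b * 2 ^ j else 0) ≤ 2 * d ∧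
    ∑ j ∈ range A, (if b * 2 ^ j ≤ d then b * 2 ^ j else 0) ≤ b * 2 ^ A := by
  induction A with
  | zero => simp
  | succ A ih =>
    rw [sum_range_succ, pow_succ, ← mul_assoc]
    split_ifs <;> omega

lemma out_le {ι : Type} [Fintype ι] [DecidableEq ι] {g : ι → ℕ} {s m R : ℕ} (hR : R ≤ m) {i : ι}
    (hi : i ∈ (Nr g s R)ᶜ) : R ≤ ds g s m i := by
  simp only [Nr, mem_compl, mem_filter, mem_univ, true_and] at hi
  unfold ds
  omega

lemma exists_scale {ι : Type} [Fintype ι] [DecidableEq ι] (g : ι → ℕ) (s m b A : ℕ) (hA : 0 < A)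
    (hb : b * 2 ^ A ≤ m) :
    ∃ j < A, A * ((Nr g s (b * 2 ^ j))ᶜ.card * (b * 2 ^ j)) ≤ 2 * ∑ i, ds g s m i := by
  by_contra h
  push Not at h
  have h1 : ∑ j ∈ range A, (Nr g s (b * 2 ^ j))ᶜ.card * (b * 2 ^ j) ≤ 2 * ∑ i, ds g s m i := by
    rw [mul_sum]
    refine le_trans ?_ (sum_le_sum fun i _ => (geo_le b (ds g s m i) A).1)
    rw [sum_comm]
    refine sum_le_sum fun j hj => ?_
    have h2 : b * 2 ^ j ≤ m :=
      (Nat.mul_le_mul_left _ (Nat.pow_le_pow_right (by norm_num) (mem_range.1 hj).le)).trans hb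
    rw [← smul_eq_mul, ← sum_const]
    exact (sum_le_sum fun i hi => by rw [if_pos (out_le h2 hi)]).trans
      (sum_le_sum_of_subset (subset_univ _))
  have h2 := sum_lt_sum_of_nonempty (nonempty_range_iff.2 hA.ne') fun j hj => h j (mem_range.1 hj)
  rw [sum_const, card_range, smul_eq_mul, ← mul_sum] at h2
  exact absurd (Nat.mul_le_mul_left A h1) (not_le.2 h2)

lemma card_cells {ι : Type} [Fintype ι] (g : ι → ℕ) (m s R w B : ℕ) (hw : 0 < w)
    (hB : 2 * R ≤ B * w) :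
    ((Nr g s R).image fun k => m + w * ((g k - m) / w)).card ≤ B + 1 := by
  have h : ((Nr g s R).image fun k => m + w * ((g k - m) / w)) ⊆
      (Icc ((s - R - m) / w) ((s - R - m) / w + B)).image fun d => m + w * d := by
    intro x hx
    obtain ⟨k, hk, rfl⟩ := mem_image.1 hx
    simp only [Nr, mem_filter, mem_univ, true_and] at hk
    refine mem_image.2 ⟨_, mem_Icc.2 ⟨Nat.div_le_div_right (by omega), ?_⟩, rfl⟩
    rw [← Nat.add_mul_div_right _ _ hw]
    exact Nat.div_le_div_right (by omega)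
  refine (card_le_card h).trans (card_image_le.trans ?_)
  rw [Nat.card_Icc]
  omega

lemma fin_arith {G m p D E e R w t A J J0 N ε K Er : ℝ} (hm : 0 < m) (hp : 0 < p) (hK : 1 ≤ K)
    (hA : 2 ^ 22 * K ≤ A) (hG : 0 ≤ G) (hD : 0 ≤ D) (hN : N = 2 * D + J0) (hJ : 0 ≤ J)
    (hJ0 : J ≤ J0) (hJt : J0 ≤ 3 * t) (hNp : 64 * N ≤ p) (hpm : 16 * p ≤ m) (hJp : 2 * J0 ^ 2 ≤ p)
    (he : 1 ≤ e) (hE : p * e ≤ E + p) (hR : 0 ≤ R) (hRt : R * A ≤ t * e) (hAt : A ≤ t)
    (hbig : 18000 * t ^ 4 * e ≤ m) (hw : w ≤ e / A + 1) (hε : 0 ≤ ε) (hε1 : 16 * A * ε ≤ 1)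
    (hε2 : A * (ε * R) ≤ 4 * e)
    (hEr : Er ≤ (3 * R * t ^ 2 + 3 * R) * (m * J) +
      N * (8 * R * m / t + 3 * R * (2 * R + m * (9 * ε + 2 * R / m) + m / t ^ 2)))
    (hS : G / 2 + m * (1 / 6 - 14 * ε - 2 * (N / p)) ≤ N * (w + 2 ^ 12 * ε * R) + Er / m +
      N ^ 2 / p * (64 * (3 * R * t ^ 2 + 5 * R) + 100 * ε * m))
    (hg : D * E + m * D ^ 2 ≤ K * (p * (G + m))) : False := by
  have hA1 : 1 ≤ A := by linarith
  have hA0 : 0 < A := by linarith
  have ht1 : 1 ≤ t := by linarith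
  have ht0 : 0 < t := by linarith
  have hN0 : 0 ≤ N := by linarith
  have hRe : R ≤ t * e := by nlinarith only [hRt, hA1, hR]
  have t2 : 1 ≤ t ^ 2 := one_le_pow₀ ht1
  have t3 : t ^ 2 ≤ t ^ 4 := pow_le_pow_right₀ ht1 (by norm_num)
  have t4 : t ≤ t ^ 2 := by nlinarith only [ht1]
  obtain ⟨x, hx⟩ : ∃ x, x = e / A := ⟨_, rfl⟩
  have hxe : A * x = e := by rw [hx]; field_simp
  have hx0 : 0 ≤ x := by rw [hx]; positivity
  rw [← hx] at hw
  have a1 : ε * R ≤ 4 * x := le_of_mul_le_mul_left (by linarith) hA0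
  have a2 : R / t ≤ x := by
    rw [div_le_iff₀ ht0]
    refine le_of_mul_le_mul_left ?_ hA0
    rw [← mul_assoc, hxe]
    linarith only [hRt]
  have a3 : R / t ^ 2 ≤ x := (div_le_div_of_nonneg_left hR ht0 t4).trans a2
  have a4 : R ^ 2 / m ≤ x := by
    rw [div_le_iff₀ hm]
    have b1 : R ≤ t * x := by rwa [div_le_iff₀ ht0, mul_comm] at a2
    have b2 : R * R ≤ t * x * (t * e) := mul_le_mul b1 hRe hR (by positivity)
    have b3 : t ^ 2 * e ≤ m := by nlinarith only [hbig, t3, he, t2]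
    nlinarith only [b2, mul_le_mul_of_nonneg_left b3 hx0]
  have a5 : (3 * R * t ^ 2 + 3 * R) * J ≤ m / 1000 := by
    have b1 : 3 * R * t ^ 2 + 3 * R ≤ 6 * (t * e) * t ^ 2 := by
      nlinarith only [mul_le_mul_of_nonneg_right hRe (show 0 ≤ t ^ 2 by positivity),
        mul_le_mul_of_nonneg_left t2 hR]
    have b2 := mul_le_mul b1 (hJ0.trans hJt) hJ (by positivity)
    linarith only [b2, hbig]
  have a6 : Er / m ≤ m / 1000 + N * (131 * x) := by
    rw [div_le_iff₀ hm]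
    have b1 : 8 * R * m / t + 3 * R * (2 * R + m * (9 * ε + 2 * R / m) + m / t ^ 2) =
        (8 * (R / t) + 12 * (R ^ 2 / m) + 27 * (ε * R) + 3 * (R / t ^ 2)) * m := by
      field_simp
      ring
    have b2 : N * ((8 * (R / t) + 12 * (R ^ 2 / m) + 27 * (ε * R) + 3 * (R / t ^ 2)) * m) ≤
        N * (131 * x * m) := by
      refine mul_le_mul_of_nonneg_left (mul_le_mul_of_nonneg_right ?_ hm.le) hN0
      linarith
    rw [b1] at hEr
    linarith only [hEr, b2, mul_le_mul_of_nonneg_right a5 hm.le]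
  have a7 : 64 * (3 * R * t ^ 2 + 5 * R) + 100 * ε * m ≤ 8 * (m / A) := by
    rw [mul_div_assoc', le_div_iff₀ hA0]
    have b1 : R * A * t ^ 2 ≤ t * e * t ^ 2 := mul_le_mul_of_nonneg_right hRt (by positivity)
    have b2 : t * e * t ^ 2 ≤ t ^ 4 * e := by
      have : t ^ 3 ≤ t ^ 4 := pow_le_pow_right₀ ht1 (by norm_num)
      linarith only [mul_le_mul_of_nonneg_right this (show 0 ≤ e by linarith)]
    have b3 : R * A ≤ R * A * t ^ 2 := le_mul_of_one_le_right (by positivity) t2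
    have b4 : 16 * A * ε * m ≤ 1 * m := mul_le_mul_of_nonneg_right hε1 hm.le
    linarith only [b1, b2, b3, b4, hbig, hm]
  have a8 : N / p ≤ 1 / 64 := by rw [div_le_iff₀ hp]; linarith
  have a9 : 1400 * ε ≤ 1 := by
    linarith only [hε1, hε, mul_le_mul_of_nonneg_right (show 100 ≤ A by linarith) hε]
  have a10 : N * (w + 2 ^ 12 * ε * R) ≤ N * (16385 * x + 1) :=
    mul_le_mul_of_nonneg_left (by linarith) hN0
  have a11 := mul_le_mul_of_nonneg_left a7 (show 0 ≤ N ^ 2 / p by positivity)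
  have a12 : m * (1 / 8) ≤ m * (1 / 6 - 14 * ε - 2 * (N / p)) :=
    mul_le_mul_of_nonneg_left (by linarith) hm.le
  have a13 : (G + m) / 10 ≤ 2 ^ 15 * (N * x) + 2 ^ 15 * (N ^ 2 / p * (m / A)) := by
    have : 0 ≤ N * x := by positivity
    have : 0 ≤ N ^ 2 / p * (m / A) := by positivity
    linarith
  have a14 : p * A * (N * x) ≤ 2 * (D * E) + 2 * (p * m) := by
    have b1 : p * A * (N * x) = 2 * D * (p * e) + p * (J0 * e) := by rw [hN, ← hxe]; ring
    have b2 : J0 * e ≤ m := by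
      have c1 := mul_le_mul_of_nonneg_right hJt (show 0 ≤ e by linarith)
      have c2 := mul_le_mul_of_nonneg_right (t4.trans t3) (show 0 ≤ e by linarith)
      linarith only [c1, c2, hbig, hm]
    have b3 : 2 * D ≤ m := by linarith
    linarith only [b1, mul_le_mul_of_nonneg_left hE hD, mul_le_mul_of_nonneg_left b2 hp.le,
      mul_le_mul_of_nonneg_left b3 hp.le]
  have a15 : p * A * (N ^ 2 / p * (m / A)) ≤ 8 * (m * D ^ 2) + p * m := by
    have b1 : p * A * (N ^ 2 / p * (m / A)) = m * N ^ 2 := by field_simp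
    have b2 : N ^ 2 ≤ 8 * D ^ 2 + p := by
      rw [hN]
      nlinarith only [sq_nonneg (2 * D - J0), hJp]
    rw [b1]
    linarith only [mul_le_mul_of_nonneg_left b2 hm.le]
  have a16 := mul_le_mul_of_nonneg_left a13 (show 0 ≤ p * A by positivity)
  obtain ⟨Y, hY⟩ : ∃ Y, Y = p * (G + m) := ⟨_, rfl⟩
  have hY0 : 0 < Y := by rw [hY]; positivity
  have hY1 : p * m ≤ K * Y := by
    have : p * m ≤ Y := by rw [hY]; nlinarith only [hp, hG]
    nlinarith only [this, hK, hY0]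
  have hDE : 0 ≤ D * E := mul_nonneg hD (by nlinarith only [hE, he, hp])
  rw [← hY] at hg
  have a17 : A * Y / 10 ≤ 2 ^ 15 * (11 * (K * Y)) := by
    have : p * A * ((G + m) / 10) = A * Y / 10 := by rw [hY]; ring
    linarith
  have a18 := mul_le_mul_of_nonneg_right hA hY0.le
  have a19 : 0 < K * Y := by positivity
  linarith

theorem caseII : IIStmt := by
  intro c
  obtain ⟨A, hA⟩ : ∃ A : ℕ, A = 2 ^ 22 * (2 ^ 87 * (c + 1) ^ 3) := ⟨_, rfl⟩
  obtain ⟨Q, hQ⟩ : ∃ Q : ℕ, Q = 64 * 2 ^ A := ⟨_, rfl⟩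
  obtain ⟨t, ht⟩ : ∃ t : ℕ, t = Q * A := ⟨_, rfl⟩
  obtain ⟨k, hk⟩ : ∃ k : ℕ, k = 2 * (18000 * t ^ 4) + 2 ^ 14 * (c + 1) := ⟨_, rfl⟩
  refine ⟨k, 0, k + 128 * (2 * t + 1) ^ 2, ?_⟩
  intro ι _ _ g T m F s h hp0 hpm hs hc _ hE hτ
  by_contra hW
  have hn := (not_wilf hW).2
  have hA0 : 5 ≤ A := by
    have : 1 ≤ (c + 1) ^ 3 := Nat.one_le_pow _ _ (by omega)
    omega
  have hQ0 : 64 ≤ Q := by
    have : 1 ≤ 2 ^ A := Nat.one_le_two_pow
    omega
  have hAt : A ≤ t := by rw [ht]; exact Nat.le_mul_of_pos_left _ (by omega)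
  have hQt : Q ≤ t := by rw [ht]; exact Nat.le_mul_of_pos_right _ (by omega)
  obtain ⟨p, hp⟩ : ∃ p, p = Fintype.card ι := ⟨_, rfl⟩
  obtain ⟨E, hE'⟩ : ∃ E, E = ∑ i, ds g s m i := ⟨_, rfl⟩
  have hJ1 : 2 * t + 1 ≤ (2 * t + 1) ^ 2 := Nat.le_self_pow (by norm_num) _
  have hp1 : 128 ≤ p := by omega
  have hpm' : 16 * p ≤ m := by
    have : 16 * p ≤ p * p := Nat.mul_le_mul_right _ (by omega)
    rw [← hp, pow_two] at hpm
    omega
  have hms : m ≤ s := by
    obtain ⟨i, hi⟩ := card_pos.1 (show 0 < (univ.filter fun i => g i ≤ s).card by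
      have := hs.1; omega)
    exact (h.le i).trans (mem_filter.1 hi).2
  obtain ⟨e, he⟩ : ∃ e, e = E / p + 1 := ⟨_, rfl⟩
  have he1 : p * e ≤ E + p := by rw [he, mul_add, mul_one]; exact Nat.add_le_add_right (Nat.mul_div_le _ _) _
  have he2 : E ≤ p * e := by rw [he]; exact (Nat.lt_mul_div_succ E (by omega)).le
  have he0 : 1 ≤ e := he ▸ Nat.le_add_left _ _
  have hbig : 18000 * t ^ 4 * e ≤ m := by
    rw [← hp, ← hE'] at hE
    have a1 : p * (k * e) ≤ p * (2 * m) := by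
      have b1 := Nat.mul_le_mul_left k he1
      have b2 : k * p ≤ m * p := Nat.mul_le_mul_right _ (by omega)
      nlinarith only [b1, b2, hE]
    have a2 := Nat.le_of_mul_le_mul_left a1 (by omega)
    have a3 : 2 * (18000 * t ^ 4) * e ≤ k * e := Nat.mul_le_mul_right _ (by omega)
    nlinarith only [a2, a3]
  have t3 : t ^ 3 ≤ t ^ 4 := Nat.pow_le_pow_right (by omega) (by norm_num)
  have t1 : t ≤ t ^ 4 := Nat.le_self_pow (by norm_num) _
  have hte : 18000 * (t * e) ≤ m := by nlinarith only [hbig, Nat.mul_le_mul_right e t1]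
  have hQe : Q * e ≤ t * e := Nat.mul_le_mul_right _ hQt
  obtain ⟨j, hj, hZ⟩ := exists_scale g s m (64 * e) A (by omega) (by
    have : 64 * e * 2 ^ A = Q * e := by rw [hQ]; ring
    omega)
  obtain ⟨R, hR⟩ : ∃ R, R = 64 * e * 2 ^ j := ⟨_, rfl⟩
  rw [← hR, ← hE'] at hZ
  have hR1 : 64 * e ≤ R := by rw [hR]; exact Nat.le_mul_of_pos_right _ (by positivity)
  have hR2 : R ≤ Q * e := by
    have := Nat.mul_le_mul_left (64 * e) (Nat.pow_le_pow_right (show 0 < 2 by norm_num) hj.le)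
    rw [hR, hQ]
    linarith only [this]
  have hRA : R * A ≤ t * e := by
    rw [ht]
    linarith only [Nat.mul_le_mul_right A hR2]
  have hL : 4 * (3 * R * t ^ 2) ≤ m := by
    nlinarith only [hbig, Nat.mul_le_mul_right (t ^ 2) (hR2.trans hQe), Nat.mul_le_mul_right e t3]
  have hcc : (Nr g s R).card + (Nr g s R)ᶜ.card = p := by rw [hp]; exact card_add_card_compl _
  have hZ1 : 32 * (A * (Nr g s R)ᶜ.card) ≤ p := by
    refine Nat.le_of_mul_le_mul_right ?_ (show 0 < 2 * e by omega)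
    nlinarith only [hZ, he2, Nat.mul_le_mul_left (A * (Nr g s R)ᶜ.card) hR1]
  have hZ2 : 5 * (Nr g s R)ᶜ.card ≤ A * (Nr g s R)ᶜ.card := Nat.mul_le_mul_right _ hA0
  have hI : 15 * Fintype.card ι ≤ 16 * (Nr g s (16 * e)).card := by
    have a1 : (Nr g s (16 * e))ᶜ.card * (16 * e) ≤ E := by
      rw [hE', ← smul_eq_mul]
      exact (card_nsmul_le_sum _ _ _ fun i hi => out_le (by omega) hi).trans
        (sum_le_sum_of_subset (subset_univ _))
    have a2 : 16 * (Nr g s (16 * e))ᶜ.card ≤ p := by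
      refine Nat.le_of_mul_le_mul_right ?_ (show 0 < e by omega)
      linarith only [a1, he2]
    have a3 := card_add_card_compl (Nr g s (16 * e))
    omega
  have hne : (Nr g s R).Nonempty := card_pos.1 (by omega)
  obtain ⟨w, hw⟩ : ∃ w, w = e / A + 1 := ⟨_, rfl⟩
  have hw0 : 0 < w := hw ▸ Nat.succ_pos _
  have hw1 : e ≤ A * w := by rw [hw]; exact (Nat.lt_mul_div_succ e (by omega)).le
  have hw2 : w ≤ R := by
    have := Nat.div_le_self e A
    omega
  obtain ⟨γ, hγ⟩ : ∃ γ : ι → ℕ, γ = fun k => m + w * ((g k - m) / w) := ⟨_, rfl⟩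
  have hγ1 : ∀ k ∈ Nr g s R, m ≤ γ k ∧ γ k ≤ g k ∧ g k ≤ γ k + w ∧ g k ≤ s + R ∧ s ≤ g k + R := by
    intro k hk
    simp only [Nr, mem_filter, mem_univ, true_and] at hk
    have a1 := h.le k
    have a2 := Nat.div_add_mod (g k - m) w
    have a3 := Nat.mod_lt (g k - m) hw0
    simp only [hγ]
    omega
  have hJ : ((Nr g s R).image γ).card ≤ 2 * t + 1 := by
    rw [hγ]
    refine card_cells g m s R w _ hw0 ?_
    rw [ht]
    nlinarith only [hR2, Nat.mul_le_mul_left Q hw1]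
  have hC0 : (0 : ℝ) < (Nr g s R).card := by exact_mod_cast hne.card_pos
  have hm0 : (0 : ℝ) < m := by exact_mod_cast h.pos
  have hs0 : (0 : ℝ) < s := Nat.cast_pos.2 (h.pos.trans_le hms)
  have hp0' : (0 : ℝ) < p := by exact_mod_cast (show 0 < p by omega)
  obtain ⟨ε, hε⟩ : ∃ ε : ℝ, ε = (Nr g s R)ᶜ.card / (Nr g s R).card := ⟨_, rfl⟩
  have hε0 : 0 ≤ ε := hε ▸ div_nonneg (Nat.cast_nonneg _) (Nat.cast_nonneg _)
  have hε1 : 16 * A * ε ≤ 1 := by
    rw [hε, mul_div_assoc', div_le_one hC0]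
    exact_mod_cast (show 16 * A * (Nr g s R)ᶜ.card ≤ (Nr g s R).card by
      rw [mul_assoc]; omega)
  have hε2 : A * (ε * R) ≤ 4 * e := by
    rw [hε, div_mul_eq_mul_div, mul_div_assoc', div_le_iff₀ hC0]
    have a1 : p * e ≤ 2 * (Nr g s R).card * e := Nat.mul_le_mul_right _ (by omega)
    exact_mod_cast (show A * ((Nr g s R)ᶜ.card * R) ≤ 4 * e * (Nr g s R).card by
      linarith only [hZ, he2, a1])
  have hA5 : (5 : ℝ) ≤ A := by exact_mod_cast hA0
  have hε3 : 72 * ε ≤ 1 := by nlinarith only [hε0, hε1, hA5]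
  have hRm : 16 * (R : ℝ) ≤ m := by exact_mod_cast (show 16 * R ≤ m by omega)
  have hms' : (m : ℝ) ≤ s := by exact_mod_cast hms
  have hξ : 2 * (R : ℝ) / m ≤ 1 / 8 := by rw [div_le_iff₀ hm0]; linarith
  obtain ⟨D, hD⟩ : ∃ D : ℝ, D = (F + m : ℕ) / s := ⟨_, rfl⟩
  have hD0 : 0 ≤ D := by rw [hD]; positivity
  have hDs : D * s = (F + m : ℕ) := by rw [hD]; field_simp
  have hN1 : ((F + m : ℕ) : ℝ) ≤ 2 * D * (s - R) := by
    nlinarith only [hDs, mul_le_mul_of_nonneg_left (show 2 * (R : ℝ) ≤ s by linarith) hD0]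
  have hJ2 : 128 * (2 * (t : ℝ) + 1) ^ 2 ≤ p := by
    exact_mod_cast (show 128 * (2 * t + 1) ^ 2 ≤ p by omega)
  have hNp : 64 * (2 * D + (2 * t + 1)) ≤ p := by
    have a1 : 128 * (2 * (t : ℝ) + 1) ≤ p := by
      exact_mod_cast (show 128 * (2 * t + 1) ≤ p by omega)
    have a2 : 256 * ((F + m : ℕ) : ℝ) ≤ p * s := by
      have : 256 * (F + m) ≤ k * (F + m) := Nat.mul_le_mul_right _ (by omega)
      exact_mod_cast (show 256 * (F + m) ≤ p * s by rw [hp]; omega)
    have a3 : 256 * D ≤ p := le_of_mul_le_mul_right (by linarith only [a2, hDs]) hs0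
    linarith
  obtain ⟨href, hq⟩ := H42.ref ι g γ (Nr g s R) m s R w hne (by omega) (by omega) hms hw2 hγ1
  obtain ⟨Fr, r, qh, hrare⟩ := rare ι g (Nr g s R)ᶜ m s R _ (Nr g s R).card _ href hC0
    (by exact_mod_cast (show 14 * (Nr g s R)ᶜ.card ≤ (Nr g s R).card by omega))
    (fun i hi => ⟨h.le i, by
      simp only [Nr, mem_compl, mem_filter, mem_univ, true_and] at hi
      omega⟩)
    (by
      have a1 : ∑ i ∈ (Nr g s R)ᶜ, ds g s m i ≤ E := hE' ▸ sum_le_sum_of_subset (subset_univ _)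
      have a2 : p * e ≤ (Nr g s R).card * R := by
        nlinarith only [Nat.mul_le_mul_left (Nr g s R).card hR1,
          Nat.mul_le_mul_right e (show p ≤ 2 * (Nr g s R).card by omega)]
      exact_mod_cast a1.trans (he2.trans a2))
  obtain ⟨hh1, hh2, err, err0, hEr, hcell⟩ := cellS ι g γ (Nr g s R) m s R t (9 * ε + 2 * R / m)
    (2 * D + (2 * t + 1)) hne (by omega) (by omega) hms (by omega) hL (by positivity)
    (by linarith) (by positivity) fun k hk => by have := hγ1 k hk; omega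
  have hJ' : (((Nr g s R).image γ).card : ℝ) ≤ 2 * t + 1 := by exact_mod_cast hJ
  have cert : Cert g γ T m F s R (16 * e) t w _ ε (2 * D + (2 * t + 1)) _ Fr r qh err :=
    ⟨h, href, hrare, hne, by field_simp, by rw [hε]; field_simp, hε3, by omega, hI, by omega, hL,
      hh1, hh2, err0, fun z hz l hl => by
        have a1 : dp (Nr g s R) z * (s - R) ≤ F + m := by
          refine le_trans ?_ (h.top z hz)
          rw [dp, sum_mul]
          refine (sum_le_sum fun k hk => Nat.mul_le_mul_left _ ?_).trans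
            (sum_le_sum_of_subset (subset_univ _))
          have := hγ1 k hk
          omega
        have a2 : (dp (Nr g s R) z : ℝ) * (s - R) ≤ (F + m : ℕ) := by
          rw [← Nat.cast_sub (by omega)]
          exact_mod_cast a1
        have a3 : (dp (Nr g s R) z : ℝ) ≤ 2 * D :=
          le_of_mul_le_mul_right (a2.trans hN1) (by linarith)
        have a4 := hcell z l hl (by linarith)
        simpa only [wp, Nat.cast_sum, Nat.cast_mul] using a4,
      hq, hN1.trans (mul_le_mul_of_nonneg_right (le_add_of_nonneg_right (by positivity))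
        (by linarith)), hp ▸ hNp, hn⟩
  have hG := H58.nodeG ι g γ T m F s R _ t w _ ε _ _ Fr r qh err cert
  have hS := sumS H58.nodeG H61.nodeI H7.errS ι g γ T m F s R _ t w _ ε _ _ Fr r qh err cert hW
  have hg := gain2_real (R := 16 * e) (R1 := R) (by omega) h.le h.down h.card h.inj h.top
    (by omega) (by omega) hs.1 hs.2 (by omega) (by omega) hI (by rw [← hp, ← hE']; nlinarith only [he1])
    hn hc ((Nat.mul_le_mul_right _ (by omega)).trans hτ) _ (fun y hy => (hG y hy).1)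
    fun y hy => (hG y hy).2
  rw [← hp] at hS
  rw [← hp, ← hE', ← hDs] at hg
  refine fin_arith (K := 2 ^ 87 * (c + 1) ^ 3) (E := E) (A := A) (e := e) hm0 hp0' ?_ ?_
    (sum_nonneg fun y hy => ?_) hD0 rfl (Nat.cast_nonneg _) hJ' ?_ hNp (by exact_mod_cast hpm')
    (by nlinarith only [hJ2, sq_nonneg (2 * (t : ℝ) + 1)]) (by exact_mod_cast he0)
    (by exact_mod_cast he1) (by positivity)
    (by exact_mod_cast hRA) (by exact_mod_cast hAt) (by exact_mod_cast hbig) ?_ hε0 hε1 hε2 hEr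
    hS ?_
  · have : (1 : ℝ) ≤ (c + 1) ^ 3 := one_le_pow₀ (by linarith [Nat.cast_nonneg (α := ℝ) c])
    linarith
  · rw [hA]
    push_cast
    norm_num
  · have := (hG y hy).2
    have := Nat.cast_nonneg (α := ℝ) (univ.filter fun i =>
      y + ee i ∉ T ∧ Pr m s R (F + m - wt g y) (g i)).card
    linarith
  · have : (1 : ℝ) ≤ t := by exact_mod_cast (show 1 ≤ t by omega)
    linarith
  · rw [hw]
    push_cast
    exact add_le_add Nat.cast_div_le le_rfl
  · refine le_of_mul_le_mul_right ?_ (mul_pos hs0 hs0)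
    linarith only [hg]

end Pool.Agent.MP_96f5a9_co.H16
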