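import Mathlib
import Pool.Agent.MP_96f5a9_co.h16.RareA
import Pool.Agent.MP_96f5a9_co.h59a.Basic
import Pool.Agent.MP_96f5a9_co.h80.G2

/-!
Almost equal generators: the flow and the statements of the summation modules.
-/

set_option autoImplicit false

namespace Pool.Agent.MP_96f5a9_co.H16

open Finset H51 H59 H80 WA

variable {ι : Type} [Fintype ι] [DecidableEq ι]

/-- The supply left for the central generators at depth `x`. -/
noncomputable def BB (C : Finset ι) (m : ℕ) (Fr : ι → ℕ → ℝ) (x : ℕ) : ℝ :=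
  fl m x + (Cᶜ.card * fl m x - ∑ i ∈ Cᶜ, Fr i x) / C.card

/-- The flow. -/
noncomputable def ff (g γ : ι → ℕ) (C : Finset ι) (M m L : ℕ) (gb ξ : ℝ) (Fr : ι → ℕ → ℝ)
    (y : ι → ℕ) (i : ι) : ℝ :=
  (if i ∈ C then g i / gb * BB C m Fr (M - wt g y) + bt m L ξ (M - wt g y) * hh C γ y i
    else Fr i (M - wt g y)) / m

/-- The data of the certificate. -/
structure Cert (g γ : ι → ℕ) (T : Finset (ι → ℕ)) (m F s R R0 t w : ℕ) (gb ε N : ℝ) (q : ℕ → ℝ)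
    (Fr : ι → ℕ → ℝ) (r qh err : ℕ → ℝ) : Prop where
  md : Md g T m F
  ref : Ref m s R gb q
  rare : Rare g (Nr g s R)ᶜ m s R gb (Nr g s R).card q Fr r qh
  ne : (Nr g s R).Nonempty
  gb_eq : gb * (Nr g s R).card = ∑ k ∈ Nr g s R, (g k : ℝ)
  eps : ε * (Nr g s R).card = (Nr g s R)ᶜ.card
  eps_le : 72 * ε ≤ 1
  R0_le : R0 ≤ R
  inner : 15 * Fintype.card ι ≤ 16 * (Nr g s R0).card
  t1 : 1 ≤ t
  L_le : 4 * (3 * R * t ^ 2) ≤ m
  hh1 : ∀ y k, -1 ≤ hh (Nr g s R) γ y k ∧ hh (Nr g s R) γ y k ≤ 1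
  hh2 : ∀ y, ∑ k ∈ Nr g s R, hh (Nr g s R) γ y k ≤ 0
  err0 : ∀ j, 0 ≤ err j
  cell : ∀ z ∈ T, ∀ l < m, (wp g (Nr g s R) z : ℝ) * q l - err ((l + (s - 2 * R)) % m) ≤
    ∑ k ∈ Nr g s R, (z k : ℝ) * (g k / gb * fl m (l + g k) +
      bt m (3 * R * t ^ 2) (9 * ε + 2 * R / m) (l + g k) * hh (Nr g s R) γ (z - ee k) k)
  q_sum : (m : ℝ) * (1 - w / gb) ≤ ∑ l ∈ range m, q l
  N1 : ((F + m : ℕ) : ℝ) ≤ N * (s - R)
  N2 : 64 * N ≤ Fintype.card ι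
  hn : Fintype.card ι * ∑ x ∈ T, (F + m - wt g x) / m ≤ F + m

/-- The depths at which a point below the top may be underpaid. -/
def Win (m s R L x : ℕ) : Prop := m ≤ x % m + L ∨ m ≤ (x + (s - 2 * R)) % m + L + 3 * R

instance (m s R L x : ℕ) : Decidable (Win m s R L x) := by unfold Win; infer_instance

/-- The deficit of a point below the top. -/
noncomputable def dfc (g : ι → ℕ) (M m s R L : ℕ) (gb ε N : ℝ) (z : ι → ℕ) : ℝ :=
  N * ((if Win m s R L (M - wt g z) then 4 * (m : ℝ) else 0) +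
      ε * (27 * m + 14 * m * fl m (M - wt g z) / gb)) +
    2 * m / gb * (wp g (Nr g s R)ᶜ z + fl m (M - wt g z))

/-- row NODEG: the gain at a point -/
def NodeGStmt : Prop := ∀ (ι : Type) [Fintype ι] [DecidableEq ι] (g γ : ι → ℕ)
  (T : Finset (ι → ℕ)) (m F s R R0 t w : ℕ) (gb ε N : ℝ) (q : ℕ → ℝ) (Fr : ι → ℕ → ℝ)
  (r qh err : ℕ → ℝ), Cert g γ T m F s R R0 t w gb ε N q Fr r qh err → ∀ y ∈ T,
  (((F + m - wt g y) / m * (Fintype.card ι - 8 * live T (Nr g s R0) y) : ℕ) : ℝ) ≤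
      2 * (ded T (ff g γ (Nr g s R) (F + m) m (3 * R * t ^ 2) gb (9 * ε + 2 * R / m) Fr) y +
        slk g (F + m) m (ff g γ (Nr g s R) (F + m) m (3 * R * t ^ 2) gb (9 * ε + 2 * R / m) Fr) y) ∧
    ((univ.filter fun i => y + ee i ∉ T ∧ Pr m s R (F + m - wt g y) (g i)).card : ℝ) ≤
      16 * (ded T (ff g γ (Nr g s R) (F + m) m (3 * R * t ^ 2) gb (9 * ε + 2 * R / m) Fr) y +
        slk g (F + m) m (ff g γ (Nr g s R) (F + m) m (3 * R * t ^ 2) gb (9 * ε + 2 * R / m) Fr) y)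

/-- row NODEI: the income of a point -/
def NodeIStmt : Prop := ∀ (ι : Type) [Fintype ι] [DecidableEq ι] (g γ : ι → ℕ)
  (T : Finset (ι → ℕ)) (m F s R R0 t w : ℕ) (gb ε N : ℝ) (q : ℕ → ℝ) (Fr : ι → ℕ → ℝ)
  (r qh err : ℕ → ℝ), Cert g γ T m F s R R0 t w gb ε N q Fr r qh err → ∀ z ∈ T,
  (((F + m : ℕ) : ℝ) - ((F + m - wt g z) % m : ℕ)) * r ((F + m - wt g z) % m) -
      (if F + m - wt g z < m then err (((F + m - wt g z) % m + (s - 2 * R)) % m)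
        else dfc g (F + m) m s R (3 * R * t ^ 2) gb ε N z) ≤
    m * (aa g (F + m) m z +
      inc (ff g γ (Nr g s R) (F + m) m (3 * R * t ^ 2) gb (9 * ε + 2 * R / m) Fr) z)

/-- row ERR: the total deficit below the top -/
def ErrStmt : Prop := ∀ (ι : Type) [Fintype ι] [DecidableEq ι] (g γ : ι → ℕ)
  (T : Finset (ι → ℕ)) (m F s R R0 t w : ℕ) (gb ε N : ℝ) (q : ℕ → ℝ) (Fr : ι → ℕ → ℝ)
  (r qh err : ℕ → ℝ), Cert g γ T m F s R R0 t w gb ε N q Fr r qh err →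
  ∑ z ∈ T.filter (fun z => ¬ F + m - wt g z < m), dfc g (F + m) m s R (3 * R * t ^ 2) gb ε N z ≤
    7 * m * (N / Fintype.card ι) * Gam g T (F + m) m (Nr g s R0) +
      m * (N ^ 2 / Fintype.card ι) * (64 * (3 * R * t ^ 2 + 5 * R) + 100 * ε * m) +
        2 * m ^ 2 * (N / Fintype.card ι)

/-- row SUM: the balance -/
def SumStmt : Prop := ∀ (ι : Type) [Fintype ι] [DecidableEq ι] (g γ : ι → ℕ)
  (T : Finset (ι → ℕ)) (m F s R R0 t w : ℕ) (gb ε N : ℝ) (q : ℕ → ℝ) (Fr : ι → ℕ → ℝ)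
  (r qh err : ℕ → ℝ), Cert g γ T m F s R R0 t w gb ε N q Fr r qh err → ¬ Wilf g T m F →
  (∑ y ∈ T, (ded T (ff g γ (Nr g s R) (F + m) m (3 * R * t ^ 2) gb (9 * ε + 2 * R / m) Fr) y +
      slk g (F + m) m (ff g γ (Nr g s R) (F + m) m (3 * R * t ^ 2) gb (9 * ε + 2 * R / m) Fr) y)) / 2 +
      m * (1 / 6 - 14 * ε - 2 * (N / Fintype.card ι)) ≤
    N * (w + 2 ^ 12 * ε * R) + (∑ j ∈ range m, err j) / m +
      N ^ 2 / Fintype.card ι * (64 * (3 * R * t ^ 2 + 5 * R) + 100 * ε * m)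

end Pool.Agent.MP_96f5a9_co.H16
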